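import Pool.Agent.Helper21.WC.Uni

/-!
# Asymptotics of the density of the tops of winding clusters
-/

namespace Pool.Agent.Helper21.WC

open Finset Filter Topology

/-- the limit coefficients -/
noncomputable def Ac (k : ℕ) : ℝ := 3 * k * (k.centralBinom : ℝ) / 4 ^ k

/-- `∑_{j<k} j²` -/
noncomputable def sg2 (k : ℕ) : ℝ := (k - 1) * k * (2 * k - 1) / 6

theorem Ac_nonneg (k : ℕ) : 0 ≤ Ac k := by
  unfold Ac
  positivity

theorem Ac_succ {k : ℕ} (hk : 1 ≤ k) : Ac (k + 1) = Ac k * ((2 * k + 1) / (2 * k)) := by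
  unfold Ac
  have h := cb_succ k
  have hk' : (k : ℝ) ≠ 0 := by positivity
  have h2 : ((k : ℝ) + 1) ≠ 0 := by positivity
  have h3 : ((k + 1).centralBinom : ℝ) = 2 * (2 * k + 1) * k.centralBinom / (k + 1) := by
    rw [← h]; field_simp
  rw [h3, pow_succ]
  push_cast
  field_simp
  ring

theorem P_one {M : ℕ} (hM : 1 ≤ M) : 2 * (M : ℝ) * P M 1 =
    Ac 1 * (4 * (M : ℝ) ^ 2 / (4 * (M : ℝ) ^ 2 - 1)) := by
  obtain ⟨n, rfl⟩ : ∃ n, M = n + 1 := ⟨M - 1, by omega⟩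
  unfold P Ac
  rw [if_pos (by omega)]
  rw [show n + 1 + 1 - 1 = n + 1 by omega, show 2 * (n + 1) - 1 - 1 = 2 * n by omega,
    show n + 1 - 1 = n by omega, show 2 * (n + 1) + 1 = 2 * n + 1 + 1 + 1 by omega,
    fac_succ (2 * n + 1 + 1), fac_succ (2 * n + 1), fac_succ (2 * n), fac_succ n]
  have f1 : (n.factorial : ℝ) ≠ 0 := by positivity
  have f2 : ((2 * n).factorial : ℝ) ≠ 0 := by positivity
  have f3 : (4 * ((n : ℝ) + 1) ^ 2 - 1) = (2 * n + 1) * (2 * n + 3) := by ring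
  have f4 : (2 * (n : ℝ) + 1) ≠ 0 := by positivity
  have f5 : (2 * (n : ℝ) + 3) ≠ 0 := by positivity
  have f6 : (2 * (n : ℝ) + 1 + 1) ≠ 0 := by positivity
  have f7 : (2 * (n : ℝ) + 1 + 1 + 1) ≠ 0 := by positivity
  have hcb : (Nat.centralBinom 1 : ℝ) = 2 := by
    rw [Nat.centralBinom]
    norm_num
  rw [hcb]
  push_cast
  rw [f3]
  field_simp
  ring

theorem P_upper {M : ℕ} (hM : 1 ≤ M) {k : ℕ} (hk : 1 ≤ k) : 2 * (M : ℝ) * P M k ≤
    Ac k * (4 * (M : ℝ) ^ 2 / (4 * (M : ℝ) ^ 2 - 1)) := by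
  have hM1 : (1 : ℝ) ≤ M := by exact_mod_cast hM
  have hc : 0 ≤ 4 * (M : ℝ) ^ 2 / (4 * (M : ℝ) ^ 2 - 1) :=
    div_nonneg (by positivity) (by nlinarith)
  induction k, hk using Nat.le_induction with
  | base => exact (P_one hM).le
  | succ k hk ih =>
    rcases Nat.lt_or_ge M (k + 1) with h | h
    · rw [P_big h, mul_zero]
      exact mul_nonneg (Ac_nonneg _) hc
    · have h1 := P_ratio (M := M) hk (by omega)
      have hk1 : (1 : ℝ) ≤ k := by exact_mod_cast hk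
      have hkM : (k : ℝ) + 1 ≤ M := by exact_mod_cast h
      have hpos : 0 < k * (4 * (M : ℝ) ^ 2 - (k + 1) ^ 2) := by
        apply mul_pos (by linarith)
        nlinarith
      have h2 : P M (k + 1) = P M k * (2 * (2 * k + 1) * ((M : ℝ) ^ 2 - k ^ 2)) /
          (k * (4 * (M : ℝ) ^ 2 - (k + 1) ^ 2)) := by
        rw [← h1, mul_div_assoc, div_self hpos.ne', mul_one]
      have h3 : (2 * (2 * k + 1) * ((M : ℝ) ^ 2 - k ^ 2)) /
          (k * (4 * (M : ℝ) ^ 2 - (k + 1) ^ 2)) ≤ (2 * k + 1) / (2 * k) := by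
        rw [div_le_div_iff₀ hpos (by linarith)]
        have : 4 * ((M : ℝ) ^ 2 - k ^ 2) ≤ 4 * (M : ℝ) ^ 2 - (k + 1) ^ 2 := by nlinarith
        calc 2 * (2 * (k : ℝ) + 1) * ((M : ℝ) ^ 2 - k ^ 2) * (2 * k) =
            ((2 * k + 1) * k) * (4 * ((M : ℝ) ^ 2 - k ^ 2)) := by ring
          _ ≤ ((2 * k + 1) * k) * (4 * (M : ℝ) ^ 2 - (k + 1) ^ 2) :=
            mul_le_mul_of_nonneg_left this (by positivity)
          _ = _ := by ring
      rw [Ac_succ hk]
      calc 2 * (M : ℝ) * P M (k + 1) = (2 * M * P M k) * ((2 * (2 * k + 1) * ((M : ℝ) ^ 2 - k ^ 2)) /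
          (k * (4 * (M : ℝ) ^ 2 - (k + 1) ^ 2))) := by rw [h2]; ring
        _ ≤ (2 * M * P M k) * ((2 * k + 1) / (2 * k)) :=
          mul_le_mul_of_nonneg_left h3 (mul_nonneg (by positivity) (P_nonneg _ _))
        _ ≤ (Ac k * (4 * (M : ℝ) ^ 2 / (4 * (M : ℝ) ^ 2 - 1))) * ((2 * k + 1) / (2 * k)) :=
          mul_le_mul_of_nonneg_right ih (by positivity)
        _ = _ := by ring

theorem sg2_nonneg {k : ℕ} (hk : 1 ≤ k) : 0 ≤ sg2 k := by
  unfold sg2
  have hk1 : (1 : ℝ) ≤ k := by exact_mod_cast hk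
  have h1 : 0 ≤ (k : ℝ) - 1 := by linarith
  have h2 : 0 ≤ 2 * (k : ℝ) - 1 := by linarith
  positivity

theorem P_lower {M : ℕ} (hM : 1 ≤ M) {k : ℕ} (hk : 1 ≤ k) :
    Ac k * (1 - sg2 k / (M : ℝ) ^ 2) ≤ 2 * (M : ℝ) * P M k := by
  have hM1 : (1 : ℝ) ≤ M := by exact_mod_cast hM
  have hM2 : (0 : ℝ) < (M : ℝ) ^ 2 := by positivity
  rcases Nat.lt_or_ge M k with h | h
  · rw [P_big h, mul_zero]
    apply mul_nonpos_of_nonneg_of_nonpos (Ac_nonneg _)
    have hkM : (M : ℝ) + 1 ≤ k := by exact_mod_cast h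
    rw [sub_nonpos, le_div_iff₀ hM2, one_mul]
    unfold sg2
    have h1 : (M : ℝ) * (M + 1) ≤ (k - 1) * k := by nlinarith
    have h2 : 2 * (M : ℝ) + 1 ≤ 2 * k - 1 := by linarith
    have h3 : (M : ℝ) * (M + 1) * (2 * M + 1) ≤ (k - 1) * k * (2 * k - 1) :=
      mul_le_mul h1 h2 (by positivity) (by nlinarith)
    nlinarith [mul_nonneg (by linarith : (0 : ℝ) ≤ M - 1) (by linarith : (0 : ℝ) ≤ 2 * M - 1)]
  · induction k, hk using Nat.le_induction with
    | base =>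
      rw [P_one hM]
      apply mul_le_mul_of_nonneg_left _ (Ac_nonneg _)
      rw [le_div_iff₀ (by nlinarith)]
      have : sg2 1 = 0 := by unfold sg2; norm_num
      rw [this]
      simp
    | succ k hk ih =>
      have ih := ih (by omega)
      have h1 := P_ratio (M := M) hk (by omega)
      have hk1 : (1 : ℝ) ≤ k := by exact_mod_cast hk
      have hkM : (k : ℝ) + 1 ≤ M := by exact_mod_cast h
      have hpos : 0 < k * (4 * (M : ℝ) ^ 2 - (k + 1) ^ 2) := by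
        apply mul_pos (by linarith)
        nlinarith
      have h2 : P M (k + 1) = P M k * (2 * (2 * k + 1) * ((M : ℝ) ^ 2 - k ^ 2)) /
          (k * (4 * (M : ℝ) ^ 2 - (k + 1) ^ 2)) := by
        rw [← h1, mul_div_assoc, div_self hpos.ne', mul_one]
      have hkk : 0 ≤ (M : ℝ) ^ 2 - k ^ 2 := by nlinarith
      have h3 : (2 * k + 1) / (2 * k) * (1 - (k : ℝ) ^ 2 / (M : ℝ) ^ 2) ≤
          (2 * (2 * k + 1) * ((M : ℝ) ^ 2 - k ^ 2)) / (k * (4 * (M : ℝ) ^ 2 - (k + 1) ^ 2)) := by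
        have e : (2 * k + 1) / (2 * k) * (1 - (k : ℝ) ^ 2 / (M : ℝ) ^ 2) =
            (2 * (2 * k + 1) * ((M : ℝ) ^ 2 - k ^ 2)) / (k * (4 * (M : ℝ) ^ 2)) := by
          field_simp
          ring
        rw [e]
        apply div_le_div_of_nonneg_left (by positivity) hpos
        apply mul_le_mul_of_nonneg_left _ (by linarith)
        nlinarith
      rw [Ac_succ hk]
      have hfac : 0 ≤ 1 - (k : ℝ) ^ 2 / (M : ℝ) ^ 2 := by
        rw [sub_nonneg, div_le_one hM2]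
        linarith
      have hs : sg2 (k + 1) = sg2 k + (k : ℝ) ^ 2 := by
        unfold sg2
        push_cast
        ring
      have h4 : 1 - sg2 (k + 1) / (M : ℝ) ^ 2 ≤
          (1 - sg2 k / (M : ℝ) ^ 2) * (1 - (k : ℝ) ^ 2 / (M : ℝ) ^ 2) := by
        rw [hs, add_div]
        have : 0 ≤ (sg2 k / (M : ℝ) ^ 2) * ((k : ℝ) ^ 2 / (M : ℝ) ^ 2) :=
          mul_nonneg (div_nonneg (sg2_nonneg hk) hM2.le) (by positivity)
        nlinarith
      calc Ac k * ((2 * k + 1) / (2 * k)) * (1 - sg2 (k + 1) / (M : ℝ) ^ 2)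
          ≤ Ac k * ((2 * k + 1) / (2 * k)) *
            ((1 - sg2 k / (M : ℝ) ^ 2) * (1 - (k : ℝ) ^ 2 / (M : ℝ) ^ 2)) :=
          mul_le_mul_of_nonneg_left h4 (mul_nonneg (Ac_nonneg _) (by positivity))
        _ = (Ac k * (1 - sg2 k / (M : ℝ) ^ 2)) *
            ((2 * k + 1) / (2 * k) * (1 - (k : ℝ) ^ 2 / (M : ℝ) ^ 2)) := by ring
        _ ≤ (2 * M * P M k) * ((2 * k + 1) / (2 * k) * (1 - (k : ℝ) ^ 2 / (M : ℝ) ^ 2)) :=
          mul_le_mul_of_nonneg_right ih (mul_nonneg (by positivity) hfac)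
        _ ≤ (2 * M * P M k) * ((2 * (2 * k + 1) * ((M : ℝ) ^ 2 - k ^ 2)) /
            (k * (4 * (M : ℝ) ^ 2 - (k + 1) ^ 2))) :=
          mul_le_mul_of_nonneg_left h3 (mul_nonneg (by positivity) (P_nonneg _ _))
        _ = 2 * M * P M (k + 1) := by rw [h2]; ring

/-! ### the series -/

theorem choose_rec (a : ℝ) (n : ℕ) :
    Ring.choose a (n + 1) * (n + 1) = Ring.choose a n * (a - n) := by
  rw [Ring.choose_eq_smul, Ring.choose_eq_smul, descPochhammer_succ_right,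
    Polynomial.smeval_mul, Polynomial.smeval_sub, Polynomial.smeval_X, Polynomial.smeval_natCast,
    Nat.factorial_succ]
  simp only [smul_eq_mul, nsmul_eq_mul, pow_one, npow_zero]
  push_cast
  have h1 : ((n : ℝ) + 1) ≠ 0 := by positivity
  have h2 : ((n.factorial : ℝ)) ≠ 0 := by positivity
  field_simp

theorem choose_val (n : ℕ) :
    Ring.choose (-3 / 2 : ℝ) n = (-1) ^ n * ((2 * n + 1) * (n.centralBinom : ℝ) / 4 ^ n) := by
  induction n with
  | zero => simp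
  | succ n ih =>
    have h1 : ((n : ℝ) + 1) ≠ 0 := by positivity
    apply mul_right_cancel₀ h1
    rw [choose_rec, ih]
    have h := cb_succ n
    have h3 : ((n + 1).centralBinom : ℝ) = 2 * (2 * n + 1) * n.centralBinom / (n + 1) := by
      rw [← h]; field_simp
    rw [h3, pow_succ, pow_succ]
    push_cast
    field_simp
    ring

/-- the generating function `(1-u)^{-3/2}` -/
theorem hasSum_three_half {u : ℝ} (h0 : 0 ≤ u) (h1 : u < 1) :
    HasSum (fun n : ℕ => (2 * n + 1) * (n.centralBinom : ℝ) / 4 ^ n * u ^ n)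
      ((1 - u) ^ (-3 / 2 : ℝ)) := by
  have h := (Real.one_add_rpow_hasFPowerSeriesOnBall_zero (a := (-3 / 2 : ℝ))).hasSum
    (y := -u) (by
      simp only [Metric.mem_eball, edist_zero_right]
      rw [enorm_neg, ← ofReal_norm, Real.norm_eq_abs, abs_of_nonneg h0]
      exact_mod_cast (ENNReal.ofReal_lt_one.2 h1))
  simp only [zero_add] at h
  have e : (fun n : ℕ => (binomialSeries ℝ (-3 / 2 : ℝ)) n fun _ => -u) =
      fun n : ℕ => (2 * n + 1) * (n.centralBinom : ℝ) / 4 ^ n * u ^ n := by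
    funext n
    rw [binomialSeries_apply, choose_val]
    simp only [List.ofFn_const, List.prod_replicate, smul_eq_mul]
    have : (-1 : ℝ) ^ n * (-u) ^ n = u ^ n := by
      rw [← mul_pow]; simp
    calc _ = ((2 * n + 1) * (n.centralBinom : ℝ) / 4 ^ n) * ((-1 : ℝ) ^ n * (-u) ^ n) := by ring
      _ = _ := by rw [this]
  rw [e] at h
  exact h

theorem Ac_zero : Ac 0 = 0 := by unfold Ac; simp

theorem Ac_succ' (k : ℕ) : Ac (k + 1) = 3 / 2 * ((2 * k + 1) * (k.centralBinom : ℝ) / 4 ^ k) := by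
  unfold Ac
  have h := cb_succ k
  rw [pow_succ]
  push_cast
  field_simp
  linear_combination 2 * h

theorem hasSum_Ac {u : ℝ} (h0 : 0 ≤ u) (h1 : u < 1) :
    HasSum (fun k : ℕ => Ac k * u ^ k) (3 / 2 * u * (1 - u) ^ (-3 / 2 : ℝ)) := by
  rw [← hasSum_nat_add_iff' 1]
  simp only [Finset.range_one, Finset.sum_singleton, Ac_zero, zero_mul, sub_zero]
  have h := (hasSum_three_half h0 h1).mul_left (3 / 2 * u)
  have e : (fun k : ℕ => Ac (k + 1) * u ^ (k + 1)) = fun k : ℕ =>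
      3 / 2 * u * ((2 * k + 1) * (k.centralBinom : ℝ) / 4 ^ k * u ^ k) := by
    funext k
    rw [Ac_succ', pow_succ]
    ring
  rw [e]
  exact h

/-! ### the error term -/

/-- the coefficients of the error term -/
noncomputable def Bc (k : ℕ) : ℝ := Ac k * sg2 k * (1 / 4) ^ k

theorem Bc_closed (k : ℕ) :
    Bc k = (k : ℝ) ^ 2 * (k - 1) * (2 * k - 1) / 2 * (k.centralBinom : ℝ) / 16 ^ k := by
  unfold Bc Ac sg2
  rw [show (16 : ℝ) ^ k = 4 ^ k * 4 ^ k by rw [← mul_pow]; norm_num, one_div, inv_pow]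
  field_simp
  ring

theorem Bc_nonneg (k : ℕ) : 0 ≤ Bc k := by
  rcases Nat.eq_zero_or_pos k with h | h
  · rw [h, Bc_closed]
    simp
  · unfold Bc
    exact mul_nonneg (mul_nonneg (Ac_nonneg k) (sg2_nonneg h)) (by positivity)

theorem Bc_half {k : ℕ} (hk : 6 ≤ k) : 2 * Bc (k + 1) ≤ Bc k := by
  have h := cb_succ k
  have hk6 : (6 : ℝ) ≤ k := by exact_mod_cast hk
  have h3 : ((k + 1).centralBinom : ℝ) = 2 * (2 * k + 1) * k.centralBinom / (k + 1) := by
    rw [← h]; field_simp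
  rw [Bc_closed, Bc_closed, h3, pow_succ (16 : ℝ) k]
  push_cast
  have e1 : 2 * (((k : ℝ) + 1) ^ 2 * ((k : ℝ) + 1 - 1) * (2 * ((k : ℝ) + 1) - 1) / 2 *
      (2 * (2 * k + 1) * (k.centralBinom : ℝ) / (k + 1)) / (16 ^ k * 16)) =
      ((k : ℝ) + 1) * k * (2 * k + 1) ^ 2 / 8 * ((k.centralBinom : ℝ) / 16 ^ k) := by
    field_simp
    ring
  have e2 : (k : ℝ) ^ 2 * (k - 1) * (2 * k - 1) / 2 * (k.centralBinom : ℝ) / 16 ^ k =
      (k : ℝ) ^ 2 * (k - 1) * (2 * k - 1) / 2 * ((k.centralBinom : ℝ) / 16 ^ k) := by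
    field_simp
  rw [e1, e2]
  apply mul_le_mul_of_nonneg_right _ (by positivity)
  obtain ⟨x, hx⟩ : ∃ x : ℝ, (k : ℝ) = x + 6 := ⟨k - 6, by ring⟩
  have hx0 : 0 ≤ x := by linarith
  rw [hx]
  nlinarith [mul_nonneg hx0 hx0, mul_nonneg (mul_nonneg hx0 hx0) hx0,
    mul_nonneg (mul_nonneg hx0 hx0) (mul_nonneg hx0 hx0)]

theorem Bc_sum (n : ℕ) : ∑ k ∈ range n, Bc k ≤ 3 / 4 := by
  have key : ∀ n, 8 ≤ n → ∑ k ∈ range n, Bc k + 2 * Bc n ≤ 3 / 4 := by
    intro n hn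
    induction n, hn using Nat.le_induction with
    | base =>
      simp only [Finset.sum_range_succ, Finset.sum_range_zero, Bc_closed]
      simp only [show Nat.centralBinom 0 = 1 from rfl, show Nat.centralBinom 1 = 2 from rfl,
        show Nat.centralBinom 2 = 6 from rfl, show Nat.centralBinom 3 = 20 from rfl,
        show Nat.centralBinom 4 = 70 from rfl, show Nat.centralBinom 5 = 252 from rfl,
        show Nat.centralBinom 6 = 924 from rfl, show Nat.centralBinom 7 = 3432 from rfl,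
        show Nat.centralBinom 8 = 12870 from rfl]
      norm_num
    | succ n hn ih =>
      rw [Finset.sum_range_succ]
      have := Bc_half (k := n) (by omega)
      linarith
  rcases Nat.lt_or_ge n 8 with h | h
  · have h1 := key 8 le_rfl
    have h2 : ∑ k ∈ range n, Bc k ≤ ∑ k ∈ range 8, Bc k :=
      Finset.sum_le_sum_of_subset_of_nonneg (Finset.range_subset_range.2 h.le)
        (fun k _ _ => Bc_nonneg k)
    have h3 := Bc_nonneg 8
    linarith
  · have h1 := key n h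
    have h3 := Bc_nonneg n
    linarith

/-- the exact density of tops as a function of `u = p (1-p)` -/
noncomputable def fM (M : ℕ) (u : ℝ) : ℝ := ∑ k ∈ range (M + 1), P M k * u ^ k

/-- the limit -/
noncomputable def Flim (u : ℝ) : ℝ := 3 / 2 * u * (1 - u) ^ (-3 / 2 : ℝ)

theorem fM_upper {M : ℕ} (hM : 1 ≤ M) {u : ℝ} (h0 : 0 ≤ u) (h1 : u < 1) :
    2 * (M : ℝ) * fM M u ≤ Flim u * (4 * (M : ℝ) ^ 2 / (4 * (M : ℝ) ^ 2 - 1)) := by
  have hM1 : (1 : ℝ) ≤ M := by exact_mod_cast hM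
  have hc : 0 ≤ 4 * (M : ℝ) ^ 2 / (4 * (M : ℝ) ^ 2 - 1) :=
    div_nonneg (by positivity) (by nlinarith)
  have h2 : ∑ k ∈ range (M + 1), Ac k * u ^ k ≤ Flim u :=
    sum_le_hasSum _ (fun k _ => mul_nonneg (Ac_nonneg k) (pow_nonneg h0 k)) (hasSum_Ac h0 h1)
  calc 2 * (M : ℝ) * fM M u = ∑ k ∈ range (M + 1), (2 * (M : ℝ) * P M k) * u ^ k := by
        unfold fM
        rw [Finset.mul_sum]
        refine Finset.sum_congr rfl fun k _ => ?_
        ring
    _ ≤ ∑ k ∈ range (M + 1), (Ac k * u ^ k) * (4 * (M : ℝ) ^ 2 / (4 * (M : ℝ) ^ 2 - 1)) := by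
        refine Finset.sum_le_sum fun k _ => ?_
        rcases Nat.eq_zero_or_pos k with h | h
        · rw [h, P_zero, Ac_zero]
          simp
        · have := mul_le_mul_of_nonneg_right (P_upper hM h) (pow_nonneg h0 k)
          calc _ ≤ _ := this
            _ = _ := by ring
    _ = (∑ k ∈ range (M + 1), Ac k * u ^ k) * (4 * (M : ℝ) ^ 2 / (4 * (M : ℝ) ^ 2 - 1)) := by
        rw [Finset.sum_mul]
    _ ≤ _ := mul_le_mul_of_nonneg_right h2 hc

theorem fM_lower {M : ℕ} (hM : 1 ≤ M) {u : ℝ} (h0 : 0 ≤ u) (h1 : u ≤ 1 / 4) :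
    Flim u - 3 / (4 * (M : ℝ) ^ 2) ≤ 2 * (M : ℝ) * fM M u := by
  have hM1 : (1 : ℝ) ≤ M := by exact_mod_cast hM
  have hM2 : (0 : ℝ) < (M : ℝ) ^ 2 := by positivity
  have hlim : Tendsto (fun n : ℕ => ∑ k ∈ range n, Ac k * u ^ k) atTop (𝓝 (Flim u)) :=
    (hasSum_Ac h0 (by linarith)).tendsto_sum_nat
  have hbd : ∀ n, M + 1 ≤ n → ∑ k ∈ range n, Ac k * u ^ k ≤
      2 * (M : ℝ) * fM M u + 3 / (4 * (M : ℝ) ^ 2) := by
    intro n hn
    have e1 : 2 * (M : ℝ) * fM M u = ∑ k ∈ range n, (2 * (M : ℝ) * P M k) * u ^ k := by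
      have : ∑ k ∈ range n, (2 * (M : ℝ) * P M k) * u ^ k =
          ∑ k ∈ range (M + 1), (2 * (M : ℝ) * P M k) * u ^ k := by
        symm
        apply Finset.sum_subset (Finset.range_subset_range.2 hn)
        intro k _ hk
        rw [Finset.mem_range, not_lt] at hk
        rw [P_big (by omega)]
        ring
      rw [this]
      unfold fM
      rw [Finset.mul_sum]
      refine Finset.sum_congr rfl fun k _ => ?_
      ring
    have e2 : ∀ k, Ac k * u ^ k ≤ (2 * (M : ℝ) * P M k) * u ^ k + Bc k / (M : ℝ) ^ 2 := by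
      intro k
      rcases Nat.eq_zero_or_pos k with h | h
      · rw [h, P_zero, Ac_zero, Bc_closed]
        simp
      · have h2 := mul_le_mul_of_nonneg_right (P_lower hM h) (pow_nonneg h0 k)
        have h3 : Ac k * sg2 k * u ^ k ≤ Bc k := by
          unfold Bc
          exact mul_le_mul_of_nonneg_left (pow_le_pow_left₀ h0 h1 k)
            (mul_nonneg (Ac_nonneg k) (sg2_nonneg h))
        have h4 : Ac k * sg2 k * u ^ k / (M : ℝ) ^ 2 ≤ Bc k / (M : ℝ) ^ 2 :=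
          div_le_div_of_nonneg_right h3 hM2.le
        calc Ac k * u ^ k = Ac k * (1 - sg2 k / (M : ℝ) ^ 2) * u ^ k +
              Ac k * sg2 k * u ^ k / (M : ℝ) ^ 2 := by field_simp; ring
          _ ≤ _ := add_le_add h2 h4
    calc ∑ k ∈ range n, Ac k * u ^ k ≤
          ∑ k ∈ range n, ((2 * (M : ℝ) * P M k) * u ^ k + Bc k / (M : ℝ) ^ 2) :=
        Finset.sum_le_sum fun k _ => e2 k
      _ = 2 * (M : ℝ) * fM M u + (∑ k ∈ range n, Bc k) / (M : ℝ) ^ 2 := by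
        rw [Finset.sum_add_distrib, ← e1, Finset.sum_div]
      _ ≤ 2 * (M : ℝ) * fM M u + 3 / (4 * (M : ℝ) ^ 2) := by
        have h5 : (∑ k ∈ range n, Bc k) / (M : ℝ) ^ 2 ≤ (3 / 4) / (M : ℝ) ^ 2 :=
          div_le_div_of_nonneg_right (Bc_sum n) hM2.le
        have h6 : (3 / 4) / (M : ℝ) ^ 2 = 3 / (4 * (M : ℝ) ^ 2) := by
          field_simp
        linarith
  have := le_of_tendsto hlim (Filter.eventually_atTop.2 ⟨M + 1, hbd⟩)
  linarith

theorem Flim_le {u : ℝ} (h0 : 0 ≤ u) (h1 : u ≤ 1 / 4) : Flim u ≤ 3 / 5 := by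
  unfold Flim
  have h2 : (1 - u) ^ (-3 / 2 : ℝ) ≤ (3 / 4 : ℝ) ^ (-3 / 2 : ℝ) :=
    Real.rpow_le_rpow_of_nonpos (by norm_num) (by linarith) (by norm_num)
  have h3 : (3 / 4 : ℝ) ^ (-3 / 2 : ℝ) ≤ 8 / 5 := by
    have e1 : ((3 / 4 : ℝ) ^ (-3 / 2 : ℝ)) ^ 2 = 64 / 27 := by
      rw [← Real.rpow_natCast, ← Real.rpow_mul (by norm_num)]
      norm_num
    have e2 : 0 ≤ (3 / 4 : ℝ) ^ (-3 / 2 : ℝ) := by positivity
    nlinarith
  have h4 : 0 ≤ (1 - u) ^ (-3 / 2 : ℝ) := Real.rpow_nonneg (by linarith) _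
  nlinarith

/-- **the density of tops** -/
theorem fM_asymp {M : ℕ} (hM : 1 ≤ M) {u : ℝ} (h0 : 0 ≤ u) (h1 : u ≤ 1 / 4) :
    |2 * (M : ℝ) * fM M u - Flim u| ≤ 3 / (2 * (M : ℝ)) ^ 2 := by
  have hM1 : (1 : ℝ) ≤ M := by exact_mod_cast hM
  have h2 := fM_upper hM h0 (by linarith)
  have h3 := fM_lower hM h0 h1
  have h4 := Flim_le h0 h1
  have e : (2 * (M : ℝ)) ^ 2 = 4 * (M : ℝ) ^ 2 := by ring
  rw [e, abs_le]
  constructor
  · linarith
  · have hM2 : 1 ≤ (M : ℝ) ^ 2 := by nlinarith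
    have h5 : Flim u * (4 * (M : ℝ) ^ 2 / (4 * (M : ℝ) ^ 2 - 1)) =
        Flim u + Flim u / (4 * (M : ℝ) ^ 2 - 1) := by
      have : (4 * (M : ℝ) ^ 2 - 1) ≠ 0 := by nlinarith
      field_simp
      ring
    have h6 : Flim u / (4 * (M : ℝ) ^ 2 - 1) ≤ 3 / (4 * (M : ℝ) ^ 2) := by
      rw [div_le_div_iff₀ (by linarith) (by linarith)]
      nlinarith
    linarith

/-! ### the angle -/

theorem Flim_angle {θ p : ℝ} (h0 : 0 < θ) (h1 : θ < Real.pi) (_hp0 : 0 ≤ p) (_hp1 : p ≤ 1)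
    (h : p * Real.sin ((Real.pi - θ) / 3) = (1 - p) * Real.sin (θ / 3)) :
    Flim (p * (1 - p)) = Real.sin θ / √3 := by
  have hpi := Real.pi_pos
  set φ := θ / 3 - Real.pi / 6 with hφ
  have hs1 : Real.sin (θ / 3) = √3 / 2 * Real.sin φ + 1 / 2 * Real.cos φ := by
    have : θ / 3 = φ + Real.pi / 6 := by rw [hφ]; ring
    rw [this, Real.sin_add, Real.cos_pi_div_six, Real.sin_pi_div_six]
    ring
  have hs2 : Real.sin ((Real.pi - θ) / 3) = -(√3 / 2 * Real.sin φ) + 1 / 2 * Real.cos φ := by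
    have : (Real.pi - θ) / 3 = Real.pi / 6 - φ := by rw [hφ]; ring
    rw [this, Real.sin_sub, Real.cos_pi_div_six, Real.sin_pi_div_six]
    ring
  have hc : 0 < Real.cos φ := by
    apply Real.cos_pos_of_mem_Ioo
    constructor
    · rw [hφ]; linarith
    · rw [hφ]; linarith
  have h3 : √3 * √3 = 3 := Real.mul_self_sqrt (by norm_num)
  have h3p : 0 < √3 := Real.sqrt_pos.2 (by norm_num)
  have hsc := Real.sin_sq_add_cos_sq φ
  -- `p cos φ = sin (θ/3)`
  have hpc : p * Real.cos φ = √3 / 2 * Real.sin φ + 1 / 2 * Real.cos φ := by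
    rw [hs1, hs2] at h
    linear_combination h
  have hqc : (1 - p) * Real.cos φ = -(√3 / 2 * Real.sin φ) + 1 / 2 * Real.cos φ := by
    linear_combination -hpc
  set C := Real.cos φ with hC
  set S := Real.sin φ with hS
  have hu : (p * (1 - p)) * (4 * C ^ 2) = 4 * C ^ 2 - 3 := by
    have : (p * (1 - p)) * (4 * C ^ 2) = 4 * (p * C) * ((1 - p) * C) := by ring
    rw [this, hpc, hqc]
    linear_combination (-S ^ 2) * h3 - 3 * hsc
  have hu1 : (1 - p * (1 - p)) = 3 / (4 * C ^ 2) := by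
    have hC2 : (4 * C ^ 2) ≠ 0 := by positivity
    field_simp
    linear_combination -hu
  have hpow : (1 - p * (1 - p)) ^ (-3 / 2 : ℝ) = 8 * C ^ 3 / (3 * √3) := by
    have e1 : (1 - p * (1 - p)) = (√3 / (2 * C)) ^ (2 : ℝ) := by
      rw [hu1, Real.rpow_two, div_pow, Real.sq_sqrt (by norm_num)]
      ring
    rw [e1, ← Real.rpow_mul (by positivity), show (2 : ℝ) * (-3 / 2) = ((-3 : ℤ) : ℝ) by norm_num,
      Real.rpow_intCast]
    rw [zpow_neg, show (3 : ℤ) = ((3 : ℕ) : ℤ) by rfl, zpow_natCast, div_pow, inv_div]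
    have : √3 ^ 3 = 3 * √3 := by
      calc √3 ^ 3 = (√3 * √3) * √3 := by ring
        _ = _ := by rw [h3]
    rw [this]
    ring
  have hsin : Real.sin θ = 4 * C ^ 3 - 3 * C := by
    have : θ = 3 * φ + Real.pi / 2 := by rw [hφ]; ring
    rw [this, Real.sin_add_pi_div_two, Real.cos_three_mul]
  unfold Flim
  rw [hpow, hsin]
  have hp' : p * (1 - p) = (4 * C ^ 2 - 3) / (4 * C ^ 2) := by
    rw [← hu]; field_simp
  rw [hp']
  field_simp
  ring

end Pool.Agent.Helper21.WC
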