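import Pool.Agent.Helper21.WC.Val
import Pool.Agent.Helper21.EV.Wind

/-!
# Winding interfaces and winding clusters
-/

namespace Pool.Agent.Helper21.WC

open Relation Pool.Agent.Helper21.EV

/-- the equivalence of interfaces through the edges of one interface -/
theorem topIface_congr {m : ℕ} {ω : Fin (m + 1) × ℤ → Bool} {t : ℤ} {e e' : Med}
    (h : TopIface ω t e) (he : EqvGen (Step ω) e e') (hl : lev e' = t)
    (hturn : EqvGen (Step ω) (e.turn (m + 1)) (e'.turn (m + 1))) : TopIface ω t e' := by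
  obtain ⟨h1, h2, h3⟩ := h
  refine ⟨?_, hl, fun e'' h'' => h3 _ (he.trans _ _ _ h'')⟩
  exact (he.symm.trans _ _ _ h1).trans _ _ _ hturn

theorem step_turn {m : ℕ} {ω : Fin (m + 1) × ℤ → Bool} {e e' : Med} (h : Step ω e e') :
    Step ω (e.turn (m + 1)) (e'.turn (m + 1)) := by
  have hc : ∀ j : ℤ, col m (j + (m + 1)) = col m j := fun j => by
    have := col_turn (m := m) j 1
    rwa [one_mul] at this
  cases h with
  | br j t h =>
    show Step ω (Med.v (j + (m + 1)) t) (Med.h (j + 1 + (m + 1)) t)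
    rw [show j + 1 + ((m : ℤ) + 1) = j + (m + 1) + 1 by ring]
    exact Step.br _ _ (by rw [hc]; exact h)
  | lt j t h => exact Step.lt _ _ (by rw [hc]; exact h)
  | bl j t h => exact Step.bl _ _ (by rw [hc]; exact h)
  | rt j t h =>
    show Step ω (Med.h (j + 1 + (m + 1)) t) (Med.v (j + (m + 1)) (t + 1))
    rw [show j + 1 + ((m : ℤ) + 1) = j + (m + 1) + 1 by ring]
    exact Step.rt _ _ (by rw [hc]; exact h)

/-- the highest level of an interface is attained at an edge between two levels -/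
theorem topIface_h {m : ℕ} {ω : Fin (m + 1) × ℤ → Bool} {t : ℤ} {e : Med}
    (h : TopIface ω t e) : ∃ j, TopIface ω t (Med.h j t) ∧ EqvGen (Step ω) e (Med.h j t) := by
  obtain ⟨j, s⟩ | ⟨j, s⟩ := e
  · have hs : s = t := h.2.1
    subst hs
    cases hω : ω (col m j, s) with
    | false =>
      have h1 := Step.br (ω := ω) j s hω
      exact ⟨j + 1, topIface_congr h (EqvGen.rel _ _ h1) rfl (EqvGen.rel _ _ (step_turn h1)),
        EqvGen.rel _ _ h1⟩
    | true =>
      have h1 := Step.bl (ω := ω) j s hω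
      exact ⟨j, topIface_congr h (EqvGen.rel _ _ h1) rfl (EqvGen.rel _ _ (step_turn h1)),
        EqvGen.rel _ _ h1⟩
  · have hs : s = t := h.2.1
    subst hs
    exact ⟨j, h, EqvGen.refl _⟩

open Classical in
/-- the height function of an interface without edges above the level `t` is constant above `t` -/
theorem height_above {m : ℕ} {ω : Fin (m + 1) × ℤ → Bool} {t : ℤ} {e : Med}
    (h : ∀ e', EqvGen (Step ω) e e' → lev e' ≤ t) :
    ∃ H : ℤ → ℤ → ℤ,
      (∀ i, H i (t + 1) = H i t + sgn i t * (if EqvGen (Step ω) e (Med.h i t) then 1 else 0)) ∧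
      (∀ a b : ℤ × ℤ, EqvGen (Link ω) a b → H a.1 a.2 = H b.1 b.2) ∧
      (∀ i s i' s', t < s → t < s' → H i s = H i' s') := by
  obtain ⟨H, g1, g2, g3⟩ := exists_height ω {e' | EqvGen (Step ω) e e'} (fun e1 e2 h =>
    ⟨fun h' => h'.trans _ _ _ (EqvGen.rel _ _ h), fun h' => h'.trans _ _ _ (EqvGen.rel _ _ h).symm⟩)
  refine ⟨H, fun i => g2 i t, g3, ?_⟩
  have k1 : ∀ i s, t < s → H (i + 1) s = H i s := by
    intro i s hs
    rw [g1, if_neg]
    · ring
    · intro h'
      have : s ≤ t := h _ h'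
      omega
  have k2 : ∀ i s, t < s → H i (s + 1) = H i s := by
    intro i s hs
    rw [g2, if_neg]
    · ring
    · intro h'
      have : s ≤ t := h _ h'
      omega
  have k3 : ∀ i s, t < s → H i s = H 0 s := by
    intro i s hs
    induction i using Int.induction_on with
    | zero => rfl
    | succ i ih => rw [k1 _ _ hs, ih]
    | pred i ih =>
      have := k1 (-(i : ℤ) - 1) s hs
      rw [sub_add_cancel] at this
      rw [← this, ih]
  have k4 : ∀ (k : ℕ), H 0 (t + 1 + k) = H 0 (t + 1) := by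
    intro k
    induction k with
    | zero => simp
    | succ k ih =>
      rw [show t + 1 + ((k + 1 : ℕ) : ℤ) = (t + 1 + k) + 1 by push_cast; ring, k2 _ _ (by omega), ih]
  have k5 : ∀ i s, t < s → H i s = H 0 (t + 1) := by
    intro i s hs
    rw [k3 i s hs]
    have := k4 (s - (t + 1)).toNat
    rw [Int.toNat_of_nonneg (by omega)] at this
    rw [← this]
    congr 1
    ring
  intro i s i' s' hs hs'
  rw [k5 i s hs, k5 i' s' hs']

/-- the lower cluster at the highest edge of a winding interface -/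
theorem topAt_of_iface {n : ℕ} {ω : Fin (2 * n + 1 + 1) × ℤ → Bool} {t j : ℤ}
    (h : TopIface ω t (Med.h j t)) : TopAt ω j t := by
  classical
  refine ⟨((winds_h ω j t).1 h.1).1, fun b hb => ?_⟩
  obtain ⟨H, g1, g2, g3⟩ := height_above h.2.2
  by_contra hcon
  push Not at hcon
  have h1 := g2 _ _ hb
  have h2 := g3 b.1 b.2 j (t + 1) hcon (by omega)
  have h3 := g1 j
  rw [if_pos (EqvGen.refl _)] at h3
  have h4 := sgn_ne j t
  simp only at h1
  apply h4
  linarith

theorem iface_of_topAt {n : ℕ} {ω : Fin (2 * n + 1 + 1) × ℤ → Bool} {t j : ℤ}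
    (h : TopAt ω j t) : TopIface ω t (Med.h j t) := by
  classical
  have hlev : ∀ e', EqvGen (Step ω) (Med.h j t) e' → lev e' ≤ t := by
    intro e' he
    have h1 := side_eqv (j + t) he
    have e1 : side (j + t) (Med.h j t) = (j, t) := if_pos (by omega)
    rw [e1] at h1
    have h2 := h.2 _ h1
    obtain ⟨i, s⟩ | ⟨i, s⟩ := e'
    · rw [side_v] at h2
      show s ≤ t
      split_ifs at h2 <;> exact h2
    · rw [side_h] at h2
      show s ≤ t
      split_ifs at h2
      · exact h2
      · simp only at h2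
        omega
  refine ⟨?_, rfl, hlev⟩
  obtain ⟨H, g1, g2, g3⟩ := height_above hlev
  have h1 := g2 _ _ h.1
  have h2 := g3 j (t + 1) (j + ((2 * n + 1 : ℕ) + 1)) (t + 1) (by omega) (by omega)
  have h3 := g1 j
  have h4 := g1 (j + ((2 * n + 1 : ℕ) + 1))
  rw [if_pos (EqvGen.refl _)] at h3
  simp only at h1
  by_contra hcon
  have hcon' : ¬ EqvGen (Step ω) (Med.h j t) (Med.h (j + ((2 * n + 1 : ℕ) + 1)) t) := hcon
  rw [if_neg hcon'] at h4
  have h5 := sgn_ne j t
  apply h5
  linarith

/-- **winding interfaces and winding clusters have the same tops** -/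
theorem iface_iff {n : ℕ} {ω : Fin (2 * n + 1 + 1) × ℤ → Bool} {t : ℤ} :
    (∃ e, TopIface ω t e) ↔ ∃ j, TopAt ω j t := by
  constructor
  · rintro ⟨e, he⟩
    obtain ⟨j, hj, -⟩ := topIface_h he
    exact ⟨j, topAt_of_iface hj⟩
  · rintro ⟨j, hj⟩
    exact ⟨_, iface_of_topAt hj⟩

/-- a level is the highest one of at most one winding interface -/
theorem iface_unique {n : ℕ} {ω : Fin (2 * n + 1 + 1) × ℤ → Bool} {t : ℤ} {e e' : Med}
    (h : TopIface ω t e) (h' : TopIface ω t e') : EqvGen (Step ω) e e' := by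
  classical
  obtain ⟨i, hi, he⟩ := topIface_h h
  obtain ⟨j, hj, he'⟩ := topIface_h h'
  have h1 := top_unique (topAt_of_iface hi) (topAt_of_iface hj)
  obtain ⟨H, g1, g2, g3⟩ := height_above hi.2.2
  have h2 := g2 _ _ h1
  have h3 := g1 i
  have h4 := g1 j
  have h5 := g3 i (t + 1) j (t + 1) (by omega) (by omega)
  rw [if_pos (EqvGen.refl _)] at h3
  simp only at h2
  have h6 : EqvGen (Step ω) (Med.h i t) (Med.h j t) := by
    by_contra hcon
    rw [if_neg hcon] at h4
    apply sgn_ne i t
    linarith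
  exact (he.trans _ _ _ h6).trans _ _ _ he'.symm

end Pool.Agent.Helper21.WC
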