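import Pool.Agent.Helper21.WC.Loop
import Pool.Agent.Helper21.WC.Asy

/-!
# The density of the winding interfaces
-/

namespace Pool.Agent.Helper21.WC

open MeasureTheory ProbabilityTheory Filter Topology Relation
open Pool.Agent.Helper21.EV

/-- the probability of the state `true` for rhombi with the angle `θ` at the corners `(j,t)`, in
the isoradial embedding of critical bond percolation -/
noncomputable def bias (θ : ℝ) : ℝ :=
  Real.sin ((Real.pi - θ) / 3) / (Real.sin (θ / 3) + Real.sin ((Real.pi - θ) / 3))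

/-- the number of winding interfaces whose highest level is one of `a, …, a+L-1` -/
noncomputable def cnt {m : ℕ} (ω : Fin (m + 1) × ℤ → Bool) (a : ℤ) (L : ℕ) : ℕ :=
  Set.ncard {t : ℤ | a ≤ t ∧ t < a + L ∧ ∃ e, TopIface ω t e}

theorem sin_pos_of {θ δ : ℝ} (hδ : 0 < δ) (h1 : δ ≤ θ) (h2 : θ ≤ Real.pi - δ) :
    Real.sin (δ / 3) ≤ Real.sin (θ / 3) ∧ Real.sin (δ / 3) ≤ Real.sin ((Real.pi - θ) / 3) ∧
      0 < Real.sin (δ / 3) := by
  have hpi := Real.pi_pos
  refine ⟨?_, ?_, ?_⟩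
  · apply Real.sin_le_sin_of_le_of_le_pi_div_two <;> linarith
  · apply Real.sin_le_sin_of_le_of_le_pi_div_two <;> linarith
  · apply Real.sin_pos_of_pos_of_lt_pi <;> linarith

theorem bias_eq {θ : ℝ} (h0 : 0 < θ) (h1 : θ < Real.pi) :
    bias θ * Real.sin (θ / 3) = (1 - bias θ) * Real.sin ((Real.pi - θ) / 3) := by
  have hpi := Real.pi_pos
  have h2 : 0 < Real.sin (θ / 3) := by
    apply Real.sin_pos_of_pos_of_lt_pi <;> linarith
  have h3 : 0 < Real.sin ((Real.pi - θ) / 3) := by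
    apply Real.sin_pos_of_pos_of_lt_pi <;> linarith
  unfold bias
  have h4 : Real.sin (θ / 3) + Real.sin ((Real.pi - θ) / 3) ≠ 0 := by linarith
  field_simp
  ring

theorem bias_ell {θ : ℤ → ℝ} {δ : ℝ} (hδ : 0 < δ) (h : ∀ t, δ ≤ θ t ∧ θ t ≤ Real.pi - δ)
    {p : ℤ → unitInterval} (hp : ∀ t, (p t : ℝ) = bias (θ t)) :
    Ell (Real.sin (δ / 3) / 2) p := by
  obtain ⟨-, -, h3⟩ := sin_pos_of hδ (h 0).1 (h 0).2
  refine ⟨by linarith, fun t => ?_⟩
  obtain ⟨h1, h2, -⟩ := sin_pos_of hδ (h t).1 (h t).2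
  have e1 := Real.sin_le_one (θ t / 3)
  have e2 := Real.sin_le_one ((Real.pi - θ t) / 3)
  have hd : 0 < Real.sin (θ t / 3) + Real.sin ((Real.pi - θ t) / 3) := by linarith
  rw [hp t]
  unfold bias
  constructor
  · rw [le_div_iff₀ hd]
    nlinarith
  · have : 1 - Real.sin (δ / 3) / 2 - Real.sin ((Real.pi - θ t) / 3) /
        (Real.sin (θ t / 3) + Real.sin ((Real.pi - θ t) / 3)) =
        Real.sin (θ t / 3) / (Real.sin (θ t / 3) + Real.sin ((Real.pi - θ t) / 3)) -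
          Real.sin (δ / 3) / 2 := by
      field_simp
      ring
    have h5 : Real.sin (δ / 3) / 2 ≤
        Real.sin (θ t / 3) / (Real.sin (θ t / 3) + Real.sin ((Real.pi - θ t) / 3)) := by
      rw [le_div_iff₀ hd]
      nlinarith
    linarith

theorem iface_set {n : ℕ} (t : ℤ) : {ω : Fin (2 * n + 1 + 1) × ℤ → Bool | ∃ e, TopIface ω t e} =
    {ω | ∃ j, TopAt ω j t} := by
  ext ω
  exact iface_iff

/-- the exact probability -/
theorem iface_law {n : ℕ} {ε : ℝ} {p : ℤ → unitInterval} (hp : Ell ε p) (t : ℤ) :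
    (coins (2 * n + 1) p).real {ω | ∃ e, TopIface ω t e} =
      ∑ k ∈ Finset.range (n + 2), P (n + 1) k * ((p t : ℝ) * (1 - p t)) ^ k := by
  rw [iface_set, top_law hp]

/-- the approximation at one level -/
theorem iface_asymp {n : ℕ} {ε : ℝ} {p : ℤ → unitInterval} (hp : Ell ε p) (t : ℤ) {θ : ℝ}
    (h0 : 0 < θ) (h1 : θ < Real.pi) (hb : (p t : ℝ) = bias θ) :
    |(2 * (n : ℝ) + 2) * (coins (2 * n + 1) p).real {ω | ∃ e, TopIface ω t e} -
      Real.sin θ / √3| ≤ 3 / (2 * (n : ℝ) + 2) ^ 2 := by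
  have hb' := bias_eq h0 h1
  rw [← hb] at hb'
  have h2 := Flim_angle (θ := Real.pi - θ) (p := p t) (by linarith) (by linarith) (p t).2.1
    (p t).2.2 (by rw [sub_sub_cancel]; exact hb')
  rw [Real.sin_pi_sub] at h2
  have hu0 : 0 ≤ (p t : ℝ) * (1 - p t) := mul_nonneg (p t).2.1 (by linarith [(p t).2.2])
  have hu1 : (p t : ℝ) * (1 - p t) ≤ 1 / 4 := by nlinarith [sq_nonneg ((p t : ℝ) - 1 / 2)]
  have h3 := fM_asymp (M := n + 1) (by omega) hu0 hu1
  rw [h2] at h3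
  rw [iface_law hp t]
  have e : (2 * ((n + 1 : ℕ) : ℝ)) = 2 * (n : ℝ) + 2 := by push_cast; ring
  rw [e] at h3
  exact h3

theorem cnt_eq {m : ℕ} (ω : Fin (m + 1) × ℤ → Bool) (a : ℤ) (L : ℕ) :
    (cnt ω a L : ℝ) = ∑ t ∈ Finset.Ico a (a + L),
      ({ω : Fin (m + 1) × ℤ → Bool | ∃ e, TopIface ω t e}).indicator (fun _ => (1 : ℝ)) ω := by
  classical
  have e : {t : ℤ | a ≤ t ∧ t < a + L ∧ ∃ e, TopIface ω t e} =
      ((Finset.Ico a (a + L)).filter (fun t => ∃ e, TopIface ω t e) : Finset ℤ) := by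
    ext t
    simp [and_assoc]
  unfold cnt
  rw [e, Set.ncard_coe_finset, Finset.card_filter]
  push_cast
  refine Finset.sum_congr rfl fun t _ => ?_
  unfold Set.indicator
  simp only [Set.mem_ofPred_eq]

/-- **the expected number of winding interfaces in a slab** -/
theorem cnt_asymp {n : ℕ} {θ : ℤ → ℝ} {δ : ℝ} (hδ : 0 < δ)
    (h : ∀ t, δ ≤ θ t ∧ θ t ≤ Real.pi - δ) {p : ℤ → unitInterval}
    (hp : ∀ t, (p t : ℝ) = bias (θ t)) (a : ℤ) (L : ℕ) :
    |∫ ω, (cnt ω a L : ℝ) ∂(coins (2 * n + 1) p) -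
      (∑ t ∈ Finset.Ico a (a + L), Real.sin (θ t)) / (√3 * (2 * (n : ℝ) + 2))| ≤
      3 * L / (2 * (n : ℝ) + 2) ^ 3 := by
  have hE := bias_ell hδ h hp
  have hN : (0 : ℝ) < 2 * (n : ℝ) + 2 := by positivity
  have h1 : ∫ ω, (cnt ω a L : ℝ) ∂(coins (2 * n + 1) p) =
      ∑ t ∈ Finset.Ico a (a + L), (coins (2 * n + 1) p).real {ω | ∃ e, TopIface ω t e} := by
    have hm : ∀ t, MeasurableSet {ω : Fin (2 * n + 1 + 1) × ℤ → Bool | ∃ e, TopIface ω t e} := by
      intro t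
      rw [iface_set]
      exact measurableSet_top t
    simp only [cnt_eq]
    rw [integral_finsetSum _ (fun t _ => (integrable_const (1 : ℝ)).indicator (hm t))]
    refine Finset.sum_congr rfl fun t _ => ?_
    exact integral_indicator_one (hm t)
  have h2 : (∑ t ∈ Finset.Ico a (a + L), Real.sin (θ t)) / (√3 * (2 * (n : ℝ) + 2)) =
      ∑ t ∈ Finset.Ico a (a + L), Real.sin (θ t) / √3 / (2 * (n : ℝ) + 2) := by
    rw [Finset.sum_div]
    refine Finset.sum_congr rfl fun t _ => ?_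
    rw [div_div]
  rw [h1, h2, ← Finset.sum_sub_distrib]
  refine (Finset.abs_sum_le_sum_abs _ _).trans ?_
  have h3 : ∀ t ∈ Finset.Ico a (a + L),
      |(coins (2 * n + 1) p).real {ω | ∃ e, TopIface ω t e} -
        Real.sin (θ t) / √3 / (2 * (n : ℝ) + 2)| ≤ 3 / (2 * (n : ℝ) + 2) ^ 3 := by
    intro t _
    have h4 := iface_asymp (n := n) hE t (θ := θ t) (by linarith [(h t).1]) (by linarith [(h t).2]) (hp t)
    have h5 : (coins (2 * n + 1) p).real {ω | ∃ e, TopIface ω t e} -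
        Real.sin (θ t) / √3 / (2 * (n : ℝ) + 2) =
        ((2 * (n : ℝ) + 2) * (coins (2 * n + 1) p).real {ω | ∃ e, TopIface ω t e} -
          Real.sin (θ t) / √3) / (2 * (n : ℝ) + 2) := by
      field_simp
    rw [h5, abs_div, abs_of_pos hN, div_le_iff₀ hN]
    refine h4.trans (le_of_eq ?_)
    field_simp
  refine (Finset.sum_le_sum h3).trans (le_of_eq ?_)
  rw [Finset.sum_const, nsmul_eq_mul, Int.card_Ico]
  have : ((a + L - a).toNat : ℝ) = L := by
    rw [add_sub_cancel_left]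
    simp
  rw [this]
  ring

end Pool.Agent.Helper21.WC
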