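import Pool.Agent.Helper21.EV.Defs

/-!
# Contacts of the winding cluster of a half cylinder, and the tops of winding clusters and interfaces
-/

namespace Pool.Agent.Helper21.WC

open Pool.Agent.Helper21.EV

/-- one-step connections in the half cylinder below the level `t` (the levels at most `t`) -/
def LinkTo {m : ℕ} (ω : Fin (m + 1) × ℤ → Bool) (t : ℤ) (a b : ℤ × ℤ) : Prop :=
  Link ω a b ∧ b.2 ≤ t

/-- the number of sites `j` of the top level `t` of the half cylinder below the level `t` whose
cluster in this half cylinder winds around the cylinder -/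
noncomputable def contacts {m : ℕ} (ω : Fin (m + 1) × ℤ → Bool) (t : ℤ) : ℕ :=
  Set.ncard {j : Fin (m + 1) | Relation.EqvGen (LinkTo ω t) ((j.val : ℤ), t)
    ((j.val : ℤ) + (m + 1), t)}

/-- the cluster of the site `(j,t)` winds around the cylinder and `t` is its highest level -/
def TopAt {m : ℕ} (ω : Fin (m + 1) × ℤ → Bool) (j t : ℤ) : Prop :=
  Wraps ω (j, t) ∧ ∀ b : ℤ × ℤ, Relation.EqvGen (Link ω) (j, t) b → b.2 ≤ t

/-- the level of a medial edge -/
def lev : Med → ℤ
  | Med.v _ t => t
  | Med.h _ t => t

/-- the interface through the medial edge `e` winds around the cylinder, and `e` is one of its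
highest edges, at the level `t` -/
def TopIface {m : ℕ} (ω : Fin (m + 1) × ℤ → Bool) (t : ℤ) (e : Med) : Prop :=
  Winds ω e ∧ lev e = t ∧ ∀ e', Relation.EqvGen (Step ω) e e' → lev e' ≤ t

end Pool.Agent.Helper21.WC
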