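import Pool.Agent.Helper21.WC.Inv
import Pool.Agent.Helper21.WC.Defs

/-!
# Half cylinders and patterns: the deterministic part
-/

namespace Pool.Agent.Helper21.WC

open Pool.Agent.H863R2.Cyl Relation
open Pool.Agent.H988R2.Perc (Word)
open Pool.Agent.Helper21.EV

variable {m : ℕ}

/-- every connection of the half cylinder takes place in a finite slab -/
theorem linkTo_to_lk {ω : Fin (m + 1) × ℤ → Bool} {t : ℤ} {p q : ℤ × ℤ}
    (h : EqvGen (LinkTo ω t) p q) :
    ∃ M0 : ℕ, ∀ M, M0 ≤ M → ∀ w, EqvGen (Lk m (lowc ω t M) M w)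
      (p.1, (p.2 - (t - M)).toNat) (q.1, (q.2 - (t - M)).toNat) := by
  induction h with
  | rel x y h =>
    obtain ⟨h, ht⟩ := h
    cases h with
    | ur j s h3 =>
      simp only at ht
      refine ⟨(t - s).toNat, fun M hM w => ?_⟩
      have e0 : ((s - (t - M)).toNat : ℤ) = s - (t - M) := Int.toNat_of_nonneg (by omega)
      have e1 : (s + 1 - (t - (M : ℤ))).toNat = (s - (t - M)).toNat + 1 := by omega
      show EqvGen _ (j, (s - (t - M)).toNat) (j + 1, (s + 1 - (t - M)).toNat)
      rw [e1]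
      refine EqvGen.rel _ _ (Lk.link0 j _ (by omega) ?_)
      rw [cl_col]
      show ω (col m j, t - M + ((s - (t - M)).toNat : ℤ)) = false
      rw [e0, show t - (M : ℤ) + (s - (t - M)) = s by ring]
      exact h3
    | ul j s h3 =>
      simp only at ht
      refine ⟨(t - s).toNat, fun M hM w => ?_⟩
      have e0 : ((s - (t - M)).toNat : ℤ) = s - (t - M) := Int.toNat_of_nonneg (by omega)
      have e1 : (s + 1 - (t - (M : ℤ))).toNat = (s - (t - M)).toNat + 1 := by omega
      show EqvGen _ (j + 1, (s - (t - M)).toNat) (j, (s + 1 - (t - M)).toNat)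
      rw [e1]
      refine EqvGen.rel _ _ (Lk.link1 j _ (by omega) ?_)
      rw [cl_col]
      show ω (col m j, t - M + ((s - (t - M)).toNat : ℤ)) = true
      rw [e0, show t - (M : ℤ) + (s - (t - M)) = s by ring]
      exact h3
  | refl x => exact ⟨0, fun M _ w => EqvGen.refl _⟩
  | symm x y _ ih =>
    obtain ⟨M0, h0⟩ := ih
    exact ⟨M0, fun M hM w => (h0 M hM w).symm⟩
  | trans x y z _ _ ih1 ih2 =>
    obtain ⟨M1, h1⟩ := ih1
    obtain ⟨M2, h2⟩ := ih2
    exact ⟨max M1 M2, fun M hM w => (h1 M (by omega) w).trans _ _ _ (h2 M (by omega) w)⟩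

/-- connections of sites of one parity do not use a bottom pattern with peaks of this parity -/
theorem lk_to_linkTo {ω : Fin (m + 1) × ℤ → Bool} {t : ℤ} {M : ℕ} {w : Word} (ρ : ℤ)
    (hlow : ∀ a : ℤ, (a + (t - M) - ρ) % 2 = 0 → Peak w a) {x y : ℤ × ℕ}
    (h : EqvGen (Lk m (lowc ω t M) M w) x y) :
    ((x.1 + (t - M + x.2) - ρ) % 2 = 0 ↔ (y.1 + (t - M + y.2) - ρ) % 2 = 0) ∧
      ((x.1 + (t - M + x.2) - ρ) % 2 = 0 →
        EqvGen (LinkTo ω t) (x.1, t - M + x.2) (y.1, t - M + y.2)) := by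
  induction h with
  | rel x y h =>
    cases h with
    | bot a b h =>
      simp only [Nat.cast_zero, add_zero]
      by_cases ha : (a + (t - M) - ρ) % 2 = 0
      · have := peak_eq (hlow a ha) h
        subst this
        exact ⟨Iff.rfl, fun _ => EqvGen.refl _⟩
      · by_cases hb : (b + (t - M) - ρ) % 2 = 0
        · have := peak_eq' (hlow b hb) h
          subst this
          exact ⟨Iff.rfl, fun _ => EqvGen.refl _⟩
        · exact ⟨⟨fun h => absurd h ha, fun h => absurd h hb⟩, fun h => absurd h ha⟩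
    | link0 j s hs h =>
      rw [cl_col] at h
      have h' : ω (col m j, t - M + s) = false := h
      have e : t - (M : ℤ) + ((s + 1 : ℕ) : ℤ) = t - M + s + 1 := by push_cast; ring
      refine ⟨?_, fun _ => ?_⟩
      · show (j + (t - M + s) - ρ) % 2 = 0 ↔ (j + 1 + (t - M + ((s + 1 : ℕ) : ℤ)) - ρ) % 2 = 0
        omega
      · show EqvGen _ (j, t - (M : ℤ) + (s : ℤ)) (j + 1, t - M + ((s + 1 : ℕ) : ℤ))
        rw [e]
        exact EqvGen.rel _ _ ⟨Link.ur j _ h', by show t - (M : ℤ) + s + 1 ≤ t; omega⟩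
    | link1 j s hs h =>
      rw [cl_col] at h
      have h' : ω (col m j, t - M + s) = true := h
      have e : t - (M : ℤ) + ((s + 1 : ℕ) : ℤ) = t - M + s + 1 := by push_cast; ring
      refine ⟨?_, fun _ => ?_⟩
      · show (j + 1 + (t - M + s) - ρ) % 2 = 0 ↔ (j + (t - M + ((s + 1 : ℕ) : ℤ)) - ρ) % 2 = 0
        omega
      · show EqvGen _ (j + 1, t - (M : ℤ) + (s : ℤ)) (j, t - M + ((s + 1 : ℕ) : ℤ))
        rw [e]
        exact EqvGen.rel _ _ ⟨Link.ul j _ h', by show t - (M : ℤ) + s + 1 ≤ t; omega⟩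
  | refl x => exact ⟨Iff.rfl, fun _ => EqvGen.refl _⟩
  | symm x y _ ih => exact ⟨ih.1.symm, fun h => (ih.2 (ih.1.2 h)).symm⟩
  | trans x y z _ _ ih1 ih2 =>
    exact ⟨ih1.1.trans ih2.1, fun h => (ih1.2 h).trans _ _ _ (ih2.2 (ih1.1.1 h))⟩

/-- the word of a deep slab knows the connections at the top level -/
theorem linkTo_rows {ω : Fin (m + 1) × ℤ → Bool} (hm : 1 ≤ m) {t : ℤ} {a b : ℤ}
    (h : EqvGen (LinkTo ω t) (a, t) (b, t)) :
    ∃ M0 : ℕ, ∀ M, M0 ≤ M → ∀ σ, Rw (rows m (lowc ω t M) M σ).1 a b := by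
  obtain ⟨M0, h0⟩ := linkTo_to_lk h
  refine ⟨M0, fun M hM σ => ?_⟩
  rw [Rw_rows m hm]
  have h1 := h0 M hM σ.1
  simp only at h1
  rw [show (t - (t - (M : ℤ))).toNat = M by omega] at h1
  exact h1

theorem rows_linkTo {n : ℕ} {ω : Fin (2 * n + 1 + 1) × ℤ → Bool} {t : ℤ} (a b : ℤ) (M : ℕ) :
    ∃ σ : Wd (2 * n + 1 + 1), Rw (rows (2 * n + 1) (lowc ω t M) M σ).1 a b →
      EqvGen (LinkTo ω t) (a, t) (b, t) := by
  obtain ⟨σ, hσ⟩ := exists_peaks n (a + t - (t - M))
  refine ⟨σ, fun h => ?_⟩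
  rw [Rw_rows _ (by omega)] at h
  have h1 := (lk_to_linkTo (a + t) (fun x hx => hσ x (by omega)) h).2 (by
    show (a + (t - M + M) - (a + t)) % 2 = 0
    omega)
  simp only [sub_add_cancel] at h1
  exact h1

/-- the pattern decides about the connections, if there is an alternating row -/
theorem half_iff {n : ℕ} {ω : Fin (2 * n + 1 + 1) × ℤ → Bool} {t : ℤ} {M : ℕ}
    {s : ℕ} (h1 : s < M) (hl : lowc ω t M s = alt (2 * n + 1))
    (σ : Wd (2 * n + 1 + 1)) (a b : ℤ) :
    EqvGen (LinkTo ω t) (a, t) (b, t) ↔ Rw (rows (2 * n + 1) (lowc ω t M) M σ).1 a b := by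
  constructor
  · intro h
    obtain ⟨A, h0⟩ := linkTo_rows (by omega) h
    have h3 := h0 (A + M) (by omega) σ
    have e1 : rows (2 * n + 1) (lowc ω t (A + M)) (A + M) σ =
        rows (2 * n + 1) (lowc ω t M) M (rows (2 * n + 1) (lowc ω t (A + M)) A σ) := by
      rw [rows_add']
      apply rows_congr'
      intro s _
      funext j
      show ω (j, t - ((A + M : ℕ) : ℤ) + ((A + s : ℕ) : ℤ)) = ω (j, t - (M : ℤ) + (s : ℤ))
      congr 2
      push_cast
      ring
    rw [e1, rows_alt h1 hl _ σ] at h3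
    exact h3
  · intro h
    obtain ⟨σ', hσ⟩ := rows_linkTo (ω := ω) (t := t) a b M
    apply hσ
    rw [rows_alt h1 hl σ' σ]
    exact h

/-- all faces of the top level which belong to winding clusters of the half cylinder are connected
with each other -/
theorem linkTo_unique {n : ℕ} {ω : Fin (2 * n + 1 + 1) × ℤ → Bool} {t a b : ℤ}
    (ha : EqvGen (LinkTo ω t) (a, t) (a + ((2 * n + 1 : ℕ) + 1), t))
    (hb : EqvGen (LinkTo ω t) (b, t) (b + ((2 * n + 1 : ℕ) + 1), t)) :
    EqvGen (LinkTo ω t) (a, t) (b, t) := by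
  obtain ⟨A, h1⟩ := linkTo_rows (by omega) ha
  obtain ⟨B, h2⟩ := linkTo_rows (by omega) hb
  obtain ⟨σ, hσ⟩ := rows_linkTo (ω := ω) (t := t) a b (A + B)
  apply hσ
  have h3 : Jw (2 * n + 1) (rows (2 * n + 1) (lowc ω t (A + B)) (A + B) σ).1 a :=
    h1 (A + B) (by omega) σ
  have h4 : Jw (2 * n + 1) (rows (2 * n + 1) (lowc ω t (A + B)) (A + B) σ).1 b :=
    h2 (A + B) (by omega) σ
  exact Jw_rel (by omega) _ h3 h4

/-! ### translation by the circumference -/

theorem col_turn (j k : ℤ) : col m (j + k * (m + 1)) = col m j := col_eq_iff.2 ⟨k, rfl⟩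

theorem link_turn {ω : Fin (m + 1) × ℤ → Bool} (k : ℤ) {a b : ℤ × ℤ} (h : Link ω a b) :
    Link ω (a.1 + k * (m + 1), a.2) (b.1 + k * (m + 1), b.2) := by
  cases h with
  | ur j t h =>
    show Link ω (j + k * (m + 1), t) (j + 1 + k * (m + 1), t + 1)
    rw [show j + 1 + k * ((m : ℤ) + 1) = j + k * (m + 1) + 1 by ring]
    exact Link.ur _ _ (by rw [col_turn]; exact h)
  | ul j t h =>
    show Link ω (j + 1 + k * (m + 1), t) (j + k * (m + 1), t + 1)
    rw [show j + 1 + k * ((m : ℤ) + 1) = j + k * (m + 1) + 1 by ring]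
    exact Link.ul _ _ (by rw [col_turn]; exact h)

theorem linkTo_turn {ω : Fin (m + 1) × ℤ → Bool} {t : ℤ} (k : ℤ) {a b : ℤ × ℤ}
    (h : EqvGen (LinkTo ω t) a b) :
    EqvGen (LinkTo ω t) (a.1 + k * (m + 1), a.2) (b.1 + k * (m + 1), b.2) :=
  eqv_map' (fun x : ℤ × ℤ => (x.1 + k * (m + 1), x.2))
    (fun _ _ hab => EqvGen.rel _ _ ⟨link_turn k hab.1, hab.2⟩) h

theorem link_turn' {ω : Fin (m + 1) × ℤ → Bool} (k : ℤ) {a b : ℤ × ℤ}
    (h : EqvGen (Link ω) a b) :
    EqvGen (Link ω) (a.1 + k * (m + 1), a.2) (b.1 + k * (m + 1), b.2) :=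
  eqv_map' (fun x : ℤ × ℤ => (x.1 + k * (m + 1), x.2))
    (fun _ _ hab => EqvGen.rel _ _ (link_turn k hab)) h

/-- the face `(j,t)` belongs to the winding cluster of the half cylinder -/
def Hw (ω : Fin (m + 1) × ℤ → Bool) (t j : ℤ) : Prop :=
  EqvGen (LinkTo ω t) (j, t) (j + (m + 1), t)

theorem Hw_turn {ω : Fin (m + 1) × ℤ → Bool} {t j : ℤ} (k : ℤ) :
    Hw ω t (j + k * (m + 1)) ↔ Hw ω t j := by
  have key : ∀ (j k : ℤ), Hw ω t j → Hw ω t (j + k * (m + 1)) := by
    intro j k h
    have := linkTo_turn k h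
    unfold Hw
    rw [show j + k * ((m : ℤ) + 1) + (m + 1) = j + (m + 1) + k * (m + 1) by ring]
    exact this
  constructor
  · intro h
    have := key _ (-k) h
    rwa [show j + k * ((m : ℤ) + 1) + -k * (m + 1) = j by ring] at this
  · exact key j k

theorem Hw_congr {ω : Fin (m + 1) × ℤ → Bool} {t j j' : ℤ}
    (h : EqvGen (LinkTo ω t) (j, t) (j', t)) : Hw ω t j ↔ Hw ω t j' := by
  have h1 := linkTo_turn 1 h
  simp only [one_mul] at h1
  unfold Hw
  constructor
  · intro h2
    exact (h.symm.trans _ _ _ h2).trans _ _ _ h1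
  · intro h2
    exact (h.trans _ _ _ h2).trans _ _ _ h1.symm

theorem linkTo_link {ω : Fin (m + 1) × ℤ → Bool} {t : ℤ} {a b : ℤ × ℤ}
    (h : EqvGen (LinkTo ω t) a b) : EqvGen (Link ω) a b :=
  Sem2Aux.eqv_mono (fun _ _ hab => hab.1) h

/-- a cluster without sites above the level `t` is a cluster of the half cylinder -/
theorem link_linkTo {ω : Fin (m + 1) × ℤ → Bool} {t : ℤ} {a b : ℤ × ℤ}
    (h : EqvGen (Link ω) a b) (hb : ∀ c, EqvGen (Link ω) a c → c.2 ≤ t) :
    EqvGen (LinkTo ω t) a b := by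
  have key : ∀ x y, EqvGen (Link ω) x y → EqvGen (Link ω) a x → EqvGen (LinkTo ω t) x y := by
    intro x y h
    induction h with
    | rel x y h => exact fun hx => EqvGen.rel _ _ ⟨h, hb _ (hx.trans _ _ _ (EqvGen.rel _ _ h))⟩
    | refl x => exact fun _ => EqvGen.refl _
    | symm x y h ih => exact fun hy => (ih (hy.trans _ _ _ h.symm)).symm
    | trans x y z h1 h2 ih1 ih2 => exact fun hx => (ih1 hx).trans _ _ _ (ih2 (hx.trans _ _ _ h1))
  exact key a b h (EqvGen.refl _)

/-- **the tops of the winding clusters** -/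
theorem top_iff {n : ℕ} {ω : Fin (2 * n + 1 + 1) × ℤ → Bool} {t j : ℤ} :
    TopAt ω j t ↔ (Hw ω t j ∧ ∀ i, Hw ω t i →
      ω (col (2 * n + 1) i, t) = true ∧ ω (col (2 * n + 1) (i - 1), t) = false) := by
  constructor
  · rintro ⟨h1, h2⟩
    have hj : Hw ω t j := link_linkTo h1 h2
    refine ⟨hj, fun i hi => ?_⟩
    have h3 := linkTo_unique hj hi
    constructor
    · cases h4 : ω (col (2 * n + 1) i, t) with
      | true => rfl
      | false =>
        exfalso
        have h5 := h2 _ ((linkTo_link h3).trans _ _ _ (EqvGen.rel _ _ (Link.ur i t h4)))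
        simp only at h5
        omega
    · cases h4 : ω (col (2 * n + 1) (i - 1), t) with
      | false => rfl
      | true =>
        exfalso
        have h6 := Link.ul (i - 1) t h4
        rw [sub_add_cancel] at h6
        have h5 := h2 _ ((linkTo_link h3).trans _ _ _ (EqvGen.rel _ _ h6))
        simp only at h5
        omega
  · rintro ⟨h1, h2⟩
    refine ⟨linkTo_link h1, ?_⟩
    set S : ℤ × ℤ → Prop := fun x => EqvGen (LinkTo ω t) (j, t) x ∧ x.2 ≤ t with hS
    have hstep : ∀ x y, Link ω x y → (S x ↔ S y) := by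
      intro x y h
      have hup : x.2 < y.2 := by
        cases h with
        | ur j t h => simp
        | ul j t h => simp
      constructor
      · rintro ⟨h3, h4⟩
        rcases lt_or_ge t y.2 with h5 | h5
        · exfalso
          cases h with
          | ur i s h =>
            simp only at h4 h5
            have : s = t := by omega
            subst this
            have h6 := (Hw_congr h3).1 h1
            rw [(h2 i h6).1] at h
            exact absurd h (by simp)
          | ul i s h =>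
            simp only at h4 h5
            have : s = t := by omega
            subst this
            have h6 := (Hw_congr h3).1 h1
            have h7 := (h2 _ h6).2
            rw [add_sub_cancel_right, h] at h7
            exact absurd h7 (by simp)
        · exact ⟨h3.trans _ _ _ (EqvGen.rel _ _ ⟨h, h5⟩), h5⟩
      · rintro ⟨h3, h4⟩
        exact ⟨h3.trans _ _ _ (EqvGen.rel _ _ ⟨h, h4⟩).symm, by omega⟩
    have hall : ∀ x y, EqvGen (Link ω) x y → (S x ↔ S y) := by
      intro x y h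
      induction h with
      | rel x y h => exact hstep x y h
      | refl x => rfl
      | symm x y _ ih => exact ih.symm
      | trans x y z _ _ ih1 ih2 => exact ih1.trans ih2
    intro b hb
    exact ((hall _ _ hb).1 ⟨EqvGen.refl _, le_refl _⟩).2

/-- a level is the top of at most one winding cluster -/
theorem top_unique {n : ℕ} {ω : Fin (2 * n + 1 + 1) × ℤ → Bool} {t i j : ℤ}
    (hi : TopAt ω i t) (hj : TopAt ω j t) : EqvGen (Link ω) (i, t) (j, t) := by
  rw [top_iff] at hi hj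
  exact linkTo_link (linkTo_unique hi.1 hj.1)

end Pool.Agent.Helper21.WC
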