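import Pool.Agent.Helper21.WC.LawK
import Pool.Agent.Helper21.WC.Half

/-!
# The law of the contacts and the density of the tops of winding clusters
-/

namespace Pool.Agent.Helper21.WC

open MeasureTheory ProbabilityTheory Filter Topology Relation
open Pool.Agent.H863R2.Cyl
open Pool.Agent.H988R2.Perc (Word)
open Pool.Agent.Helper21.ID (rw1)
open Pool.Agent.Helper21.EV

theorem rw1_sum_last {m : ℕ} (μ : Wd (m + 1) → ℝ) (h1 : ∑ σ, μ σ = 1)
    (hst : ∀ σ, ∑ c : Fin (m + 1) → Bool, push (Tc m c) μ σ = 2 ^ (m + 1) * μ σ)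
    (M : ℕ) (p : ℕ → ℝ) (G : Wd (m + 1) → (Fin (m + 1) → Bool) → ℝ) :
    ∑ a : Fin (M + 1) → (Fin (m + 1) → Bool), (∏ s : Fin (M + 1), rw1 (p s) (a s)) *
      ∑ σ, μ σ * G (rows m (ex a) M σ) (a (Fin.last M)) =
    ∑ c : Fin (m + 1) → Bool, rw1 (p M) c * ∑ σ, μ σ * G σ c := by
  have e : ∑ a : Fin (M + 1) → (Fin (m + 1) → Bool), (∏ s : Fin (M + 1), rw1 (p s) (a s)) *
      ∑ σ, μ σ * G (rows m (ex a) M σ) (a (Fin.last M)) =
      ∑ z : (Fin (m + 1) → Bool) × (Fin M → (Fin (m + 1) → Bool)),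
        (rw1 (p M) z.1 * ∏ s : Fin M, rw1 (p s) (z.2 s)) *
        ∑ σ, μ σ * G (rows m (ex z.2) M σ) z.1 := by
    apply Fintype.sum_equiv (Fin.snocEquiv (fun _ => Fin (m + 1) → Bool)).symm
    intro c
    have h0 : ((Fin.snocEquiv (fun _ => Fin (m + 1) → Bool)).symm c)
        = (c (Fin.last M), fun i : Fin M => c i.castSucc) := rfl
    rw [h0]
    have hp : (∏ s : Fin (M + 1), rw1 (p s) (c s))
        = rw1 (p M) (c (Fin.last M)) * ∏ s : Fin M, rw1 (p s) (c s.castSucc) := by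
      rw [Fin.prod_univ_castSucc, mul_comm]
      rfl
    rw [hp]
    congr 1
    apply Finset.sum_congr rfl
    intro σ _
    have h2 : rows m (ex c) M σ = rows m (ex (fun i : Fin M => c i.castSucc)) M σ := by
      apply rows_congr'
      intro t ht
      unfold ex
      rw [dif_pos (by omega), dif_pos ht]
      rfl
    rw [h2]
  rw [e, Fintype.sum_prod_type]
  refine Finset.sum_congr rfl fun c _ => ?_
  have h3 := rows_stat_bias m μ h1 hst M p (fun σ => G σ c)
  rw [← h3, Finset.mul_sum]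
  refine Finset.sum_congr rfl fun a _ => ?_
  ring

/-- the law of functions of the pattern of the half cylinder and of the next row -/
theorem value_gen {n : ℕ} {ε : ℝ} {p : ℤ → unitInterval} (hp : Ell ε p) (t : ℤ)
    (μ : Wd (2 * n + 1 + 1) → ℝ) (m0 : ∀ σ, 0 ≤ μ σ) (m1 : ∑ σ, μ σ = 1)
    (m2 : ∀ σ, ∑ c : Fin (2 * n + 1 + 1) → Bool, push (Tc (2 * n + 1) c) μ σ =
      2 ^ (2 * n + 1 + 1) * μ σ)
    (S : Set (Fin (2 * n + 1 + 1) × ℤ → Bool)) (mS : MeasurableSet S)
    (G : Wd (2 * n + 1 + 1) → (Fin (2 * n + 1 + 1) → Bool) → ℝ)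
    (hG0 : ∀ σ c, 0 ≤ G σ c) (hG1 : ∀ σ c, G σ c ≤ 1)
    (hgood : ∀ (ω : Fin (2 * n + 1 + 1) × ℤ → Bool) (M s : ℕ), s < M →
      lowc ω t M s = alt (2 * n + 1) → ∀ σ,
      (ω ∈ S → G (rows (2 * n + 1) (lowc ω t M) M σ) (fun j => ω (j, t)) = 1) ∧
      (ω ∉ S → G (rows (2 * n + 1) (lowc ω t M) M σ) (fun j => ω (j, t)) = 0)) :
    (coins (2 * n + 1) p).real S =
      ∑ c : Fin (2 * n + 1 + 1) → Bool, rw1 (p t : ℝ) c * ∑ σ, μ σ * G σ c := by
  classical
  set V : ℝ := ∑ c : Fin (2 * n + 1 + 1) → Bool, rw1 (p t : ℝ) c * ∑ σ, μ σ * G σ c with hV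
  let H : (M : ℕ) → (Fin (M + 1) → Fin (2 * n + 1 + 1) → Bool) ×
      (Fin (M + 1) → Fin (2 * n + 1 + 1) → Bool) → ℝ :=
    fun M x => ∑ σ, μ σ * G (rows (2 * n + 1) (ex x.1) M σ) (x.1 (Fin.last M))
  have hint : ∀ M : ℕ, ∫ ω, H M (win (t + 1) (M + 1) ω) ∂(coins (2 * n + 1) p) = V := by
    intro M
    rw [integral_win]
    have h5 : ∑ b : Fin (M + 1) → Fin (2 * n + 1 + 1) → Bool,
        (∏ s : Fin (M + 1), rw1 (1 - (p (t + 1 + ((M + 1 : ℕ) : ℤ) - 1 - (s : ℕ)) : ℝ)) (b s)) = 1 := by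
      have := Finset.prod_univ_sum (fun _ : Fin (M + 1) =>
        (Finset.univ : Finset (Fin (2 * n + 1 + 1) → Bool)))
        (fun s x => rw1 (1 - (p (t + 1 + ((M + 1 : ℕ) : ℤ) - 1 - ((s : ℕ) : ℤ)) : ℝ)) x)
      simp only [Fintype.piFinset_univ] at this
      rw [← this]
      refine Finset.prod_eq_one fun s _ => ?_
      exact sum_rw1 _
    have h6 : ∀ a : Fin (M + 1) → Fin (2 * n + 1 + 1) → Bool,
        ∑ b : Fin (M + 1) → Fin (2 * n + 1 + 1) → Bool,
        (∏ s : Fin (M + 1), rw1 (p (t + 1 - ((M + 1 : ℕ) : ℤ) + (s : ℕ)) : ℝ) (a s)) *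
        (∏ s : Fin (M + 1), rw1 (1 - (p (t + 1 + ((M + 1 : ℕ) : ℤ) - 1 - (s : ℕ)) : ℝ)) (b s)) *
          H M (a, b) =
        (∏ s : Fin (M + 1), rw1 (p (t + 1 - ((M + 1 : ℕ) : ℤ) + (s : ℕ)) : ℝ) (a s)) *
          ∑ σ, μ σ * G (rows (2 * n + 1) (ex a) M σ) (a (Fin.last M)) := by
      intro a
      have h7 : ∀ b : Fin (M + 1) → Fin (2 * n + 1 + 1) → Bool,
          (∏ s : Fin (M + 1), rw1 (p (t + 1 - ((M + 1 : ℕ) : ℤ) + (s : ℕ)) : ℝ) (a s)) *
          (∏ s : Fin (M + 1), rw1 (1 - (p (t + 1 + ((M + 1 : ℕ) : ℤ) - 1 - (s : ℕ)) : ℝ)) (b s)) *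
            H M (a, b) =
          (∏ s : Fin (M + 1), rw1 (1 - (p (t + 1 + ((M + 1 : ℕ) : ℤ) - 1 - (s : ℕ)) : ℝ)) (b s)) *
          ((∏ s : Fin (M + 1), rw1 (p (t + 1 - ((M + 1 : ℕ) : ℤ) + (s : ℕ)) : ℝ) (a s)) *
          ∑ σ, μ σ * G (rows (2 * n + 1) (ex a) M σ) (a (Fin.last M))) := by
        intro b
        show _ * _ * (∑ σ, μ σ * G (rows (2 * n + 1) (ex a) M σ) (a (Fin.last M))) = _
        ring
      simp only [h7]
      rw [← Finset.sum_mul, h5, one_mul]
    simp only [h6]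
    have h8 := rw1_sum_last μ m1 m2 M (fun s => (p (t + 1 - ((M + 1 : ℕ) : ℤ) + (s : ℕ)) : ℝ)) G
    rw [h8, hV]
    rw [show t + 1 - ((M + 1 : ℕ) : ℤ) + (M : ℕ) = t by push_cast; ring]
  have hlow : ∀ (ω : Fin (2 * n + 1 + 1) × ℤ → Bool) (M : ℕ),
      H M (win (t + 1) (M + 1) ω) = ∑ σ, μ σ * G (rows (2 * n + 1) (lowc ω t M) M σ)
        (fun j => ω (j, t)) := by
    intro ω M
    refine Finset.sum_congr rfl fun σ _ => ?_
    have e1 : rows (2 * n + 1) (ex (win (t + 1) (M + 1) ω).1) M σ =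
        rows (2 * n + 1) (lowc ω t M) M σ := by
      apply rows_congr'
      intro s hs
      unfold ex
      rw [dif_pos (by omega)]
      funext j
      show ω (j, t + 1 - ((M + 1 : ℕ) : ℤ) + (s : ℤ)) = ω (j, t - (M : ℤ) + (s : ℤ))
      congr 2
      push_cast
      ring
    have e2 : (win (t + 1) (M + 1) ω).1 (Fin.last M) = fun j => ω (j, t) := by
      funext j
      show ω (j, t + 1 - ((M + 1 : ℕ) : ℤ) + (((Fin.last M : Fin (M + 1)) : ℕ) : ℤ)) = ω (j, t)
      congr 2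
      simp
    rw [e1, e2]
  have hH0 : ∀ M x, 0 ≤ H M x := fun M x => Finset.sum_nonneg fun σ _ =>
    mul_nonneg (m0 σ) (hG0 _ _)
  have hH1 : ∀ M x, H M x ≤ 1 := by
    intro M x
    calc H M x ≤ ∑ σ, μ σ := by
          refine Finset.sum_le_sum fun σ _ => ?_
          exact mul_le_of_le_one_right (m0 σ) (hG1 _ _)
      _ = 1 := m1
  have hmeas : ∀ M : ℕ, Measurable fun ω => H M (win (t + 1) (M + 1) ω) := fun M =>
    (measurable_of_finite (H M)).comp (measurable_win (t + 1) (M + 1))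
  have hintg : ∀ M : ℕ, Integrable (fun ω => H M (win (t + 1) (M + 1) ω)) (coins (2 * n + 1) p) := by
    intro M
    refine Integrable.of_bound (hmeas M).aestronglyMeasurable 1 (Eventually.of_forall fun ω => ?_)
    rw [Real.norm_eq_abs, abs_of_nonneg (hH0 _ _)]
    exact hH1 _ _
  set A : ℕ → Set (Fin (2 * n + 1 + 1) × ℤ → Bool) := fun M =>
    (Bad (alt (2 * n + 1)) (t - M) M)ᶜ with hA
  have mA : ∀ M, MeasurableSet (A M) := fun M => (measurableSet_bad _ _ _).compl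
  have hgd : ∀ M ω, ω ∈ A M → (ω ∈ S → H M (win (t + 1) (M + 1) ω) = 1) ∧
      (ω ∉ S → H M (win (t + 1) (M + 1) ω) = 0) := by
    intro M ω hω
    have e1 : ∃ s : Fin M, (fun j => ω (j, t - M + (s : ℕ))) = alt (2 * n + 1) := by
      by_contra hc
      push Not at hc
      exact hω hc
    obtain ⟨s, hs⟩ := e1
    have hg := fun σ => hgood ω M s s.2 hs σ
    rw [hlow]
    constructor
    · intro h
      rw [← m1]
      refine Finset.sum_congr rfl fun σ _ => ?_
      rw [(hg σ).1 h, mul_one]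
    · intro h
      refine Finset.sum_eq_zero fun σ _ => ?_
      rw [(hg σ).2 h, mul_zero]
  have hbad : ∀ M : ℕ, (coins (2 * n + 1) p).real (A M)ᶜ ≤ (1 - ε ^ (2 * n + 1 + 1)) ^ M := by
    intro M
    rw [hA]
    simp only [compl_compl]
    exact bad_le hp (alt (2 * n + 1)) (t - M) M
  have hup : ∀ M : ℕ, (coins (2 * n + 1) p).real S ≤ V + (1 - ε ^ (2 * n + 1 + 1)) ^ M := by
    intro M
    have h1 : (coins (2 * n + 1) p).real (S ∩ A M) ≤ V := by
      rw [← hint M, ← integral_indicator_one (mS.inter (mA M))]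
      refine integral_mono ?_ (hintg M) ?_
      · exact (integrable_const (1 : ℝ)).indicator (mS.inter (mA M))
      · intro ω
        show (S ∩ A M).indicator 1 ω ≤ H M (win (t + 1) (M + 1) ω)
        by_cases h : ω ∈ S ∩ A M
        · rw [Set.indicator_of_mem h, (hgd M ω h.2).1 h.1]
          exact le_refl _
        · rw [Set.indicator_of_notMem h]
          exact hH0 _ _
    have h2 : (coins (2 * n + 1) p).real S ≤ (coins (2 * n + 1) p).real (S ∩ A M) +
        (coins (2 * n + 1) p).real (A M)ᶜ := by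
      refine le_trans (measureReal_mono (s₂ := (S ∩ A M) ∪ (A M)ᶜ) ?_) (measureReal_union_le _ _)
      intro ω hω
      by_cases h3 : ω ∈ A M
      · exact Or.inl ⟨hω, h3⟩
      · exact Or.inr h3
    have := hbad M
    linarith
  have hdown : ∀ M : ℕ, V ≤ (coins (2 * n + 1) p).real S + (1 - ε ^ (2 * n + 1 + 1)) ^ M := by
    intro M
    have h1 : V ≤ (coins (2 * n + 1) p).real (S ∪ (A M)ᶜ) := by
      rw [← hint M, ← integral_indicator_one (mS.union (mA M).compl)]
      refine integral_mono (hintg M) ?_ ?_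
      · exact (integrable_const (1 : ℝ)).indicator (mS.union (mA M).compl)
      · intro ω
        show H M (win (t + 1) (M + 1) ω) ≤ (S ∪ (A M)ᶜ).indicator 1 ω
        by_cases h : ω ∈ S ∪ (A M)ᶜ
        · rw [Set.indicator_of_mem h]
          exact hH1 _ _
        · rw [Set.indicator_of_notMem h]
          have h3 : ω ∉ S := fun h' => h (Or.inl h')
          have h4 : ω ∈ A M := by
            by_contra h'
            exact h (Or.inr h')
          rw [(hgd M ω h4).2 h3]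
    have h2 := measureReal_union_le (μ := coins (2 * n + 1) p) S (A M)ᶜ
    have := hbad M
    linarith
  have hlim : Tendsto (fun M : ℕ => (1 - ε ^ (2 * n + 1 + 1)) ^ M) atTop (𝓝 0) :=
    tendsto_bad (m := 2 * n + 1) hp
  apply le_antisymm
  · have h1 : Tendsto (fun M : ℕ => V + (1 - ε ^ (2 * n + 1 + 1)) ^ M) atTop (𝓝 (V + 0)) :=
      hlim.const_add _
    rw [add_zero] at h1
    exact ge_of_tendsto' h1 hup
  · have h1 : Tendsto (fun M : ℕ => (coins (2 * n + 1) p).real S +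
        (1 - ε ^ (2 * n + 1 + 1)) ^ M) atTop (𝓝 ((coins (2 * n + 1) p).real S + 0)) :=
      hlim.const_add _
    rw [add_zero] at h1
    exact ge_of_tendsto' h1 hdown

/-! ### measurability -/

theorem measurableSet_linkTo {m : ℕ} (t : ℤ) (a b : ℤ × ℤ) :
    MeasurableSet {ω : Fin (m + 1) × ℤ → Bool | LinkTo ω t a b} := by
  have : {ω : Fin (m + 1) × ℤ → Bool | LinkTo ω t a b} =
      {ω : Fin (m + 1) × ℤ → Bool | Link ω a b} ∩ {_ω | b.2 ≤ t} := rfl
  rw [this]
  exact (measurableSet_link a b).inter (MeasurableSet.const _)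

theorem measurableSet_Hw {m : ℕ} (t j : ℤ) :
    MeasurableSet {ω : Fin (m + 1) × ℤ → Bool | Hw ω t j} :=
  measurableSet_eqvGen (fun ω : Fin (m + 1) × ℤ → Bool => LinkTo ω t)
    (fun a b => measurableSet_linkTo t a b) _ _

theorem measurableSet_contacts {m : ℕ} (t : ℤ) (k : ℕ) :
    MeasurableSet {ω : Fin (m + 1) × ℤ → Bool | contacts ω t = k} := by
  classical
  have e : {ω : Fin (m + 1) × ℤ → Bool | contacts ω t = k} =
      ⋃ A : Finset (Fin (m + 1)), ⋂ j : Fin (m + 1),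
        ({_ω | A.card = k} ∩ {ω | j ∈ A ↔ Hw ω t (j.val : ℤ)}) := by
    ext ω
    simp only [Set.mem_iUnion, Set.mem_iInter, Set.mem_inter_iff]
    constructor
    · intro h
      refine ⟨Finset.univ.filter (fun j : Fin (m + 1) => Hw ω t (j.val : ℤ)), fun j => ⟨?_, ?_⟩⟩
      · show (Finset.univ.filter (fun j : Fin (m + 1) => Hw ω t (j.val : ℤ))).card = k
        rw [← Set.ncard_coe_finset, Finset.coe_filter]
        simp only [Finset.mem_univ, true_and]
        exact h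
      · show j ∈ Finset.univ.filter (fun j : Fin (m + 1) => Hw ω t (j.val : ℤ)) ↔ _
        simp
    · rintro ⟨A, hA⟩
      show Set.ncard {j : Fin (m + 1) | Hw ω t (j.val : ℤ)} = k
      have : {j : Fin (m + 1) | Hw ω t (j.val : ℤ)} = (A : Set (Fin (m + 1))) := by
        ext j
        exact (hA j).2.symm
      rw [this, Set.ncard_coe_finset]
      exact (hA 0).1
  rw [e]
  refine MeasurableSet.iUnion fun A => MeasurableSet.iInter fun j => (MeasurableSet.const _).inter ?_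
  by_cases hj : j ∈ A
  · have : {ω : Fin (m + 1) × ℤ → Bool | j ∈ A ↔ Hw ω t (j.val : ℤ)} =
        {ω | Hw ω t (j.val : ℤ)} := by
      ext ω
      simp [hj]
    rw [this]
    exact measurableSet_Hw t _
  · have : {ω : Fin (m + 1) × ℤ → Bool | j ∈ A ↔ Hw ω t (j.val : ℤ)} =
        {ω | Hw ω t (j.val : ℤ)}ᶜ := by
      ext ω
      simp [hj]
    rw [this]
    exact (measurableSet_Hw t _).compl

theorem measurableSet_top {m : ℕ} (t : ℤ) :
    MeasurableSet {ω : Fin (m + 1) × ℤ → Bool | ∃ j, TopAt ω j t} := by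
  have e : {ω : Fin (m + 1) × ℤ → Bool | ∃ j, TopAt ω j t} = ⋃ j : ℤ,
      ({ω | Wraps ω (j, t)} ∩ ⋂ b : ℤ × ℤ, {ω | EqvGen (Link ω) (j, t) b → b.2 ≤ t}) := by
    ext ω
    simp only [Set.mem_iUnion, Set.mem_iInter, Set.mem_inter_iff]
    exact Iff.rfl
  rw [e]
  refine MeasurableSet.iUnion fun j => (measurableSet_wraps _).inter
    (MeasurableSet.iInter fun b => ?_)
  by_cases hb : b.2 ≤ t
  · have : {ω : Fin (m + 1) × ℤ → Bool | EqvGen (Link ω) (j, t) b → b.2 ≤ t} = Set.univ := by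
      ext ω
      simp [hb]
    rw [this]
    exact MeasurableSet.univ
  · have : {ω : Fin (m + 1) × ℤ → Bool | EqvGen (Link ω) (j, t) b → b.2 ≤ t} =
        {ω | EqvGen (Link ω) (j, t) b}ᶜ := by
      ext ω
      simp [hb]
    rw [this]
    exact (measurableSet_eqvGen (fun ω : Fin (m + 1) × ℤ → Bool => Link ω)
      measurableSet_link _ _).compl

/-! ### the values -/

theorem contacts_eq {n : ℕ} {ω : Fin (2 * n + 1 + 1) × ℤ → Bool} {t : ℤ} {M s : ℕ} (h1 : s < M)
    (hl : lowc ω t M s = alt (2 * n + 1)) (σ : Wd (2 * n + 1 + 1)) :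
    contacts ω t = mn (2 * n + 1) (rows (2 * n + 1) (lowc ω t M) M σ).1 := by
  classical
  unfold contacts mn
  rw [← Set.ncard_coe_finset, Finset.coe_filter]
  congr 1
  ext j
  simp only [Finset.mem_univ, true_and]
  exact half_iff h1 hl σ _ _

/-- **the law of the contacts** -/
theorem contacts_law {n : ℕ} {ε : ℝ} {p : ℤ → unitInterval} (hp : Ell ε p) (t : ℤ) (k : ℕ) :
    (coins (2 * n + 1) p).real {ω | contacts ω t = k} = P (n + 1) k := by
  classical
  obtain ⟨μ, m0, m1, m2, -, -⟩ := markov_exists (2 * n + 1)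
  have h := value_gen hp t μ m0 m1 m2 {ω | contacts ω t = k} (measurableSet_contacts t k)
    (fun σ _ => if mn (2 * n + 1) σ.1 = k then 1 else 0)
    (fun σ _ => by split_ifs <;> norm_num) (fun σ _ => by split_ifs <;> norm_num)
    (fun ω M s hs hl σ => by
      have hc := contacts_eq hs hl σ
      constructor
      · intro h
        have h' : contacts ω t = k := h
        rw [if_pos (by rw [← hc, h'])]
      · intro h
        have h' : contacts ω t ≠ k := h
        rw [if_neg (by rw [← hc]; exact h')])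
  rw [h, ← Finset.sum_mul, sum_rw1, one_mul]
  have hq : ∑ σ, μ σ * (if mn (2 * n + 1) σ.1 = k then (1 : ℝ) else 0) = qk (2 * n + 1) μ k := rfl
  rw [hq]
  rcases Nat.lt_or_ge (n + 1) k with hk | hk
  · rw [P_big hk]
    unfold qk
    refine Finset.sum_eq_zero fun σ _ => ?_
    rw [if_neg, mul_zero]
    have := mn_le (m := 2 * n + 1) (by omega) σ
    omega
  · exact mn_law μ m1 m2 k hk

theorem top_good {n : ℕ} {ω : Fin (2 * n + 1 + 1) × ℤ → Bool} {t : ℤ} {M s : ℕ} (h1 : s < M)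
    (hl : lowc ω t M s = alt (2 * n + 1)) (σ : Wd (2 * n + 1 + 1)) :
    (∃ j, TopAt ω j t) ↔ Cl (2 * n + 1) (rows (2 * n + 1) (lowc ω t M) M σ).1
      (fun j => ω (j, t)) := by
  have hJ : ∀ i, Hw ω t i ↔ Jw (2 * n + 1) (rows (2 * n + 1) (lowc ω t M) M σ).1 i :=
    fun i => half_iff h1 hl σ _ _
  simp only [top_iff]
  unfold Cl
  simp only [cl_col, ← hJ]
  constructor
  · rintro ⟨j, -, h⟩
    exact h
  · intro h
    obtain ⟨a, ha⟩ := Jw_nonempty (m := 2 * n + 1) (by omega)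
      (rows (2 * n + 1) (lowc ω t M) M σ)
    exact ⟨a, (hJ a).2 ha, h⟩

/-- **the probability that a level is the top of a winding cluster** -/
theorem top_law {n : ℕ} {ε : ℝ} {p : ℤ → unitInterval} (hp : Ell ε p) (t : ℤ) :
    (coins (2 * n + 1) p).real {ω | ∃ j, TopAt ω j t} =
      ∑ k ∈ Finset.range (n + 1 + 1), P (n + 1) k * ((p t : ℝ) * (1 - p t)) ^ k := by
  classical
  obtain ⟨μ, m0, m1, m2, -, -⟩ := markov_exists (2 * n + 1)
  have h := value_gen hp t μ m0 m1 m2 {ω | ∃ j, TopAt ω j t} (measurableSet_top t)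
    (fun σ c => if Cl (2 * n + 1) σ.1 c then 1 else 0)
    (fun σ _ => by split_ifs <;> norm_num) (fun σ _ => by split_ifs <;> norm_num)
    (fun ω M s hs hl σ => by
      have hc := top_good hs hl σ
      constructor
      · intro h
        rw [if_pos (hc.1 h)]
      · intro h
        rw [if_neg (fun h' => h (hc.2 h'))])
  rw [h]
  have e1 : ∀ c : Fin (2 * n + 1 + 1) → Bool, rw1 (p t : ℝ) c *
      ∑ σ, μ σ * (if Cl (2 * n + 1) σ.1 c then (1 : ℝ) else 0) =
      ∑ σ, μ σ * (rw1 (p t : ℝ) c * (if Cl (2 * n + 1) σ.1 c then (1 : ℝ) else 0)) := by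
    intro c
    rw [Finset.mul_sum]
    refine Finset.sum_congr rfl fun σ _ => ?_
    ring
  simp only [e1]
  rw [Finset.sum_comm]
  have e2 : ∀ σ : Wd (2 * n + 1 + 1), ∑ c : Fin (2 * n + 1 + 1) → Bool,
      μ σ * (rw1 (p t : ℝ) c * (if Cl (2 * n + 1) σ.1 c then (1 : ℝ) else 0)) =
      μ σ * ((p t : ℝ) * (1 - p t)) ^ mn (2 * n + 1) σ.1 := by
    intro σ
    rw [← Finset.mul_sum]
    congr 1
    have h3 := sum_Cl (m := 2 * n + 1) (by omega) σ (p t : ℝ) (1 - (p t : ℝ))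
    rw [add_sub_cancel, one_pow, mul_one] at h3
    exact h3
  simp only [e2]
  have h4 := qk_sum μ (fun k => ((p t : ℝ) * (1 - p t)) ^ k)
  rw [← h4]
  refine Finset.sum_congr rfl fun k hk => ?_
  rw [Finset.mem_range] at hk
  rw [mn_law μ m1 m2 k (by omega)]

end Pool.Agent.Helper21.WC
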