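import Mathlib

/-!
# An abstract cancellation lemma for cyclic configurations, and a product formula
-/

namespace Pool.Agent.Helper21.WC

open Finset

/-- cyclic configurations: if the sum of the weights of the states other than `z` vanishes and the
function does not distinguish these states to the right of a `z`, only the configurations without
any `z` contribute -/
theorem abs_cancel {R S : Type*} [CommRing R] [Fintype S] [DecidableEq S] {N : ℕ} (z x0 : S)
    (hx0 : x0 ≠ z) (W : S → R) (p : R) (hW : ∑ x ∈ univ.erase z, W x = 0)
    (hp : ∀ x, x ≠ z → p ∣ W x) (K : (Fin N → S) → R) (hK0 : K (fun _ => z) = 0)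
    (nx : Fin N → Fin N) (hnx : ∀ Z : Finset (Fin N), Z.Nonempty → (∀ i ∈ Z, nx i ∈ Z) → Z = univ)
    (hK : ∀ (i : Fin N) (s : Fin N → S) (x y : S), s i = z → nx i ≠ i → x ≠ z → y ≠ z →
      K (Function.update s (nx i) x) = K (Function.update s (nx i) y)) :
    p ^ N ∣ ∑ s : Fin N → S, (∏ j, W (s j)) * K s := by
  classical
  rw [← Finset.sum_fiberwise univ (fun s : Fin N → S => univ.filter (fun i => s i = z))
    (fun s => (∏ j, W (s j)) * K s)]
  refine Finset.dvd_sum fun Z _ => ?_
  by_cases h1 : Z = univ
  · refine Finset.dvd_sum fun s hs => ?_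
    rw [Finset.mem_filter] at hs
    have h2 : s = fun _ => z := by
      funext i
      have : i ∈ univ.filter (fun i => s i = z) := by rw [hs.2, h1]; exact mem_univ _
      exact (Finset.mem_filter.1 this).2
    rw [h2, hK0, mul_zero]
    exact dvd_zero _
  by_cases h2 : Z.Nonempty
  · obtain ⟨i, hi, hni⟩ : ∃ i ∈ Z, nx i ∉ Z := by
      by_contra hcon
      push Not at hcon
      exact h1 (hnx Z h2 hcon)
    have hne : nx i ≠ i := fun h => hni (by rw [h]; exact hi)
    have hzero : ∑ s ∈ univ.filter (fun s : Fin N → S => univ.filter (fun i => s i = z) = Z),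
        (∏ j, W (s j)) * K s = 0 := by
      rw [Finset.sum_filter]
      rw [← (Equiv.funSplitAt (nx i) S).symm.sum_comp, Fintype.sum_prod_type, Finset.sum_comm]
      refine Finset.sum_eq_zero fun r _ => ?_
      set u : Fin N → S := (Equiv.funSplitAt (nx i) S).symm (z, r) with hu
      have hux : ∀ x, (Equiv.funSplitAt (nx i) S).symm (x, r) = Function.update u (nx i) x := by
        intro x
        funext l
        by_cases hl : l = nx i
        · subst hl
          simp [Equiv.funSplitAt, Equiv.piSplitAt]
        · rw [Function.update_of_ne hl, hu]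
          simp [Equiv.funSplitAt, Equiv.piSplitAt, hl]
      simp only [hux]
      set C : R := if (∀ l, l ≠ nx i → (u l = z ↔ l ∈ Z)) then
        (∏ l ∈ univ.erase (nx i), W (u l)) * K (Function.update u (nx i) x0) else 0 with hC
      have hprod : ∀ x, ∏ l, W (Function.update u (nx i) x l) =
          W x * ∏ l ∈ univ.erase (nx i), W (u l) := by
        intro x
        rw [← Finset.mul_prod_erase univ _ (mem_univ (nx i)), Function.update_self]
        congr 1
        refine Finset.prod_congr rfl fun l hl => ?_
        rw [Function.update_of_ne (Finset.mem_erase.1 hl).1]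
      have hterm : ∀ x, (if univ.filter (fun l => Function.update u (nx i) x l = z) = Z then
          (∏ l, W (Function.update u (nx i) x l)) * K (Function.update u (nx i) x) else 0) =
          if x ≠ z then W x * C else 0 := by
        intro x
        by_cases hx : x = z
        · rw [if_neg, if_neg (by simp [hx])]
          intro h
          apply hni
          rw [← h, Finset.mem_filter]
          exact ⟨mem_univ _, by rw [Function.update_self, hx]⟩
        · rw [if_pos hx]
          by_cases hc : ∀ l, l ≠ nx i → (u l = z ↔ l ∈ Z)
          · rw [hC, if_pos hc, if_pos]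
            · rw [hprod, hK i u x x0 ((hc i (Ne.symm hne)).2 hi) hne hx hx0]
              ring
            · ext l
              rw [Finset.mem_filter]
              by_cases hl : l = nx i
              · rw [hl, Function.update_self]
                exact ⟨fun h => absurd h.2 hx, fun h => absurd h hni⟩
              · rw [Function.update_of_ne hl, ← hc l hl]
                simp
          · rw [hC, if_neg hc, mul_zero, if_neg]
            intro h
            apply hc
            intro l hl
            rw [← h, Finset.mem_filter, Function.update_of_ne hl]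
            simp
      simp only [hterm]
      rw [← Finset.sum_filter, ← Finset.sum_mul]
      have : univ.filter (fun x : S => x ≠ z) = univ.erase z := by
        ext x
        simp
      rw [this, hW, zero_mul]
    rw [hzero]
    exact dvd_zero _
  · rw [Finset.not_nonempty_iff_eq_empty] at h2
    refine Finset.dvd_sum fun s hs => ?_
    rw [Finset.mem_filter, h2] at hs
    apply Dvd.dvd.mul_right
    have h3 : p ^ N = ∏ _j : Fin N, p := by simp
    rw [h3]
    refine Finset.prod_dvd_prod_of_dvd _ _ fun j _ => hp _ ?_
    intro h4
    have : j ∈ univ.filter (fun i => s i = z) := Finset.mem_filter.2 ⟨mem_univ _, h4⟩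
    rw [hs.2] at this
    exact absurd this (Finset.notMem_empty _)

/-- a set of residues which is closed under the successor is everything -/
theorem cyc_closed {m : ℕ} (Z : Finset (Fin (m + 1))) (h : Z.Nonempty)
    (h1 : ∀ i ∈ Z, i + 1 ∈ Z) : Z = univ := by
  obtain ⟨a, ha⟩ := h
  have key : ∀ k : ℕ, a + (Fin.ofNat (m + 1) k) ∈ Z := by
    intro k
    induction k with
    | zero =>
      have : a + Fin.ofNat (m + 1) 0 = a := by
        apply Fin.ext
        rw [Fin.val_add]
        simp [Fin.ofNat]
        exact Nat.lt_succ_iff.1 a.2
      rw [this]; exact ha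
    | succ k ih =>
      have : a + Fin.ofNat (m + 1) (k + 1) = a + Fin.ofNat (m + 1) k + 1 := by
        rw [add_assoc]
        congr 1
        apply Fin.ext
        rw [Fin.val_add, Fin.val_one']
        simp only [Fin.ofNat]
        exact Nat.add_mod k 1 (m + 1)
      rw [this]
      exact h1 _ ih
  rw [Finset.eq_univ_iff_forall]
  intro b
  have := key ((b - a).val)
  have e : Fin.ofNat (m + 1) (b - a).val = b - a := by
    apply Fin.ext
    simp only [Fin.ofNat]
    exact Nat.mod_eq_of_lt (b - a).2
  rw [e, add_sub_cancel] at this
  exact this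

open Classical in
/-- the total weight of the rows with prescribed states on two disjoint sets of equal size -/
theorem sum_prescribed {R : Type*} [CommRing R] {N : ℕ} (A B : Finset (Fin N))
    (hd : Disjoint A B) (x y : R) :
    ∑ c : Fin N → Bool, (∏ j, (if c j = true then x else y)) *
      (if (∀ i ∈ A, c i = true) ∧ (∀ i ∈ B, c i = false) then 1 else 0) =
      x ^ A.card * y ^ B.card * (x + y) ^ (N - (A.card + B.card)) := by
  have h1 : ∀ c : Fin N → Bool, (∏ j, (if c j = true then x else y)) *
      (if (∀ i ∈ A, c i = true) ∧ (∀ i ∈ B, c i = false) then 1 else 0) =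
      ∏ j, ((if c j = true then x else y) *
        (if (j ∈ A ∧ c j = false) ∨ (j ∈ B ∧ c j = true) then 0 else 1)) := by
    intro c
    rw [Finset.prod_mul_distrib]
    congr 1
    by_cases h : (∀ i ∈ A, c i = true) ∧ (∀ i ∈ B, c i = false)
    · rw [if_pos h]
      symm
      refine Finset.prod_eq_one fun j _ => ?_
      rw [if_neg]
      rintro (⟨h2, h3⟩ | ⟨h2, h3⟩)
      · rw [h.1 j h2] at h3; exact absurd h3 (by simp)
      · rw [h.2 j h2] at h3; exact absurd h3 (by simp)
    · rw [if_neg h]
      symm
      rw [not_and_or] at h
      rcases h with h | h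
      · push Not at h
        obtain ⟨i, hi, hc⟩ := h
        refine Finset.prod_eq_zero (mem_univ i) ?_
        rw [if_pos (Or.inl ⟨hi, by simpa using hc⟩)]
      · push Not at h
        obtain ⟨i, hi, hc⟩ := h
        refine Finset.prod_eq_zero (mem_univ i) ?_
        rw [if_pos (Or.inr ⟨hi, by simpa using hc⟩)]
  simp only [h1]
  have h2 := Finset.prod_univ_sum (fun _ : Fin N => (Finset.univ : Finset Bool))
    (fun j b => (if b = true then x else y) *
        (if (j ∈ A ∧ b = false) ∨ (j ∈ B ∧ b = true) then 0 else 1))
  simp only [Fintype.piFinset_univ] at h2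
  rw [← h2]
  have h3 : ∀ j : Fin N, ∑ b : Bool, (if b = true then x else y) *
        (if (j ∈ A ∧ b = false) ∨ (j ∈ B ∧ b = true) then 0 else 1) =
      (if j ∈ A then x else 1) * (if j ∈ B then y else 1) *
        (if j ∈ (A ∪ B)ᶜ then x + y else 1) := by
    intro j
    rw [Fintype.sum_bool]
    by_cases hA : j ∈ A
    · have hB : j ∉ B := Finset.disjoint_left.1 hd hA
      simp [hA, hB]
    · by_cases hB : j ∈ B
      · simp [hA, hB]
      · simp [hA, hB]
  rw [Finset.prod_congr rfl (fun j _ => h3 j), Finset.prod_mul_distrib, Finset.prod_mul_distrib]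
  rw [Finset.prod_ite_mem, Finset.prod_ite_mem, Finset.prod_ite_mem]
  simp only [Finset.univ_inter, Finset.prod_const]
  rw [Finset.card_compl, Fintype.card_fin, Finset.card_union_of_disjoint hd]

end Pool.Agent.Helper21.WC
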