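import Mathlib

/-!
# The polynomials `a^k + b^k` in terms of `v = -ab`, where `a + b = -(3v + v²)`
-/

namespace Pool.Agent.Helper21.WC

open Finset

/-- `C(A+B,A) + C(A+B-1,A)` -/
def T (A B : ℕ) : ℕ := (A + B).choose A + (A + B - 1).choose A

/-- extension by zero -/
def TZ (A B : ℤ) : ℤ := if 0 ≤ A ∧ 0 ≤ B then (T A.toNat B.toNat : ℤ) else 0

theorem T_pascal (A B : ℕ) : T (A + 1) (B + 1) = T A (B + 1) + T (A + 1) B := by
  unfold T
  have h1 : (A + 1 + (B + 1)).choose (A + 1) = (A + (B + 1)).choose A + (A + 1 + B).choose (A + 1) := by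
    rw [show A + 1 + (B + 1) = (A + B + 1) + 1 by ring, Nat.choose_succ_succ,
      show A + (B + 1) = A + B + 1 by ring, show A + 1 + B = A + B + 1 by ring]
  have h2 : (A + 1 + (B + 1) - 1).choose (A + 1) =
      (A + (B + 1) - 1).choose A + (A + 1 + B - 1).choose (A + 1) := by
    rw [show A + 1 + (B + 1) - 1 = (A + B) + 1 by omega, Nat.choose_succ_succ,
      show A + (B + 1) - 1 = A + B by omega, show A + 1 + B - 1 = A + B by omega]
  rw [h1, h2]
  ring

theorem T_zero_left (B : ℕ) : T 0 B = 2 := by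
  unfold T
  simp

theorem T_zero_right (A : ℕ) : T (A + 1) 0 = 1 := by
  unfold T
  simp

theorem TZ_neg_left {A B : ℤ} (h : A < 0) : TZ A B = 0 := by
  unfold TZ
  rw [if_neg (by omega)]

theorem TZ_neg_right {A B : ℤ} (h : B < 0) : TZ A B = 0 := by
  unfold TZ
  rw [if_neg (by omega)]

theorem TZ_nat (A B : ℕ) : TZ A B = T A B := by
  unfold TZ
  rw [if_pos (by omega)]
  simp

theorem TZ_pascal {A B : ℤ} (h : 2 ≤ A + 2 * B) : TZ A B = TZ (A - 1) B + TZ A (B - 1) := by
  rcases lt_or_ge A 0 with hA | hA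
  · rw [TZ_neg_left hA, TZ_neg_left (by omega), TZ_neg_left hA]; ring
  rcases lt_or_ge B 0 with hB | hB
  · rw [TZ_neg_right hB, TZ_neg_right hB, TZ_neg_right (by omega)]; ring
  obtain ⟨a, rfl⟩ := Int.eq_ofNat_of_zero_le hA
  obtain ⟨b, rfl⟩ := Int.eq_ofNat_of_zero_le hB
  rcases a with _ | a
  · rcases b with _ | b
    · simp at h
    · rw [TZ_neg_left (A := ((0 : ℕ) : ℤ) - 1) (by simp), TZ_nat, T_zero_left]
      rw [show (((b + 1 : ℕ) : ℤ) - 1) = (b : ℕ) by push_cast; ring, TZ_nat, T_zero_left]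
      ring
  · rcases b with _ | b
    · rcases a with _ | a
      · simp at h
      · rw [TZ_neg_right (A := ((a + 1 + 1 : ℕ) : ℤ)) (B := ((0 : ℕ) : ℤ) - 1) (by simp), TZ_nat, T_zero_right]
        rw [show (((a + 1 + 1 : ℕ) : ℤ) - 1) = (a + 1 : ℕ) by push_cast; ring, TZ_nat, T_zero_right]
        ring
    · rw [show (((a + 1 : ℕ) : ℤ) - 1) = (a : ℕ) by push_cast; ring,
        show (((b + 1 : ℕ) : ℤ) - 1) = (b : ℕ) by push_cast; ring, TZ_nat, TZ_nat, TZ_nat, T_pascal]
      push_cast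
      ring

theorem TZ_cubic {A B : ℤ} (h : 6 ≤ A + 2 * B) :
    TZ A B = 3 * TZ (A - 1) (B - 1) + TZ (A - 3) B + TZ A (B - 3) := by
  have h1 := TZ_pascal (A := A) (B := B) (by omega)
  have h2 := TZ_pascal (A := A - 1) (B := B) (by omega)
  have h3 := TZ_pascal (A := A) (B := B - 1) (by omega)
  have h4 := TZ_pascal (A := A - 1 - 1) (B := B) (by omega)
  have h5 := TZ_pascal (A := A - 1) (B := B - 1) (by omega)
  have h6 := TZ_pascal (A := A) (B := B - 1 - 1) (by omega)
  rw [show A - 1 - 1 - 1 = A - 3 by ring] at h4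
  rw [show B - 1 - 1 - 1 = B - 3 by ring] at h6
  linarith

/-- the coefficients -/
def g (k : ℕ) (i : ℤ) : ℤ := (-1) ^ k * TZ (2 * i - k) (2 * k - i)

theorem g_rec (k : ℕ) (i : ℤ) :
    g (k + 2) i = -(3 * g (k + 1) (i - 1) + g (k + 1) (i - 2)) + g k (i - 1) := by
  unfold g
  have h := TZ_cubic (A := 2 * i - ((k + 2 : ℕ) : ℤ)) (B := 2 * ((k + 2 : ℕ) : ℤ) - i)
    (by push_cast; omega)
  push_cast at h ⊢
  rw [h]
  rw [show 2 * (i - 1) - ((k : ℤ) + 1) = 2 * i - ((k : ℤ) + 2) - 1 by ring,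
    show 2 * ((k : ℤ) + 1) - (i - 1) = 2 * ((k : ℤ) + 2) - i - 1 + 0 by ring,
    show 2 * (i - 2) - ((k : ℤ) + 1) = 2 * i - ((k : ℤ) + 2) - 3 by ring,
    show 2 * ((k : ℤ) + 1) - (i - 2) = 2 * ((k : ℤ) + 2) - i + 0 by ring,
    show 2 * (i - 1) - (k : ℤ) = 2 * i - ((k : ℤ) + 2) + 0 by ring,
    show 2 * (k : ℤ) - (i - 1) = 2 * ((k : ℤ) + 2) - i - 3 by ring]
  simp only [add_zero]
  ring

theorem g_zero (i : ℤ) : g 0 i = if i = 0 then 2 else 0 := by
  unfold g
  by_cases h : i = 0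
  · subst h
    rfl
  · rw [if_neg h]
    rcases lt_or_gt_of_ne h with h | h
    · rw [TZ_neg_left (by push_cast; omega)]; ring
    · rw [TZ_neg_right (by push_cast; omega)]; ring

theorem g_one (i : ℤ) : g 1 i = if i = 1 then -3 else if i = 2 then -1 else 0 := by
  unfold g
  by_cases h : i = 1
  · subst h
    rfl
  · rw [if_neg h]
    by_cases h2 : i = 2
    · subst h2
      rfl
    · rw [if_neg h2]
      rcases lt_or_gt_of_ne h with h | h
      · rw [TZ_neg_left (by push_cast; omega)]; ring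
      · rw [TZ_neg_right (by push_cast; omega)]; ring

theorem g_big {k : ℕ} {i : ℤ} (h : 2 * (k : ℤ) < i) : g k i = 0 := by
  unfold g
  rw [TZ_neg_right (by omega), mul_zero]

theorem g_small {k : ℕ} {i : ℤ} (h : 2 * i < k) : g k i = 0 := by
  unfold g
  rw [TZ_neg_left (by omega), mul_zero]

/-- shift of a sum of a function with bounded support -/
theorem sum_shift (f : ℤ → ℤ) (v : ℝ) (n s : ℕ) (hf : ∀ i : ℤ, i < 0 → f i = 0) :
    ∑ i ∈ range (n + s), (f ((i : ℤ) - s) : ℝ) * v ^ i =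
      v ^ s * ∑ i ∈ range n, (f i : ℝ) * v ^ i := by
  rw [Nat.add_comm n s, Finset.sum_range_add]
  have h1 : ∑ i ∈ range s, (f ((i : ℤ) - s) : ℝ) * v ^ i = 0 := by
    refine Finset.sum_eq_zero fun i hi => ?_
    rw [Finset.mem_range] at hi
    rw [hf _ (by omega)]
    simp
  rw [h1, zero_add, Finset.mul_sum]
  refine Finset.sum_congr rfl fun i _ => ?_
  rw [show (((s + i : ℕ) : ℤ) - s) = i by push_cast; ring, pow_add]
  ring

/-- the sum is independent of the length -/
theorem sum_ext {k : ℕ} (v : ℝ) {n n' : ℕ} (h : 2 * k + 1 ≤ n) (h' : 2 * k + 1 ≤ n') :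
    ∑ i ∈ range n, (g k i : ℝ) * v ^ i = ∑ i ∈ range n', (g k i : ℝ) * v ^ i := by
  have key : ∀ n, 2 * k + 1 ≤ n → ∑ i ∈ range n, (g k i : ℝ) * v ^ i =
      ∑ i ∈ range (2 * k + 1), (g k i : ℝ) * v ^ i := by
    intro n hn
    symm
    apply Finset.sum_subset (Finset.range_subset_range.2 hn)
    intro i _ hi
    rw [Finset.mem_range, not_lt] at hi
    rw [g_big (by omega)]
    simp
  rw [key n h, key n' h']

/-- **the power sums** -/
theorem power_sum {a b v : ℝ} (h1 : a + b = -(3 * v + v ^ 2)) (h2 : a * b = -v) (k : ℕ) :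
    ∀ n, 2 * k + 1 ≤ n → ∑ i ∈ range n, (g k i : ℝ) * v ^ i = a ^ k + b ^ k := by
  induction k using Nat.twoStepInduction with
  | zero =>
    intro n hn
    rw [sum_ext (k := 0) v hn (le_refl 1)]
    simp [g_zero]
    norm_num
  | one =>
    intro n hn
    rw [sum_ext (k := 1) v hn (le_refl 3)]
    simp [g_one, Finset.sum_range_succ]
    linarith
  | more k ih1 ih2 =>
    intro n hn
    rw [sum_ext (k := k + 2) v hn (show 2 * (k + 2) + 1 ≤ 2 * k + 5 by omega)]
    have e1 := sum_shift (g (k + 1)) v (2 * k + 4) 1 (fun i hi => g_small (by push_cast; omega))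
    have e2 := sum_shift (g (k + 1)) v (2 * k + 3) 2 (fun i hi => g_small (by push_cast; omega))
    have e3 := sum_shift (g k) v (2 * k + 4) 1 (fun i hi => g_small (by omega))
    rw [ih2 _ (by omega)] at e1 e2
    rw [ih1 _ (by omega)] at e3
    push_cast at e1 e2 e3
    have e4 : ∑ i ∈ range (2 * k + 5), (g (k + 2) i : ℝ) * v ^ i =
        -(3 * ∑ i ∈ range (2 * k + 4 + 1), (g (k + 1) ((i : ℤ) - 1) : ℝ) * v ^ i +
          ∑ i ∈ range (2 * k + 3 + 2), (g (k + 1) ((i : ℤ) - 2) : ℝ) * v ^ i) +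
        ∑ i ∈ range (2 * k + 4 + 1), (g k ((i : ℤ) - 1) : ℝ) * v ^ i := by
      rw [Finset.mul_sum, ← Finset.sum_add_distrib, ← Finset.sum_neg_distrib,
        ← Finset.sum_add_distrib]
      refine Finset.sum_congr rfl fun i _ => ?_
      rw [g_rec]
      push_cast
      ring
    rw [e4, e1, e2, e3]
    linear_combination (-(a ^ (k + 1) + b ^ (k + 1))) * h1 + (a ^ k + b ^ k) * h2

/-! ### closed forms -/

theorem T_closed (A B : ℕ) (h : 1 ≤ A + B) :
    ((A.factorial : ℝ) * B.factorial) * T A B = (A + 2 * B) * (A + B - 1).factorial := by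
  obtain ⟨n, hn⟩ : ∃ n, A + B = n + 1 := ⟨A + B - 1, by omega⟩
  unfold T
  rw [hn, show n + 1 - 1 = n by omega]
  have h1 : ((n + 1).choose A : ℝ) * (A.factorial * B.factorial) = (n + 1).factorial := by
    have := Nat.choose_mul_factorial_mul_factorial (n := n + 1) (k := A) (by omega)
    rw [show n + 1 - A = B by omega] at this
    exact_mod_cast (by rw [← this]; ring : (n + 1).choose A * (A.factorial * B.factorial) = _)
  have h2 : (n.choose A : ℝ) * (A.factorial * B.factorial) = B * n.factorial := by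
    rcases B with _ | b
    · rw [Nat.choose_eq_zero_of_lt (by omega)]
      simp
    · have := Nat.choose_mul_factorial_mul_factorial (n := n) (k := A) (by omega)
      rw [show n - A = b by omega] at this
      rw [Nat.factorial_succ]
      have h3 : (n.choose A : ℝ) * A.factorial * b.factorial = n.factorial := by exact_mod_cast this
      push_cast
      linear_combination ((b : ℝ) + 1) * h3
  have h3 : ((n + 1).factorial : ℝ) = (n + 1) * n.factorial := by
    rw [Nat.factorial_succ]; push_cast; ring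
  have h4 : (A : ℝ) + B = n + 1 := by exact_mod_cast hn
  push_cast
  linear_combination h1 + h2 + h3 - (n.factorial : ℝ) * h4

end Pool.Agent.Helper21.WC
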