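import Pool.Agent.Helper21.WC.Win

/-!
# Two local cancellations for the closing of the winding class
-/

namespace Pool.Agent.Helper21.WC

open Pool.Agent.H863R2.Cyl Pool.Agent.H863R2.Cyl.Sem1Aux Relation
open Pool.Agent.H988R2.Perc (Word)
open Pool.Agent.Helper21.EV (col cl_col)

variable {m : ℕ}

theorem col_nat (m j : ℕ) : col m (j : ℤ) = ix m j := by
  apply Fin.ext
  show ((j : ℤ) % (m + 1 : ℤ)).toNat = j % (m + 1)
  have : ((j : ℤ) % (m + 1 : ℤ)) = ((j % (m + 1) : ℕ) : ℤ) := by push_cast; rfl
  rw [this, Int.toNat_natCast]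

theorem col_eq_iff {a b : ℤ} : col m a = col m b ↔ ∃ k : ℤ, a = b + k * (m + 1) := by
  have hN : (0 : ℤ) < m + 1 := by omega
  constructor
  · intro h
    have h1 := congrArg Fin.val h
    have g1 := Int.emod_nonneg a hN.ne'
    have g2 := Int.emod_nonneg b hN.ne'
    have h2 : a % (m + 1 : ℤ) = b % (m + 1 : ℤ) := by
      have h3 : (a % (m + 1 : ℤ)).toNat = (b % (m + 1 : ℤ)).toNat := h1
      omega
    have g3 := Int.emod_add_mul_ediv a (m + 1)
    have g4 := Int.emod_add_mul_ediv b (m + 1)
    exact ⟨a / (m + 1) - b / (m + 1), by rw [h2] at g3; linarith⟩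
  · rintro ⟨k, rfl⟩
    unfold col
    apply Fin.ext
    simp

theorem cl_congr {c : Fin (m + 1) → Bool} {a b : ℤ} (h : col m a = col m b) : cl c a = cl c b := by
  rw [cl_col, cl_col, h]

theorem col_succ {a b : ℤ} (h : col m a = col m b) (k : ℤ) : col m (a + k) = col m (b + k) := by
  rw [col_eq_iff] at h ⊢
  obtain ⟨l, hl⟩ := h
  exact ⟨l, by rw [hl]; ring⟩

theorem col_ne_succ (hm : 1 ≤ m) (a : ℤ) : col m (a + 1) ≠ col m a := by
  intro h
  obtain ⟨k, hk⟩ := col_eq_iff.1 h
  have h2 : (m + 1 : ℤ) ∣ 1 := ⟨k, by linarith⟩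
  have := Int.le_of_dvd (by norm_num) h2
  omega

theorem Jw_col (σ : Wd (m + 1)) {a b : ℤ} (h : col m a = col m b) :
    Jw m σ.1 a ↔ Jw m σ.1 b := by
  obtain ⟨k, hk⟩ := col_eq_iff.1 h
  rw [hk, Jw_shift_mul]

theorem cl_upd2_left (hm : 1 ≤ m) (c : Fin (m + 1) → Bool) (j : ℕ) (a b : Bool) :
    cl (upd2 c j a b) j = a := by
  rw [cl_col, col_nat, upd2_left hm]

theorem cl_upd2_right (c : Fin (m + 1) → Bool) (j : ℕ) (a b : Bool) :
    cl (upd2 c j a b) (j + 1) = b := by
  rw [cl_col, show ((j : ℤ) + 1) = ((j + 1 : ℕ) : ℤ) by push_cast; rfl, col_nat, upd2_right]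

theorem cl_upd2_same {c : Fin (m + 1) → Bool} {j : ℕ} {a b b' : Bool} {x : ℤ}
    (h : col m x ≠ col m (j + 1)) : cl (upd2 c j a b) x = cl (upd2 c j a b') x := by
  rw [cl_col, cl_col]
  rw [show ((j : ℤ) + 1) = ((j + 1 : ℕ) : ℤ) by push_cast; rfl, col_nat] at h
  unfold upd2
  rw [Function.update_of_ne h, Function.update_of_ne h]

/-! ### the winding class and a small arc -/

theorem Jw_arc (hm : 2 ≤ m) (hev : m % 2 = 1) (τ : Wd (m + 1)) (j : ℕ) (hτ : E m j τ = τ) :
    (Jw m τ.1 j ↔ Jw m τ.1 (j + 2)) ∧ ¬ Jw m τ.1 (j + 1) := by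
  constructor
  · apply Jw_congr
    have := E_join hm τ j
    rwa [hτ] at this
  · intro h
    unfold Jw at h
    rw [← hτ] at h
    have := E_isol (by omega) τ j h
    omega

theorem star1 (hm : 2 ≤ m) (hev : m % 2 = 1) (τ : Wd (m + 1)) (j : ℕ) (hτ : E m j τ = τ)
    {c d : Fin (m + 1) → Bool} (hc : cl c j = false)
    (hcd : ∀ x : ℤ, col m x ≠ col m (j + 1) → cl c x = cl d x) (h : Cl m τ.1 c) :
    Cl m τ.1 d := by
  obtain ⟨h1, h2⟩ := Jw_arc hm hev τ j hτ
  have h3 : ¬ Jw m τ.1 j := by
    intro h4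
    rw [(h _ h4).1] at hc
    exact absurd hc (by simp)
  have h4 : ¬ Jw m τ.1 (j + 2) := fun h => h3 (h1.2 h)
  intro a ha
  have e1 : col m a ≠ col m (j + 1) := fun h5 => h2 ((Jw_col τ h5).1 ha)
  have e2 : col m (a - 1) ≠ col m (j + 1) := by
    intro h5
    apply h4
    have := col_succ h5 1
    rw [sub_add_cancel, show (j : ℤ) + 1 + 1 = j + 2 by ring] at this
    exact (Jw_col τ this).1 ha
  rw [← hcd _ e1, ← hcd _ e2]
  exact h a ha

/-- the winding class consists of the single face `j+1` -/
def Sing (m : ℕ) (w : Word) (j : ℕ) : Prop := ∀ b : ℤ, Jw m w b ↔ col m b = col m (j + 1)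

theorem sing_fwd (hm : 2 ≤ m) (hev : m % 2 = 1) (σ : Wd (m + 1)) (j : ℕ)
    (c : Fin (m + 1) → Bool) (h1 : Cl m σ.1 (upd2 c j true false))
    (h2 : ¬ Cl m σ.1 (upd2 c j true true)) : Sing m (Tc m (upd2 c j true true) σ).1 j := by
  have hm1 : 1 ≤ m := by omega
  set C := upd2 c j true true with hC
  set D := upd2 c j true false with hD
  have hj2 : Jw m σ.1 (j + 2) := by
    by_contra hcon
    apply h2
    intro a ha
    have e := h1 a ha
    have e1 : col m a ≠ col m (j + 1) := by
      intro h
      rw [cl_congr h, hD, cl_upd2_right] at e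
      exact absurd e.1 (by simp)
    have e2 : col m (a - 1) ≠ col m (j + 1) := by
      intro h
      apply hcon
      have := col_succ h 1
      rw [sub_add_cancel, show (j : ℤ) + 1 + 1 = j + 2 by ring] at this
      exact (Jw_col σ this).1 ha
    rw [hC, cl_upd2_same (b' := false) e1, cl_upd2_same (b' := false) e2]
    exact e
  have hlink : ∀ k : ℤ, Row m C σ.1 (j + 2 + k * (m + 1), false) (j + 1 + k * (m + 1), true) := by
    intro k
    have : cl C (j + 1 + k * (m + 1)) = true := by
      rw [cl_per, hC, cl_upd2_right]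
    have h := Row.link1 (w := σ.1) _ this
    rw [show (j : ℤ) + 1 + k * (m + 1) + 1 = j + 2 + k * (m + 1) by ring] at h
    exact h
  have hJ : Jw m (Tc m C σ).1 (j + 1) := by
    unfold Jw
    rw [Rw_Tc m hm1]
    have g1 := hlink 0
    have g2 := hlink 1
    simp only [zero_mul, add_zero, one_mul] at g1 g2
    refine (EqvGen.rel _ _ g1).symm.trans _ _ _ (EqvGen.trans _ _ _ (EqvGen.rel _ _ (Row.low _ _ hj2))
      (EqvGen.rel _ _ g2))
  have hne := col_ne_succ hm1 (j : ℤ)
  set S : ℤ × Bool → Prop := fun x => (x.2 = false ∧ Jw m σ.1 x.1) ∨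
    (x.2 = true ∧ col m x.1 = col m (j + 1)) with hS
  have hinv : ∀ x y, EqvGen (Row m C σ.1) x y → (S x ↔ S y) := by
    intro x y h
    induction h with
    | rel x y h =>
      cases h with
      | low a b h =>
        simp only [hS, true_and, Bool.false_eq_true, false_and, or_false]
        exact Jw_congr σ h
      | link0 i h =>
        simp only [hS, true_and, Bool.false_eq_true, false_and, or_false, Bool.true_eq_false,
          false_or]
        have e0 : col m i ≠ col m j := by
          intro h'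
          rw [cl_congr h', hC, cl_upd2_left hm1] at h
          exact absurd h (by simp)
        have e1 : col m i ≠ col m (j + 1) := by
          intro h'
          rw [cl_congr h', hC, cl_upd2_right] at h
          exact absurd h (by simp)
        constructor
        · intro h3
          have h4 := (h1 _ h3).1
          rw [hC, cl_upd2_same (b' := false) e1] at h
          rw [h] at h4
          exact absurd h4 (by simp)
        · intro h3
          exfalso
          apply e0
          have := col_succ h3 (-1)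
          rwa [add_neg_cancel_right, add_neg_cancel_right] at this
      | link1 i h =>
        simp only [hS, true_and, Bool.false_eq_true, false_and, or_false, Bool.true_eq_false,
          false_or]
        constructor
        · intro h3
          by_contra h4
          have h5 := (h1 _ h3).2
          rw [add_sub_cancel_right] at h5
          rw [hC, cl_upd2_same (b' := false) h4] at h
          rw [h] at h5
          exact absurd h5 (by simp)
        · intro h3
          have := col_succ h3 1
          rw [show (j : ℤ) + 1 + 1 = j + 2 by ring] at this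
          exact (Jw_col σ this).2 hj2
    | refl x => rfl
    | symm x y _ ih => exact ih.symm
    | trans x y z _ _ ih1 ih2 => exact ih1.trans ih2
  intro b
  constructor
  · intro hb
    have h3 := Jw_rel hev _ hJ hb
    rw [Rw_Tc m hm1] at h3
    have h4 := (hinv _ _ h3).1 (Or.inr ⟨rfl, rfl⟩)
    rcases h4 with h4 | h4
    · exact absurd h4.1 (by simp)
    · exact h4.2
  · intro hb
    exact (Jw_col _ hb).2 hJ

theorem sing_bwd (hm : 2 ≤ m) (hev : m % 2 = 1) (σ : Wd (m + 1)) (j : ℕ)
    (c : Fin (m + 1) → Bool) (h : Sing m (Tc m (upd2 c j true true) σ).1 j) :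
    Cl m σ.1 (upd2 c j true false) ∧ ¬ Cl m σ.1 (upd2 c j true true) := by
  have hm1 : 1 ≤ m := by omega
  set C := upd2 c j true true with hC
  set D := upd2 c j true false with hD
  have hJ : Jw m (Tc m C σ).1 (j + 1) := (h _).2 rfl
  have hne := col_ne_succ hm1 (j : ℤ)
  have hlink : ∀ k : ℤ, Row m C σ.1 (j + 2 + k * (m + 1), false) (j + 1 + k * (m + 1), true) := by
    intro k
    have : cl C (j + 1 + k * (m + 1)) = true := by
      rw [cl_per, hC, cl_upd2_right]
    have h := Row.link1 (w := σ.1) _ this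
    rw [show (j : ℤ) + 1 + k * (m + 1) + 1 = j + 2 + k * (m + 1) by ring] at h
    exact h
  have hl0 := hlink 0
  simp only [zero_mul, add_zero] at hl0
  -- faces above the class of `j+2`
  have hup : ∀ b : ℤ, EqvGen (Row m C σ.1) (j + 2, false) (b, true) →
      col m b = col m (j + 1) := by
    intro b hb
    rw [← h b, ← Jw_congr (a := (j : ℤ) + 1)]
    · exact hJ
    · rw [Rw_Tc m hm1]
      exact (EqvGen.rel _ _ hl0).symm.trans _ _ _ hb
  have hno0 : ∀ i : ℤ, Rw σ.1 (j + 2) i → cl C i = true := by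
    intro i hi
    cases hcl : cl C i with
    | true => rfl
    | false =>
      exfalso
      have g1 := hup (i + 1) ((EqvGen.rel _ _ (Row.low _ _ hi)).trans _ _ _
        (EqvGen.rel _ _ (Row.link0 i hcl)))
      have g2 := col_succ g1 (-1)
      rw [add_neg_cancel_right, add_neg_cancel_right] at g2
      rw [cl_congr g2, hC, cl_upd2_left hm1] at hcl
      exact absurd hcl (by simp)
  have hno1 : ∀ i : ℤ, Rw σ.1 (j + 2) (i + 1) → cl C i = true → col m i = col m (j + 1) := by
    intro i hi hcl
    exact hup i ((EqvGen.rel _ _ (Row.low _ _ hi)).trans _ _ _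
        (EqvGen.rel _ _ (Row.link1 i hcl)))
  set S : ℤ × Bool → Prop := fun x => (x.2 = false ∧ Rw σ.1 (j + 2) x.1) ∨
    (x.2 = true ∧ col m x.1 = col m (j + 1) ∧ Rw σ.1 (j + 2) (x.1 + 1)) with hS
  have hinv : ∀ x y, EqvGen (Row m C σ.1) x y → (S x ↔ S y) := by
    intro x y h
    induction h with
    | rel x y h =>
      cases h with
      | low a b h =>
        simp only [hS, true_and, Bool.false_eq_true, false_and, or_false]
        exact ⟨fun h' => (Rw_equiv σ.1).trans h' h, fun h' => (Rw_equiv σ.1).trans h'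
          ((Rw_equiv σ.1).symm h)⟩
      | link0 i h =>
        simp only [hS, true_and, Bool.false_eq_true, false_and, or_false, Bool.true_eq_false,
          false_or]
        constructor
        · intro h3
          rw [hno0 i h3] at h
          exact absurd h (by simp)
        · rintro ⟨h3, -⟩
          exfalso
          have := col_succ h3 (-1)
          rw [add_neg_cancel_right, add_neg_cancel_right] at this
          rw [cl_congr this, hC, cl_upd2_left hm1] at h
          exact absurd h (by simp)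
      | link1 i h =>
        simp only [hS, true_and, Bool.false_eq_true, false_and, or_false, Bool.true_eq_false,
          false_or]
        exact ⟨fun h3 => ⟨hno1 i h3 h, h3⟩, fun h3 => h3.2⟩
    | refl x => rfl
    | symm x y _ ih => exact ih.symm
    | trans x y z _ _ ih1 ih2 => exact ih1.trans ih2
  have hj2 : Jw m σ.1 (j + 2) := by
    have h3 := hJ
    unfold Jw at h3
    rw [Rw_Tc m hm1] at h3
    have h4 := (hinv _ _ h3).1 (Or.inr ⟨rfl, rfl, by
      show Rw σ.1 (j + 2) (j + 1 + 1)
      rw [show (j : ℤ) + 1 + 1 = j + 2 by ring]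
      exact (Rw_equiv σ.1).refl _⟩)
    rcases h4 with h4 | h4
    · exact absurd h4.1 (by simp)
    · have h5 := h4.2.2
      unfold Jw
      rw [show (j : ℤ) + 2 + (m + 1) = j + 1 + (m + 1) + 1 by ring]
      exact h5
  constructor
  · intro a ha
    have hr : Rw σ.1 (j + 2) a := Jw_rel hev σ hj2 ha
    have e0 := hno0 a hr
    have e1 : cl C (a - 1) = true → col m (a - 1) = col m (j + 1) := by
      intro h3
      exact hno1 (a - 1) (by rw [sub_add_cancel]; exact hr) h3
    have e2 : col m a ≠ col m (j + 1) := by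
      intro h3
      have h4 := col_succ h3 (-1)
      rw [add_neg_cancel_right, ← sub_eq_add_neg] at h4
      have h5 : cl C (a - 1) = true := by rw [cl_congr h4, hC, cl_upd2_left hm1]
      exact hne ((e1 h5).symm.trans h4)
    refine ⟨?_, ?_⟩
    · rw [hD, cl_upd2_same (b' := true) e2]
      exact e0
    · by_cases h3 : col m (a - 1) = col m (j + 1)
      · rw [cl_congr h3, hD, cl_upd2_right]
      · rw [hD, cl_upd2_same (b' := true) h3]
        cases hcl : cl C (a - 1) with
        | false => rfl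
        | true => exact absurd (e1 hcl) h3
  · intro h3
    have h4 := (h3 _ hj2).2
    rw [show (j : ℤ) + 2 - 1 = j + 1 by ring, hC, cl_upd2_right] at h4
    exact absurd h4 (by simp)

theorem cl_mono (hm : 2 ≤ m) (σ : Wd (m + 1)) (j : ℕ)
    (c : Fin (m + 1) → Bool) (h : Cl m σ.1 (upd2 c j true true)) :
    Cl m σ.1 (upd2 c j true false) := by
  have hm1 : 1 ≤ m := by omega
  intro a ha
  obtain ⟨e1, e2⟩ := h a ha
  have e3 : col m a ≠ col m (j + 1) := by
    intro h3
    have h4 := col_succ h3 (-1)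
    rw [add_neg_cancel_right, ← sub_eq_add_neg] at h4
    rw [cl_congr h4, cl_upd2_left hm1] at e2
    exact absurd e2 (by simp)
  refine ⟨?_, ?_⟩
  · rw [cl_upd2_same (b' := true) e3]
    exact e1
  · by_cases h3 : col m (a - 1) = col m (j + 1)
    · rw [cl_congr h3, cl_upd2_right]
    · rw [cl_upd2_same (b' := true) h3]
      exact e2

theorem E_notmem (hm : 2 ≤ m) (v : Wd (m + 1)) (j : ℕ) {b : ℤ}
    (hb : Jw m (E m j v).1 b) : col m b ≠ col m (j + 1) := by
  intro h
  have h1 := (Jw_col (E m j v) h).1 hb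
  have := E_isol (by omega) v j h1
  omega

theorem E_keep' (hm : 2 ≤ m) (v : Wd (m + 1)) (j : ℕ) {a b : ℤ} (h : Rw v.1 a b)
    (ha : col m a ≠ col m (j + 1)) (hb : col m b ≠ col m (j + 1)) : Rw (E m j v).1 a b := by
  apply E_keep (by omega) v j h
  · intro k hk
    exact ha (col_eq_iff.2 ⟨k, hk⟩)
  · intro k hk
    exact hb (col_eq_iff.2 ⟨k, hk⟩)

theorem Jw_keep (hm : 2 ≤ m) (v : Wd (m + 1)) (j : ℕ) {a : ℤ} (h : Jw m v.1 a)
    (ha : col m a ≠ col m (j + 1)) : Jw m (E m j v).1 a := by
  apply E_keep' hm v j h ha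
  intro h'
  apply ha
  rw [← h', eq_comm, col_eq_iff]
  exact ⟨1, by ring⟩

theorem sing_E (hm : 2 ≤ m) (hev : m % 2 = 1) (v : Wd (m + 1)) (j : ℕ) (h : Sing m v.1 j) :
    Jw m (E m j v).1 j := by
  obtain ⟨a, ha⟩ := Jw_nonempty hev (E m j v)
  have ha1 := E_notmem hm v j ha
  have hnej : ∀ k : ℤ, col m (j + k * (m + 1)) = col m j := fun k => col_eq_iff.2 ⟨k, rfl⟩
  have hnej2 : ∀ k : ℤ, col m (j + 2 + k * (m + 1)) = col m (j + 2) :=
    fun k => col_eq_iff.2 ⟨k, rfl⟩
  have hn1 : col m (j : ℤ) ≠ col m (j + 1) := (col_ne_succ (by omega) (j : ℤ)).symm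
  have hn2 : col m ((j : ℤ) + 2) ≠ col m (j + 1) := by
    have := col_ne_succ (m := m) (by omega) ((j : ℤ) + 1)
    rwa [show (j : ℤ) + 1 + 1 = j + 2 by ring] at this
  by_contra hcon
  have k0 : ∀ k : ℤ, ¬ Rw v.1 a (j + k * (m + 1)) := by
    intro k hk
    apply hcon
    have h1 := E_keep' hm v j hk ha1 (by rw [hnej]; exact hn1)
    have h2 := (Jw_congr _ h1).1 ha
    exact (Jw_col _ (hnej k)).1 h2
  have k2 : ∀ k : ℤ, ¬ Rw v.1 a (j + 2 + k * (m + 1)) := by
    intro k hk
    apply hcon
    have h1 := E_keep' hm v j hk ha1 (by rw [hnej2]; exact hn2)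
    have h2 := (Jw_congr _ h1).1 ha
    have h3 := (Jw_col _ (hnej2 k)).1 h2
    exact (Jw_congr _ (E_join hm v j)).2 h3
  have h1 := E_closed (by omega) v j ha (fun x => Rw v.1 a x) (fun x y hxy =>
    ⟨fun h' => (Rw_equiv v.1).trans h' hxy, fun h' => (Rw_equiv v.1).trans h'
      ((Rw_equiv v.1).symm hxy)⟩) k0 k2 ((Rw_equiv v.1).refl _)
  exact ha1 ((h a).1 h1)

theorem nonsing (hm : 2 ≤ m) (hev : m % 2 = 1) (v : Wd (m + 1)) (j : ℕ)
    (h : ¬ Sing m v.1 j) {c : Fin (m + 1) → Bool} (hc0 : cl c j = false)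
    (hc1 : cl c (j + 1) = true) : Cl m (E m j v).1 c ↔ Cl m v.1 c := by
  have hn1 : col m (j : ℤ) ≠ col m (j + 1) := (col_ne_succ (by omega) (j : ℤ)).symm
  have hn2 : col m ((j : ℤ) + 2) ≠ col m (j + 1) := by
    have := col_ne_succ (m := m) (by omega) ((j : ℤ) + 1)
    rwa [show (j : ℤ) + 1 + 1 = j + 2 by ring] at this
  -- a face of the winding class other than `j+1`
  obtain ⟨a0, ha0, ha1⟩ : ∃ a0, Jw m v.1 a0 ∧ col m a0 ≠ col m (j + 1) := by
    by_contra hcon
    push Not at hcon
    apply h
    obtain ⟨a, ha⟩ := Jw_nonempty hev v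
    intro b
    constructor
    · exact hcon b
    · intro hb
      exact (Jw_col v (hb.trans (hcon a ha).symm)).2 ha
  by_cases hj : Jw m v.1 j ∨ Jw m v.1 (j + 2)
  · have e1 : ¬ Cl m v.1 c := by
      intro h3
      rcases hj with hj | hj
      · rw [(h3 _ hj).1] at hc0
        exact absurd hc0 (by simp)
      · have := (h3 _ hj).2
        rw [show (j : ℤ) + 2 - 1 = j + 1 by ring, hc1] at this
        exact absurd this (by simp)
    have e2 : ¬ Cl m (E m j v).1 c := by
      intro h3
      have hj' : Jw m (E m j v).1 j := by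
        rcases hj with hj | hj
        · exact Jw_keep hm v j hj hn1
        · exact (Jw_congr _ (E_join hm v j)).2 (Jw_keep hm v j hj hn2)
      rw [(h3 _ hj').1] at hc0
      exact absurd hc0 (by simp)
    exact ⟨fun h3 => absurd h3 e2, fun h3 => absurd h3 e1⟩
  · push Not at hj
    have key : ∀ b, Jw m (E m j v).1 b ↔ (Jw m v.1 b ∧ col m b ≠ col m (j + 1)) := by
      intro b
      constructor
      · intro hb
        refine ⟨?_, E_notmem hm v j hb⟩
        have h3 := Jw_rel hev _ (Jw_keep hm v j ha0 ha1) hb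
        refine E_closed (by omega) v j h3 (fun x => Jw m v.1 x) (fun x y hxy => Jw_congr v hxy)
          (fun k hk => hj.1 ?_) (fun k hk => hj.2 ?_) ha0
        · exact (Jw_shift_mul v _ k).1 hk
        · exact (Jw_shift_mul v _ k).1 hk
      · rintro ⟨h3, h4⟩
        exact Jw_keep hm v j h3 h4
    constructor
    · intro h3 a ha
      by_cases h4 : col m a = col m (j + 1)
      · refine ⟨by rw [cl_congr h4]; exact hc1, ?_⟩
        have h5 := col_succ h4 (-1)
        rw [add_neg_cancel_right, ← sub_eq_add_neg] at h5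
        rw [cl_congr h5]
        exact hc0
      · exact h3 a ((key a).2 ⟨ha, h4⟩)
    · intro h3 a ha
      exact h3 a ((key a).1 ha).1

open Classical in
/-- the local cancellation -/
theorem star2 {R : Type*} [CommRing R] (hm : 2 ≤ m) (hev : m % 2 = 1) (σ : Wd (m + 1)) (j : ℕ)
    (c' c : Fin (m + 1) → Bool) (hc0 : cl c j = false) (hc1 : cl c (j + 1) = true) :
    (if Cl m σ.1 (upd2 c' j true false) then (1 : R) else 0) +
      (if Cl m (Tc m (upd2 c' j true false) σ).1 c then 1 else 0) =
    (if Cl m σ.1 (upd2 c' j true true) then (1 : R) else 0) +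
      (if Cl m (Tc m (upd2 c' j true true) σ).1 c then 1 else 0) := by
  rw [← E_Tc11 hm]
  set v := Tc m (upd2 c' j true true) σ with hv
  by_cases hs : Sing m v.1 j
  · obtain ⟨h1, h2⟩ := sing_bwd hm hev σ j c' hs
    have h3 : Cl m v.1 c := by
      intro a ha
      have h4 := (hs a).1 ha
      refine ⟨by rw [cl_congr h4]; exact hc1, ?_⟩
      have h5 := col_succ h4 (-1)
      rw [add_neg_cancel_right, ← sub_eq_add_neg] at h5
      rw [cl_congr h5]
      exact hc0
    have h4 : ¬ Cl m (E m j v).1 c := by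
      intro h5
      have := (h5 _ (sing_E hm hev v j hs)).1
      rw [this] at hc0
      exact absurd hc0 (by simp)
    rw [if_pos h1, if_neg h2, if_neg h4, if_pos h3]
    ring
  · have h1 := nonsing hm hev v j hs hc0 hc1
    have h2 : Cl m σ.1 (upd2 c' j true false) ↔ Cl m σ.1 (upd2 c' j true true) := by
      constructor
      · intro h3
        by_contra h4
        exact hs (sing_fwd hm hev σ j c' h3 h4)
      · exact cl_mono hm σ j c'
    simp only [h1, h2]

end Pool.Agent.Helper21.WC
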