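import Pool.Agent.Helper21.WC.Lim

/-!
# The scaling limit of the law of the contacts: local limit theorem and distribution function
-/

namespace Pool.Agent.Helper21.WC

open Finset Filter Topology MeasureTheory

/-- the normalization `N^{2/3}`, `N = 2n+2` -/
noncomputable def cn (n : ℕ) : ℝ := (2 * (n : ℝ) + 2) ^ (2 / 3 : ℝ)

/-- the limit density -/
noncomputable def hd (s : ℝ) : ℝ := 3 / √Real.pi * √s * Real.exp (-s ^ 3)

theorem cn_pos (n : ℕ) : 0 < cn n := by
  unfold cn
  positivity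

theorem cn_cube (n : ℕ) : cn n ^ 3 = (2 * (n : ℝ) + 2) ^ 2 := by
  unfold cn
  rw [← Real.rpow_natCast, ← Real.rpow_mul (by positivity)]
  norm_num

theorem cn_ge (n : ℕ) : 1 ≤ cn n := by
  unfold cn
  apply Real.one_le_rpow _ (by norm_num)
  have : (0 : ℝ) ≤ n := Nat.cast_nonneg n
  linarith

theorem cn_sqrt (n : ℕ) : cn n * √(cn n) = 2 * (n : ℝ) + 2 := by
  have h1 := cn_cube n
  have h2 := cn_pos n
  have h3 : (cn n * √(cn n)) ^ 2 = (2 * (n : ℝ) + 2) ^ 2 := by
    rw [mul_pow, Real.sq_sqrt h2.le, ← h1]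
    ring
  exact (pow_left_inj₀ (by positivity) (by positivity) (by norm_num)).1 h3

theorem cn_tendsto : Tendsto cn atTop atTop := by
  unfold cn
  have h1 : Tendsto (fun n : ℕ => 2 * (n : ℝ) + 2) atTop atTop :=
    tendsto_atTop_add_const_right _ _
      (tendsto_natCast_atTop_atTop.const_mul_atTop (by norm_num : (0 : ℝ) < 2))
  exact (tendsto_rpow_atTop (by norm_num : (0 : ℝ) < 2 / 3)).comp h1

theorem Ac_ak (k : ℕ) : Ac k = 3 * k * ak k := by
  unfold Ac ak
  ring

theorem sqrt_div_cn (n k : ℕ) : √((k : ℝ) / cn n) = √k / √(cn n) :=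
  Real.sqrt_div (Nat.cast_nonneg k) _

/-- `c P = 3 √(k/c) (√k a_k) R` -/
theorem cP_eq {n k : ℕ} (hk : 1 ≤ k) : cn n * P (n + 1) k =
    3 * √((k : ℝ) / cn n) * (√k * ak k) * Rf (n + 1) k := by
  have h1 := cn_pos n
  have h2 := cn_sqrt n
  have h3 : 0 < √(cn n) := Real.sqrt_pos.2 h1
  have hk1 : (0 : ℝ) < k := by exact_mod_cast hk
  have h4 : √(k : ℝ) * √k = k := Real.mul_self_sqrt hk1.le
  have h5 : P (n + 1) k = Rf (n + 1) k * Ac k / (2 * n + 2) := by
    unfold Rf
    have := (Ac_pos hk).ne'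
    push_cast
    field_simp
  rw [h5, sqrt_div_cn, Ac_ak, ← h2]
  have h6 : 3 * (√(k : ℝ) / √(cn n)) * (√k * ak k) * Rf (n + 1) k =
      3 * (√(k : ℝ) * √k) * ak k * Rf (n + 1) k / √(cn n) := by
    field_simp
  rw [h6, h4]
  field_simp

theorem cP_upper {n k : ℕ} (hk : 1 ≤ k) : cn n * P (n + 1) k ≤ 4 * √((k : ℝ) / cn n) := by
  have h1 := cn_pos n
  have h2 := cn_sqrt n
  have h3 : 0 < √(cn n) := Real.sqrt_pos.2 h1
  have hk1 : (0 : ℝ) < k := by exact_mod_cast hk
  have h4 : √(k : ℝ) * √k = k := Real.mul_self_sqrt hk1.le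
  have h5 := P_upper (M := n + 1) (by omega) hk
  have h6 : 4 * ((n + 1 : ℕ) : ℝ) ^ 2 / (4 * ((n + 1 : ℕ) : ℝ) ^ 2 - 1) ≤ 4 / 3 := by
    have hn : (1 : ℝ) ≤ ((n + 1 : ℕ) : ℝ) := by exact_mod_cast (by omega : 1 ≤ n + 1)
    rw [div_le_div_iff₀ (by nlinarith) (by norm_num)]
    nlinarith
  have h7 : 2 * ((n + 1 : ℕ) : ℝ) * P (n + 1) k ≤ 4 * k * ak k := by
    refine h5.trans ?_
    refine (mul_le_mul_of_nonneg_left h6 (Ac_nonneg k)).trans ?_
    rw [Ac_ak]
    apply le_of_eq
    ring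
  have h8 : 2 * ((n + 1 : ℕ) : ℝ) = cn n * √(cn n) := by
    rw [h2]; push_cast; ring
  rw [h8] at h7
  rw [sqrt_div_cn, ← mul_div_assoc, le_div_iff₀ h3]
  have h9 := ak_bound k
  calc cn n * P (n + 1) k * √(cn n) = cn n * √(cn n) * P (n + 1) k := by ring
    _ ≤ 4 * k * ak k := h7
    _ = 4 * (√k * (√k * ak k)) := by rw [← mul_assoc √(k : ℝ), h4]; ring
    _ ≤ 4 * (√k * 1) := by
        apply mul_le_mul_of_nonneg_left _ (by norm_num)
        exact mul_le_mul_of_nonneg_left h9 (Real.sqrt_nonneg _)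
    _ = 4 * √k := by ring

/-- **the local limit theorem** -/
theorem llt {kk : ℕ → ℕ} {s : ℝ} (h : Tendsto (fun n => (kk n : ℝ) / cn n) atTop (𝓝 s)) :
    Tendsto (fun n => cn n * P (n + 1) (kk n)) atTop (𝓝 (hd s)) := by
  have hs : 0 ≤ s := ge_of_tendsto' h fun n => div_nonneg (Nat.cast_nonneg _) (cn_pos n).le
  rcases hs.eq_or_lt with hs0 | hs0
  · -- the case `s = 0`
    rw [← hs0] at h ⊢
    have e : hd 0 = 0 := by unfold hd; simp
    rw [e]
    have h1 : Tendsto (fun n => 4 * √((kk n : ℝ) / cn n)) atTop (𝓝 0) := by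
      have := ((Real.continuous_sqrt.tendsto 0).comp h).const_mul 4
      simpa using this
    refine squeeze_zero (fun n => mul_nonneg (cn_pos n).le (P_nonneg _ _)) (fun n => ?_) h1
    rcases Nat.eq_zero_or_pos (kk n) with hk | hk
    · rw [hk, P_zero]
      simp
    · exact cP_upper hk
  · -- the case `0 < s`
    have hk : Tendsto kk atTop atTop := by
      have h1 : Tendsto (fun n => ((kk n : ℝ) / cn n) * cn n) atTop atTop :=
        h.pos_mul_atTop hs0 cn_tendsto
      have h2 : (fun n => ((kk n : ℝ) / cn n) * cn n) = fun n => (kk n : ℝ) := by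
        funext n
        exact div_mul_cancel₀ _ (cn_pos n).ne'
      rw [h2] at h1
      exact tendsto_natCast_atTop_iff.1 h1
    have hinv : Tendsto (fun n => (cn n)⁻¹) atTop (𝓝 0) := tendsto_inv_atTop_zero.comp cn_tendsto
    -- the logarithm of the correction factor
    have hR : Tendsto (fun n => Rf (n + 1) (kk n)) atTop (𝓝 (Real.exp (-s ^ 3))) := by
      have hev1 : ∀ᶠ n in atTop, 1 ≤ kk n := hk.eventually (eventually_ge_atTop 1)
      have hev2 : ∀ᶠ n in atTop, 2 * kk n ≤ n + 1 + 2 := by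
        -- `kk n ≤ (s+1) c ≤ (n+1)/2`
        have h3 : Tendsto (fun n => ((kk n : ℝ) / cn n) * (√(cn n))⁻¹) atTop (𝓝 0) := by
          have h4 : Tendsto (fun n => (√(cn n))⁻¹) atTop (𝓝 0) :=
            tendsto_inv_atTop_zero.comp (Real.tendsto_sqrt_atTop.comp cn_tendsto)
          have := h.mul h4
          rwa [mul_zero] at this
        have h5 : ∀ᶠ n in atTop, ((kk n : ℝ) / cn n) * (√(cn n))⁻¹ < 1 / 4 :=
          h3.eventually_lt_const (by norm_num)
        filter_upwards [h5] with n hn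
        have h6 := cn_pos n
        have h7 : 0 < √(cn n) := Real.sqrt_pos.2 h6
        have h8 : ((kk n : ℝ) / cn n) * (√(cn n))⁻¹ = kk n / (2 * n + 2) := by
          rw [← cn_sqrt n]
          field_simp
        rw [h8, div_lt_iff₀ (by positivity)] at hn
        have h9 : 2 * (kk n : ℝ) ≤ n + 1 + 2 := by linarith
        exact_mod_cast h9
      have hlog : Tendsto (fun n => Real.log (Rf (n + 1) (kk n)) + ((kk n : ℝ) / cn n) ^ 3) atTop
          (𝓝 0) := by
        have hb : Tendsto (fun n => 4 * ((kk n : ℝ) / cn n) ^ 2 * (cn n)⁻¹ +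
            16 * ((kk n : ℝ) / cn n) ^ 5 * (cn n)⁻¹) atTop (𝓝 0) := by
          have := (((h.pow 2).const_mul 4).mul hinv).add (((h.pow 5).const_mul 16).mul hinv)
          simpa using this
        apply squeeze_zero_norm' _ hb
        filter_upwards [hev1, hev2] with n h1 h2
        have h3 := (Rf_bounds (M := n + 1) (by omega) h1 h2).2
        have hc := cn_pos n
        have h4 : (4 * ((n + 1 : ℕ) : ℝ) ^ 2) = cn n ^ 3 := by
          rw [cn_cube]; push_cast; ring
        have h4' : (((n + 1 : ℕ) : ℝ) ^ 2) = cn n ^ 3 / 4 := by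
          rw [← h4]; ring
        have h4'' : (((n + 1 : ℕ) : ℝ) ^ 4) = cn n ^ 6 / 16 := by
          calc (((n + 1 : ℕ) : ℝ) ^ 4) = (((n + 1 : ℕ) : ℝ) ^ 2) ^ 2 := by ring
            _ = _ := by rw [h4']; ring
        rw [h4, h4', h4''] at h3
        rw [Real.norm_eq_abs]
        have e1 : ((kk n : ℝ) / cn n) ^ 3 = (kk n : ℝ) ^ 3 / cn n ^ 3 := by rw [div_pow]
        have e2 : 4 * ((kk n : ℝ) / cn n) ^ 2 * (cn n)⁻¹ = (kk n : ℝ) ^ 2 / (cn n ^ 3 / 4) := by
          field_simp
        have e3 : 16 * ((kk n : ℝ) / cn n) ^ 5 * (cn n)⁻¹ = (kk n : ℝ) ^ 5 / (cn n ^ 6 / 16) := by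
          field_simp
        rw [e1, e2, e3]
        exact h3
      have h1 : Tendsto (fun n => Real.log (Rf (n + 1) (kk n))) atTop (𝓝 (-s ^ 3)) := by
        have := hlog.sub (h.pow 3)
        rw [zero_sub] at this
        refine this.congr fun n => ?_
        ring
      have h2 := (Real.continuous_exp.tendsto _).comp h1
      refine h2.congr' ?_
      filter_upwards [hev1, hev2] with n h1 h2
      exact Real.exp_log (Rf_bounds (M := n + 1) (by omega) h1 h2).1
    have hA : Tendsto (fun n => √(kk n : ℝ) * ak (kk n)) atTop (𝓝 (1 / √Real.pi)) :=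
      ak_lim.comp hk
    have hS : Tendsto (fun n => √((kk n : ℝ) / cn n)) atTop (𝓝 √s) :=
      (Real.continuous_sqrt.tendsto _).comp h
    have hall := ((hS.const_mul 3).mul hA).mul hR
    have e : hd s = 3 * √s * (1 / √Real.pi) * Real.exp (-s ^ 3) := by
      unfold hd
      ring
    rw [e]
    refine hall.congr' ?_
    filter_upwards [hk.eventually (eventually_ge_atTop 1)] with n hn
    exact (cP_eq hn).symm

/-! ### the distribution function -/

/-- the step function -/
noncomputable def stf (n : ℕ) (s : ℝ) : ℝ := cn n * P (n + 1) ⌈s * cn n⌉₊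

theorem stf_meas (n : ℕ) : Measurable (stf n) := by
  unfold stf
  have h1 : Measurable (fun s : ℝ => ⌈s * cn n⌉₊) :=
    Nat.measurable_ceil.comp (measurable_id.mul_const _)
  exact ((measurable_from_nat (f := fun k => P (n + 1) k)).comp h1).const_mul _

theorem stf_nonneg (n : ℕ) (s : ℝ) : 0 ≤ stf n s := mul_nonneg (cn_pos n).le (P_nonneg _ _)

theorem stf_bound (n : ℕ) {s x : ℝ} (h0 : 0 ≤ s) (hx : s ≤ x) : stf n s ≤ 4 * √(x + 1) := by
  unfold stf
  rcases Nat.eq_zero_or_pos ⌈s * cn n⌉₊ with h | h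
  · rw [h, P_zero, mul_zero]
    positivity
  · refine (cP_upper h).trans ?_
    apply mul_le_mul_of_nonneg_left _ (by norm_num)
    apply Real.sqrt_le_sqrt
    rw [div_le_iff₀ (cn_pos n)]
    have h1 := Nat.ceil_lt_add_one (mul_nonneg h0 (cn_pos n).le)
    have h2 := cn_ge n
    nlinarith [mul_le_mul_of_nonneg_right hx (cn_pos n).le]

theorem stf_lim {s : ℝ} (h0 : 0 ≤ s) : Tendsto (fun n => stf n s) atTop (𝓝 (hd s)) := by
  unfold stf
  apply llt
  have h1 : Tendsto (fun n => s + (cn n)⁻¹) atTop (𝓝 s) := by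
    have := (tendsto_inv_atTop_zero.comp cn_tendsto).const_add s
    simpa using this
  refine tendsto_of_tendsto_of_tendsto_of_le_of_le tendsto_const_nhds h1 (fun n => ?_) fun n => ?_
  · show s ≤ _
    rw [le_div_iff₀ (cn_pos n)]
    exact Nat.le_ceil _
  · show _ ≤ s + (cn n)⁻¹
    rw [div_le_iff₀ (cn_pos n), add_mul, inv_mul_cancel₀ (cn_pos n).ne']
    exact (Nat.ceil_lt_add_one (mul_nonneg h0 (cn_pos n).le)).le

theorem P_le_one (n k : ℕ) : P (n + 1) k ≤ 1 := by
  rcases Nat.lt_or_ge (n + 1) k with h | h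
  · rw [P_big h]
    exact zero_le_one
  · rw [← P_sum (M := n + 1) (by omega)]
    exact Finset.single_le_sum (f := fun k => P (n + 1) k) (fun k _ => P_nonneg _ k)
      (Finset.mem_range.2 (by omega))

theorem stf_int (n : ℕ) (a b : ℝ) : IntervalIntegrable (stf n) volume a b := by
  have hb : ∀ s, ‖stf n s‖ ≤ cn n * 1 := by
    intro s
    rw [Real.norm_of_nonneg (stf_nonneg n s)]
    unfold stf
    apply mul_le_mul_of_nonneg_left _ (cn_pos n).le
    exact P_le_one _ _
  exact (intervalIntegrable_const (c := cn n * 1)).mono_fun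
    (stf_meas n).aestronglyMeasurable (Filter.Eventually.of_forall fun s => by
      rw [Real.norm_of_nonneg (mul_nonneg (cn_pos n).le zero_le_one)]
      exact hb s)

theorem stf_piece (n k : ℕ) :
    ∫ s in ((k : ℝ) / cn n)..(((k + 1 : ℕ) : ℝ) / cn n), stf n s = P (n + 1) (k + 1) := by
  have hc := cn_pos n
  have h1 : ∫ s in ((k : ℝ) / cn n)..(((k + 1 : ℕ) : ℝ) / cn n), stf n s =
      ∫ _ in ((k : ℝ) / cn n)..(((k + 1 : ℕ) : ℝ) / cn n), cn n * P (n + 1) (k + 1) := by
    apply intervalIntegral.integral_congr_ae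
    refine Filter.Eventually.of_forall fun s hs => ?_
    have hle : ((k : ℝ) / cn n) ≤ (((k + 1 : ℕ) : ℝ) / cn n) := by
      apply div_le_div_of_nonneg_right _ hc.le
      exact_mod_cast Nat.le_succ k
    rw [Set.uIoc_of_le hle] at hs
    obtain ⟨h2, h3⟩ := hs
    unfold stf
    rw [div_lt_iff₀ hc] at h2
    rw [le_div_iff₀ hc] at h3
    have : ⌈s * cn n⌉₊ = k + 1 := by
      rw [Nat.ceil_eq_iff (by omega)]
      exact ⟨by simpa using h2, h3⟩
    rw [this]
  rw [h1, intervalIntegral.integral_const, smul_eq_mul]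
  push_cast
  field_simp
  ring

theorem stf_sum (n K : ℕ) : ∫ s in (0 : ℝ)..((K : ℝ) / cn n), stf n s =
    ∑ k ∈ range (K + 1), P (n + 1) k := by
  have h := intervalIntegral.sum_integral_adjacent_intervals (f := stf n) (μ := volume)
    (a := fun k : ℕ => (k : ℝ) / cn n) (n := K) (fun k _ => stf_int n _ _)
  rw [Finset.sum_congr rfl (fun k _ => stf_piece n k)] at h
  simp only [Nat.cast_zero, zero_div] at h
  rw [← h, Finset.sum_range_succ', P_zero, add_zero]

/-- **the convergence of the distribution functions** -/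
theorem cdf_lim {x : ℝ} (hx : 0 ≤ x) :
    Tendsto (fun n => ∑ k ∈ range (⌊x * cn n⌋₊ + 1), P (n + 1) k) atTop
      (𝓝 (∫ s in (0 : ℝ)..x, hd s)) := by
  have h1 : Tendsto (fun n => ∫ s in (0 : ℝ)..x, stf n s) atTop (𝓝 (∫ s in (0 : ℝ)..x, hd s)) := by
    apply intervalIntegral.tendsto_integral_filter_of_dominated_convergence
      (fun _ => 4 * √(x + 1))
    · exact Filter.Eventually.of_forall fun n => (stf_meas n).aestronglyMeasurable
    · refine Filter.Eventually.of_forall fun n => Filter.Eventually.of_forall fun s hs => ?_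
      rw [Set.uIoc_of_le hx] at hs
      rw [Real.norm_of_nonneg (stf_nonneg n s)]
      exact stf_bound n hs.1.le hs.2
    · exact intervalIntegrable_const
    · refine Filter.Eventually.of_forall fun s hs => ?_
      rw [Set.uIoc_of_le hx] at hs
      exact stf_lim hs.1.le
  -- the remaining piece
  have h2 : Tendsto (fun n => ∫ s in ((⌊x * cn n⌋₊ : ℝ) / cn n)..x, stf n s) atTop (𝓝 0) := by
    have hb : Tendsto (fun n => (4 * √(x + 1)) * (cn n)⁻¹) atTop (𝓝 0) := by
      have := (tendsto_inv_atTop_zero.comp cn_tendsto).const_mul (4 * √(x + 1))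
      simpa using this
    apply squeeze_zero_norm _ hb
    intro n
    have hc := cn_pos n
    have hfl : ((⌊x * cn n⌋₊ : ℝ) / cn n) ≤ x := by
      rw [div_le_iff₀ hc]
      exact Nat.floor_le (mul_nonneg hx hc.le)
    have hfl2 : x - ((⌊x * cn n⌋₊ : ℝ) / cn n) ≤ (cn n)⁻¹ := by
      rw [sub_le_iff_le_add, ← mul_le_mul_iff_left₀ hc, add_mul, inv_mul_cancel₀ hc.ne',
        div_mul_cancel₀ _ hc.ne']
      have := (Nat.lt_floor_add_one (x * cn n)).le
      linarith
    have h3 := intervalIntegral.norm_integral_le_of_norm_le_const (f := stf n)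
      (a := ((⌊x * cn n⌋₊ : ℝ) / cn n)) (b := x) (C := 4 * √(x + 1)) (fun s hs => by
        rw [Set.uIoc_of_le hfl] at hs
        rw [Real.norm_of_nonneg (stf_nonneg n s)]
        exact stf_bound n (le_trans (by positivity) hs.1.le) hs.2)
    refine h3.trans ?_
    rw [abs_of_nonneg (by linarith)]
    exact mul_le_mul_of_nonneg_left hfl2 (by positivity)
  have h4 := h1.sub h2
  rw [sub_zero] at h4
  refine h4.congr fun n => ?_
  rw [← stf_sum, eq_comm, eq_sub_iff_add_eq]
  exact intervalIntegral.integral_add_adjacent_intervals (stf_int n _ _) (stf_int n _ _)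

end Pool.Agent.Helper21.WC
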