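import Pool.Agent.Helper21.WC.Can
import Pool.Agent.Helper21.WC.Abs

/-!
# The generating identity for the number of faces of the winding class
-/

namespace Pool.Agent.Helper21.WC

open Pool.Agent.H863R2.Cyl Pool.Agent.H863R2.Cyl.Sem1Aux Relation
open Pool.Agent.H988R2.Perc (Word)
open Pool.Agent.Helper21.EV (col cl_col)

variable {m : ℕ}

open Classical in
/-- the number of faces of the winding class -/
noncomputable def mn (m : ℕ) (w : Word) : ℕ :=
  (Finset.univ.filter (fun i : Fin (m + 1) => Jw m w (i.val : ℤ))).card

open Classical in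
/-- the faces of the winding class -/
noncomputable def Af (m : ℕ) (w : Word) : Finset (Fin (m + 1)) :=
  Finset.univ.filter (fun i : Fin (m + 1) => Jw m w (i.val : ℤ))

open Classical in
/-- the squares to the left of the faces of the winding class -/
noncomputable def Bf (m : ℕ) (w : Word) : Finset (Fin (m + 1)) :=
  Finset.univ.filter (fun i : Fin (m + 1) => Jw m w ((i.val : ℤ) + 1))

theorem col_val (i : Fin (m + 1)) : col m (i.val : ℤ) = i := by
  rw [col_nat]
  apply Fin.ext
  exact Nat.mod_eq_of_lt i.2

theorem col_self (a : ℤ) : col m ((col m a).val : ℤ) = col m a := col_val _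

theorem mem_Af (τ : Wd (m + 1)) (a : ℤ) : col m a ∈ Af m τ.1 ↔ Jw m τ.1 a := by
  classical
  unfold Af
  rw [Finset.mem_filter]
  simp only [Finset.mem_univ, true_and]
  exact Jw_col τ (col_self a)

theorem mem_Bf (τ : Wd (m + 1)) (a : ℤ) : col m a ∈ Bf m τ.1 ↔ Jw m τ.1 (a + 1) := by
  classical
  unfold Bf
  rw [Finset.mem_filter]
  simp only [Finset.mem_univ, true_and]
  exact Jw_col τ (col_succ (col_self a) 1)

theorem card_Bf (τ : Wd (m + 1)) : (Bf m τ.1).card = (Af m τ.1).card := by
  refine Finset.card_nbij' (fun i => col m ((i.val : ℤ) + 1)) (fun i => col m ((i.val : ℤ) - 1))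
    ?_ ?_ ?_ ?_
  · intro i hi
    have hi' : i ∈ Bf m τ.1 := hi
    show col m ((i.val : ℤ) + 1) ∈ Af m τ.1
    rw [mem_Af]
    rw [← col_val i, mem_Bf] at hi'
    exact hi'
  · intro i hi
    have hi' : i ∈ Af m τ.1 := hi
    show col m ((i.val : ℤ) - 1) ∈ Bf m τ.1
    rw [mem_Bf, sub_add_cancel]
    rw [← col_val i, mem_Af] at hi'
    exact hi'
  · intro i hi
    show col m (((col m ((i.val : ℤ) + 1)).val : ℤ) - 1) = i
    rw [sub_eq_add_neg, col_succ (col_self ((i.val : ℤ) + 1)) (-1), add_neg_cancel_right, col_val]
  · intro i hi
    show col m (((col m ((i.val : ℤ) - 1)).val : ℤ) + 1) = i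
    rw [col_succ (col_self ((i.val : ℤ) - 1)) 1, sub_add_cancel, col_val]

theorem disj_AB (hev : m % 2 = 1) (τ : Wd (m + 1)) : Disjoint (Af m τ.1) (Bf m τ.1) := by
  rw [Finset.disjoint_left]
  intro i h1 h2
  rw [← col_val i, mem_Af] at h1
  rw [← col_val i, mem_Bf] at h2
  exact Jw_not_adj hev τ h1 h2

theorem Cl_iff (τ : Wd (m + 1)) (c : Fin (m + 1) → Bool) : Cl m τ.1 c ↔
    (∀ i ∈ Af m τ.1, c i = true) ∧ (∀ i ∈ Bf m τ.1, c i = false) := by
  constructor
  · intro h
    constructor
    · intro i hi
      rw [← col_val i, mem_Af] at hi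
      have := (h _ hi).1
      rwa [cl_col, col_val] at this
    · intro i hi
      rw [← col_val i, mem_Bf] at hi
      have := (h _ hi).2
      rwa [add_sub_cancel_right, cl_col, col_val] at this
  · rintro ⟨h1, h2⟩ a ha
    constructor
    · rw [cl_col]
      exact h1 _ ((mem_Af τ a).2 ha)
    · rw [cl_col]
      exact h2 _ ((mem_Bf τ (a - 1)).2 (by rwa [sub_add_cancel]))

theorem mn_eq (w : Word) : mn m w = (Af m w).card := rfl

open Classical in
/-- the total weight of the rows which close the winding class -/
theorem sum_Cl {R : Type*} [CommRing R] (hev : m % 2 = 1) (τ : Wd (m + 1)) (x y : R) :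
    ∑ c : Fin (m + 1) → Bool, (∏ j, (if c j = true then x else y)) *
      (if Cl m τ.1 c then 1 else 0) =
      (x * y) ^ mn m τ.1 * (x + y) ^ (m + 1 - 2 * mn m τ.1) := by
  have h := sum_prescribed (Af m τ.1) (Bf m τ.1) (disj_AB hev τ) x y
  rw [card_Bf] at h
  simp only [Cl_iff]
  rw [mn_eq, mul_pow, two_mul]
  exact h

theorem mn_pos (hev : m % 2 = 1) (τ : Wd (m + 1)) : 1 ≤ mn m τ.1 := by
  rw [mn_eq, Nat.one_le_iff_ne_zero, ne_eq, Finset.card_eq_zero]
  intro h
  obtain ⟨a, ha⟩ := Jw_nonempty hev τ
  have := (mem_Af τ a).2 ha
  rw [h] at this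
  exact absurd this (Finset.notMem_empty _)

theorem mn_le (hev : m % 2 = 1) (τ : Wd (m + 1)) : 2 * mn m τ.1 ≤ m + 1 := by
  have h := Finset.card_union_of_disjoint (disj_AB hev τ)
  rw [card_Bf] at h
  have h2 := Finset.card_le_univ (Af m τ.1 ∪ Bf m τ.1)
  rw [Fintype.card_fin, h] at h2
  rw [mn_eq]
  omega

open Classical in
/-- the column weights -/
def cw {R : Type*} [CommRing R] (p : R) (x : Bool × Bool) : R :=
  (if x.1 = true then 1 else -p) * (if x.2 = true then p else 1 - p)

open Classical in
/-- **the generating identity** -/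
theorem inv_dvd {R : Type*} [CommRing R] (hm : 2 ≤ m) (hev : m % 2 = 1) (σ : Wd (m + 1)) (p : R) :
    p ^ (m + 1) ∣ (-p) ^ mn m σ.1 * (1 - p) ^ (m + 1 - 2 * mn m σ.1) +
      ∑ c' : Fin (m + 1) → Bool, (∏ j, (if c' j = true then (1 : R) else -p)) *
        (p * (1 - p)) ^ mn m (Tc m c' σ).1 := by
  have hm1 : 1 ≤ m := by omega
  set K : (Fin (m + 1) → Bool × Bool) → R := fun s =>
    (if Cl m σ.1 (fun j => (s j).1) then (1 : R) else 0) +
      (if Cl m (Tc m (fun j => (s j).1) σ).1 (fun j => (s j).2) then 1 else 0) with hK
  have hcanc : p ^ (m + 1) ∣ ∑ s : Fin (m + 1) → Bool × Bool, (∏ j, cw p (s j)) * K s := by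
    refine abs_cancel (z := (true, false)) (x0 := (false, false)) (by simp) (cw p) p ?_ ?_ K ?_
      (fun i => i + 1) (fun Z h1 h2 => cyc_closed Z h1 h2) ?_
    · have : (Finset.univ : Finset (Bool × Bool)).erase (true, false) =
          {(true, true), (false, true), (false, false)} := by decide
      rw [this, Finset.sum_insert (by decide), Finset.sum_insert (by decide),
        Finset.sum_singleton]
      simp only [cw, if_true, Bool.false_eq_true, if_false]
      ring
    · rintro ⟨a, b⟩ hx
      cases a <;> cases b
      · exact ⟨-(1 - p), by simp only [cw, Bool.false_eq_true, if_false]; ring⟩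
      · exact ⟨-p, by simp only [cw, Bool.false_eq_true, if_false, if_true]; ring⟩
      · exact absurd rfl hx
      · exact ⟨1, by simp only [cw, if_true]; ring⟩
    · simp only [hK]
      rw [if_neg, if_neg]
      · ring
      · intro h
        obtain ⟨a, ha⟩ := Jw_nonempty hev (Tc m (fun _ => true) σ)
        have := (h a ha).1
        exact absurd this (by simp [cl])
      · intro h
        obtain ⟨a, ha⟩ := Jw_nonempty hev σ
        have := (h a ha).2
        exact absurd this (by simp [cl])
    · intro i s x y hi _ hx hy
      set j : ℕ := i.val with hj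
      have hij : i = ix m j := by
        apply Fin.ext
        exact (Nat.mod_eq_of_lt i.2).symm
      have hij1 : i + 1 = ix m (j + 1) := by
        apply Fin.ext
        rw [Fin.val_add, Fin.val_one', hj]
        simp only [ix]
        rw [Nat.add_mod i.val 1 (m + 1), Nat.mod_eq_of_lt i.2]
      have hne : ix m (j + 1) ≠ ix m j := ix_ne (by omega) (by omega)
      have hk : (((j + 1 : ℕ) : ℤ)) = (j : ℤ) + 1 := by push_cast; rfl
      have hkey : ∀ a b : Bool, K (Function.update s (i + 1) (a, b)) =
          (if Cl m σ.1 (upd2 (fun j => (s j).1) j true a) then (1 : R) else 0) +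
          (if Cl m (Tc m (upd2 (fun j => (s j).1) j true a) σ).1
            (Function.update (fun j => (s j).2) (ix m (j + 1)) b) then 1 else 0) := by
        intro a b
        have e1 : (fun l => (Function.update s (i + 1) (a, b) l).1) =
            upd2 (fun j => (s j).1) j true a := by
          funext l
          unfold upd2
          rw [hij1]
          by_cases hl : l = ix m (j + 1)
          · subst hl
            simp
          · rw [Function.update_of_ne hl, Function.update_of_ne hl]
            by_cases hl2 : l = ix m j
            · rw [hl2, Function.update_self, ← hij, hi]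
            · rw [Function.update_of_ne hl2]
        have e2 : (fun l => (Function.update s (i + 1) (a, b) l).2) =
            Function.update (fun j => (s j).2) (ix m (j + 1)) b := by
          funext l
          rw [hij1]
          by_cases hl : l = ix m (j + 1)
          · subst hl
            simp
          · rw [Function.update_of_ne hl, Function.update_of_ne hl]
        simp only [hK]
        rw [e1, e2]
      -- `FF = FT`
      have s1 : K (Function.update s (i + 1) (false, false)) =
          K (Function.update s (i + 1) (false, true)) := by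
        rw [hkey, hkey]
        congr 1
        have hτ : E m j (Tc m (upd2 (fun j => (s j).1) j true false) σ) =
            Tc m (upd2 (fun j => (s j).1) j true false) σ := E_Tc10 hm j _ σ
        have hc : ∀ b, cl (Function.update (fun j => (s j).2) (ix m (j + 1)) b) j = false := by
          intro b
          rw [cl_col, col_nat, Function.update_of_ne hne.symm, ← hij, hi]
        have hcd : ∀ b b' (x : ℤ), col m x ≠ col m (j + 1) →
            cl (Function.update (fun j => (s j).2) (ix m (j + 1)) b) x =
            cl (Function.update (fun j => (s j).2) (ix m (j + 1)) b') x := by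
          intro b b' x hx
          rw [← hk, col_nat] at hx
          rw [cl_col, cl_col, Function.update_of_ne hx, Function.update_of_ne hx]
        have hiff : Cl m (Tc m (upd2 (fun j => (s j).1) j true false) σ).1
              (Function.update (fun j => (s j).2) (ix m (j + 1)) false) ↔
            Cl m (Tc m (upd2 (fun j => (s j).1) j true false) σ).1
              (Function.update (fun j => (s j).2) (ix m (j + 1)) true) :=
          ⟨star1 hm hev _ j hτ (hc _) (hcd _ _), star1 hm hev _ j hτ (hc _) (hcd _ _)⟩
        simp only [hiff]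
      -- `FT = TT`
      have s2 : K (Function.update s (i + 1) (false, true)) =
          K (Function.update s (i + 1) (true, true)) := by
        rw [hkey, hkey]
        apply star2 hm hev
        · rw [cl_col, col_nat, Function.update_of_ne hne.symm, ← hij, hi]
        · rw [cl_col, ← hk, col_nat, Function.update_self]
      have hall : ∀ z : Bool × Bool, z ≠ (true, false) → K (Function.update s (i + 1) z) =
          K (Function.update s (i + 1) (false, true)) := by
        rintro ⟨a, b⟩ hz
        cases a <;> cases b
        · exact s1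
        · rfl
        · exact absurd rfl hz
        · exact s2.symm
      rw [hall x hx, hall y hy]
  have hsum : ∑ s : Fin (m + 1) → Bool × Bool, (∏ j, cw p (s j)) * K s =
      (-p) ^ mn m σ.1 * (1 - p) ^ (m + 1 - 2 * mn m σ.1) +
      ∑ c' : Fin (m + 1) → Bool, (∏ j, (if c' j = true then (1 : R) else -p)) *
        (p * (1 - p)) ^ mn m (Tc m c' σ).1 := by
    rw [← (Equiv.arrowProdEquivProdArrow (Fin (m + 1)) (fun _ => Bool) (fun _ => Bool)).symm.sum_comp,
      Fintype.sum_prod_type]
    have e1 : ∀ c' c : Fin (m + 1) → Bool,
        (∏ j, cw p ((Equiv.arrowProdEquivProdArrow (Fin (m + 1)) (fun _ => Bool)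
          (fun _ => Bool)).symm (c', c) j)) *
        K ((Equiv.arrowProdEquivProdArrow (Fin (m + 1)) (fun _ => Bool)
          (fun _ => Bool)).symm (c', c)) =
        (∏ j, (if c' j = true then (1 : R) else -p)) * (if Cl m σ.1 c' then 1 else 0) *
          ((∏ j, (if c j = true then p else 1 - p)) * 1) +
        (∏ j, (if c' j = true then (1 : R) else -p)) *
          ((∏ j, (if c j = true then p else 1 - p)) *
            (if Cl m (Tc m c' σ).1 c then 1 else 0)) := by
      intro c' c
      have : (∏ j, cw p ((Equiv.arrowProdEquivProdArrow (Fin (m + 1)) (fun _ => Bool)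
          (fun _ => Bool)).symm (c', c) j)) =
          (∏ j, (if c' j = true then (1 : R) else -p)) *
          (∏ j, (if c j = true then p else 1 - p)) := by
        rw [← Finset.prod_mul_distrib]
        rfl
      rw [this]
      show _ * ((if Cl m σ.1 c' then (1 : R) else 0) +
        (if Cl m (Tc m c' σ).1 c then 1 else 0)) = _
      ring
    simp only [e1]
    simp only [Finset.sum_add_distrib, ← Finset.mul_sum, ← Finset.sum_mul]
    congr 1
    · have h1 := sum_prescribed (N := m + 1) ∅ ∅ (by simp) p (1 - p)
      simp only [Finset.notMem_empty, false_imp_iff, implies_true, and_self, if_true, mul_one,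
        Finset.card_empty, pow_zero, add_zero, add_sub_cancel, one_pow] at h1
      simp only [mul_one]
      rw [h1, mul_one, sum_Cl hev, one_mul, ← sub_eq_add_neg]
    · refine Finset.sum_congr rfl fun c' _ => ?_
      rw [sum_Cl hev]
      congr 1
      rw [add_sub_cancel, one_pow, mul_one]
  rw [← hsum]
  exact hcanc

end Pool.Agent.Helper21.WC
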