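import Pool.Agent.Helper21.WC.Alg

/-!
# The numbers `P M k` and the system of linear equations which characterizes them
-/

namespace Pool.Agent.Helper21.WC

open Finset

/-- the law of the number of contacts -/
noncomputable def P (M k : ℕ) : ℝ :=
  if k ≤ M then 3 * M * k * (k.centralBinom : ℝ) * ((M + k - 1).factorial : ℝ) *
    ((2 * M - k - 1).factorial : ℝ) / (((M - k).factorial : ℝ) * ((2 * M + k).factorial : ℝ))
  else 0

theorem P_zero (M : ℕ) : P M 0 = 0 := by
  unfold P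
  simp

theorem P_big {M k : ℕ} (h : M < k) : P M k = 0 := by
  unfold P
  rw [if_neg (by omega)]

theorem P_nonneg (M k : ℕ) : 0 ≤ P M k := by
  unfold P
  split_ifs
  · positivity
  · exact le_refl _

theorem P_self_pos {M : ℕ} (h : 1 ≤ M) : 0 < P M M := by
  unfold P
  rw [if_pos le_rfl]
  have h1 : (0 : ℝ) < M := by exact_mod_cast h
  have h2 : (0 : ℝ) < (M.centralBinom : ℝ) := by exact_mod_cast Nat.centralBinom_pos M
  positivity

theorem cb_succ (k : ℕ) : ((k + 1).centralBinom : ℝ) * (k + 1) = 2 * (2 * k + 1) * k.centralBinom := by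
  have h := Nat.succ_mul_centralBinom_succ k
  have : (((k + 1) * (k + 1).centralBinom : ℕ) : ℝ) = ((2 * (2 * k + 1) * k.centralBinom : ℕ) : ℝ) := by
    rw [h]
  push_cast at this
  linarith

theorem fac_succ (n : ℕ) : ((n + 1).factorial : ℝ) = (n + 1) * n.factorial := by
  rw [Nat.factorial_succ]; push_cast; ring

theorem P_ratio {M k : ℕ} (h1 : 1 ≤ k) (h2 : k ≤ M) :
    P M (k + 1) * (k * (4 * (M : ℝ) ^ 2 - (k + 1) ^ 2)) =
      P M k * (2 * (2 * k + 1) * ((M : ℝ) ^ 2 - k ^ 2)) := by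
  rcases Nat.eq_or_lt_of_le h2 with h | h
  · rw [P_big (by omega), h]
    ring
  · obtain ⟨d, rfl⟩ : ∃ d, M = k + 1 + d := ⟨M - k - 1, by omega⟩
    unfold P
    rw [if_pos (by omega), if_pos (by omega)]
    rw [show k + 1 + d + (k + 1) - 1 = (2 * k + d) + 1 by omega,
      show 2 * (k + 1 + d) - (k + 1) - 1 = k + 2 * d by omega,
      show k + 1 + d - (k + 1) = d by omega,
      show 2 * (k + 1 + d) + (k + 1) = (3 * k + 2 + 2 * d) + 1 by omega,
      show k + 1 + d + k - 1 = 2 * k + d by omega,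
      show 2 * (k + 1 + d) - k - 1 = (k + 2 * d) + 1 by omega,
      show k + 1 + d - k = d + 1 by omega,
      show 2 * (k + 1 + d) + k = 3 * k + 2 + 2 * d by omega]
    rw [fac_succ (2 * k + d), fac_succ (3 * k + 2 + 2 * d), fac_succ (k + 2 * d), fac_succ d]
    have hc := cb_succ k
    have f1 : ((2 * k + d).factorial : ℝ) ≠ 0 := by positivity
    have f2 : ((3 * k + 2 + 2 * d).factorial : ℝ) ≠ 0 := by positivity
    have f3 : ((k + 2 * d).factorial : ℝ) ≠ 0 := by positivity
    have f4 : ((d).factorial : ℝ) ≠ 0 := by positivity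
    have g1 : ((3 * k + 2 + 2 * d : ℕ) : ℝ) + 1 ≠ 0 := by positivity
    have g2 : (d : ℝ) + 1 ≠ 0 := by positivity
    have hc' : ((k + 1).centralBinom : ℝ) = 2 * (2 * k + 1) * k.centralBinom / (k + 1) := by
      rw [← hc]; field_simp
    rw [hc']
    push_cast
    push_cast at g1
    field_simp
    ring

/-- the auxiliary quotient -/
noncomputable def E (k i : ℕ) : ℝ :=
  ((k + i - 1).factorial : ℝ) / (((2 * i + 2 - k).factorial : ℝ) * ((2 * k - i).factorial : ℝ))

/-- the telescoping function -/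
noncomputable def wf (k i : ℕ) : ℝ := if k ≤ 2 * i + 2 ∧ i + 2 ≤ 2 * k then
  (-1) ^ k * ((3 * i + 2) / 4) * (((k + i - 1).factorial : ℝ) /
    (((2 * i + 2 - k).factorial : ℝ) * ((2 * k - i - 2).factorial : ℝ))) else 0

theorem g_nat {k i : ℕ} (h1 : k ≤ 2 * i) (h2 : i ≤ 2 * k) :
    g k i = (-1) ^ k * (T (2 * i - k) (2 * k - i) : ℤ) := by
  unfold g
  rw [← TZ_nat]
  congr 2
  · omega
  · omega

theorem gE {k i : ℕ} (h : 1 ≤ k) (hk : k ≤ 2 * i + 2) (hi : i ≤ 2 * k) :
    (g k i : ℝ) = 3 * (-1) ^ k * k * (2 * i + 1 - k) * (2 * i + 2 - k) * E k i := by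
  rcases Nat.lt_or_ge (2 * i) k with h1 | h1
  · rw [g_small (by omega)]
    have h2 : k = 2 * i + 1 ∨ k = 2 * i + 2 := by omega
    rcases h2 with h2 | h2
    · rw [h2]; push_cast; ring
    · rw [h2]; push_cast; ring
  · rw [g_nat h1 hi]
    obtain ⟨A, hA⟩ : ∃ A, 2 * i = k + A := ⟨2 * i - k, by omega⟩
    obtain ⟨B, hB⟩ : ∃ B, 2 * k = i + B := ⟨2 * k - i, by omega⟩
    have hT := T_closed A B (by omega)
    unfold E
    rw [show 2 * i - k = A by omega, show 2 * k - i = B by omega,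
      show 2 * i + 2 - k = A + 1 + 1 by omega, show k + i - 1 = A + B - 1 by omega, fac_succ,
      fac_succ]
    have hA' : 2 * (i : ℝ) = k + A := by exact_mod_cast hA
    have hB' : 2 * (k : ℝ) = i + B := by exact_mod_cast hB
    have e1 : 2 * (i : ℝ) + 1 - k = A + 1 := by linarith
    have e2 : 2 * (i : ℝ) + 2 - k = A + 2 := by linarith
    have e3 : (A : ℝ) + 2 * B = 3 * k := by linarith
    rw [e3] at hT
    have f1 : (A.factorial : ℝ) ≠ 0 := by positivity
    have f2 : (B.factorial : ℝ) ≠ 0 := by positivity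
    have f3 : (A : ℝ) + 1 ≠ 0 := by positivity
    have f4 : (A : ℝ) + 1 + 1 ≠ 0 := by positivity
    have hT' : (T A B : ℝ) = 3 * k * (A + B - 1).factorial / (A.factorial * B.factorial) := by
      rw [← hT]; field_simp
    rw [e1, e2]
    push_cast
    rw [hT']
    field_simp
    ring

theorem gE1 {k i : ℕ} (h : 1 ≤ k) (hk : k ≤ 2 * i + 2) (hi : i ≤ 2 * k) :
    (g k ((i + 1 : ℕ) : ℤ) : ℝ) = 3 * (-1) ^ k * k * (k + i) * (2 * k - i) * E k i := by
  rcases Nat.lt_or_ge i (2 * k) with h1 | h1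
  · rw [g_nat (by omega) (by omega)]
    obtain ⟨A, hA⟩ : ∃ A, 2 * i + 2 = k + A := ⟨2 * i + 2 - k, by omega⟩
    obtain ⟨B, hB⟩ : ∃ B, 2 * k = i + 1 + B := ⟨2 * k - i - 1, by omega⟩
    have hT := T_closed A B (by omega)
    unfold E
    rw [show 2 * (i + 1) - k = A by omega, show 2 * k - (i + 1) = B by omega,
      show 2 * i + 2 - k = A by omega, show 2 * k - i = B + 1 by omega, fac_succ B]
    rw [show A + B - 1 = (k + i - 1) + 1 by omega, fac_succ] at hT
    have hA' : 2 * (i : ℝ) + 2 = k + A := by exact_mod_cast hA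
    have hB' : 2 * (k : ℝ) = i + 1 + B := by exact_mod_cast hB
    have e1 : 2 * (k : ℝ) - i = B + 1 := by linarith
    have e3 : (A : ℝ) + 2 * B = 3 * k := by linarith
    have e4 : (((k + i - 1 : ℕ) : ℝ)) + 1 = k + i := by
      rw [Nat.cast_sub (by omega)]; push_cast; ring
    rw [e3, e4] at hT
    have f1 : (A.factorial : ℝ) ≠ 0 := by positivity
    have f2 : (B.factorial : ℝ) ≠ 0 := by positivity
    have f3 : (B : ℝ) + 1 ≠ 0 := by positivity
    have hT' : (T A B : ℝ) = 3 * k * ((k + i) * (k + i - 1).factorial) /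
        (A.factorial * B.factorial) := by
      rw [← hT]; field_simp
    rw [e1]
    push_cast
    rw [hT']
    field_simp
  · have h2 : i = 2 * k := by omega
    rw [g_big (by push_cast; omega), h2]
    push_cast
    ring

theorem wE {k i : ℕ} (h : 1 ≤ k) (hk : k ≤ 2 * i + 2) (hi : i ≤ 2 * k) :
    wf k i = (-1) ^ k * ((3 * i + 2) / 4) * (2 * k - i) * (2 * k - i - 1) * E k i := by
  unfold wf E
  by_cases h1 : i + 2 ≤ 2 * k
  · rw [if_pos ⟨hk, h1⟩]
    obtain ⟨B, hB⟩ : ∃ B, 2 * k = i + 2 + B := ⟨2 * k - i - 2, by omega⟩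
    rw [show 2 * k - i - 2 = B by omega, show 2 * k - i = B + 1 + 1 by omega, fac_succ, fac_succ]
    have hB' : 2 * (k : ℝ) = i + 2 + B := by exact_mod_cast hB
    have e1 : 2 * (k : ℝ) - i = B + 2 := by linarith
    rw [e1]
    have f1 : ((2 * i + 2 - k).factorial : ℝ) ≠ 0 := by positivity
    have f2 : (B.factorial : ℝ) ≠ 0 := by positivity
    have f3 : (B : ℝ) + 1 ≠ 0 := by positivity
    have f4 : ((B + 1 : ℕ) : ℝ) + 1 ≠ 0 := by positivity
    push_cast at f4 ⊢
    field_simp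
    ring
  · rw [if_neg (by omega)]
    have h2 : 2 * k = i ∨ 2 * k = i + 1 := by omega
    rcases h2 with h2 | h2
    · have : 2 * (k : ℝ) = i := by exact_mod_cast h2
      rw [this]; ring
    · have : 2 * (k : ℝ) = i + 1 := by exact_mod_cast h2
      rw [this]; ring

theorem wE1 {k i : ℕ} (h : 1 ≤ k) (hk : k ≤ 2 * i + 2) (hi : i ≤ 2 * k) :
    wf (k + 1) i = -((-1) ^ k * ((3 * i + 2) / 4) * (k + i) * (2 * i + 2 - k) * E k i) := by
  unfold wf E
  by_cases h1 : k + 1 ≤ 2 * i + 2
  · rw [if_pos ⟨h1, by omega⟩]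
    obtain ⟨A, hA⟩ : ∃ A, 2 * i + 1 = k + A := ⟨2 * i + 1 - k, by omega⟩
    rw [show 2 * i + 2 - (k + 1) = A by omega, show 2 * (k + 1) - i - 2 = 2 * k - i by omega,
      show k + 1 + i - 1 = (k + i - 1) + 1 by omega, show 2 * i + 2 - k = A + 1 by omega,
      fac_succ, fac_succ]
    have hA' : 2 * (i : ℝ) + 1 = k + A := by exact_mod_cast hA
    have e1 : 2 * (i : ℝ) + 2 - k = A + 1 := by linarith
    have e4 : (((k + i - 1 : ℕ) : ℝ)) + 1 = k + i := by
      rw [Nat.cast_sub (by omega)]; push_cast; ring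
    rw [e1, e4]
    have f1 : ((2 * k - i).factorial : ℝ) ≠ 0 := by positivity
    have f2 : (A.factorial : ℝ) ≠ 0 := by positivity
    have f3 : (A : ℝ) + 1 ≠ 0 := by positivity
    field_simp
    ring
  · rw [if_neg (by omega)]
    have h2 : k = 2 * i + 2 := by omega
    have : (k : ℝ) = 2 * i + 2 := by exact_mod_cast h2
    rw [this]
    ring

theorem w_big {k i : ℕ} (h : 2 * i + 2 < k) : wf k i = 0 := by
  unfold wf
  rw [if_neg (by omega)]

theorem w_small {k i : ℕ} (h : 2 * k < i + 2) : wf k i = 0 := by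
  unfold wf
  rw [if_neg (by omega)]

/-- the telescoping identity -/
theorem perk {k : ℕ} (h : 1 ≤ k) (i : ℕ) (M : ℝ) :
    ((i : ℝ) + 1 / 2) * (((i : ℝ) + 1) ^ 2 - M ^ 2) * (g k ((i + 1 : ℕ) : ℤ) : ℝ) -
      1 / 4 * (4 * M ^ 2 - (i : ℝ) ^ 2) * (i + 1) * (g k i : ℝ) =
    2 * (2 * k + 1) * (M ^ 2 - k ^ 2) * wf (k + 1) i - (k - 1) * (4 * M ^ 2 - k ^ 2) * wf k i := by
  by_cases hr : k ≤ 2 * i + 2 ∧ i ≤ 2 * k
  · rw [gE h hr.1 hr.2, gE1 h hr.1 hr.2, wE h hr.1 hr.2, wE1 h hr.1 hr.2]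
    ring
  · rw [not_and_or] at hr
    rcases hr with hr | hr
    · rw [g_small (k := k) (i := ((i + 1 : ℕ) : ℤ)) (by push_cast; omega),
        g_small (k := k) (i := (i : ℤ)) (by omega), w_big (by omega), w_big (by omega)]
      simp
    · rw [g_big (k := k) (i := ((i + 1 : ℕ) : ℤ)) (by push_cast; omega),
        g_big (k := k) (i := (i : ℤ)) (by omega), w_small (by omega), w_small (by omega)]
      simp

/-- the sums -/
noncomputable def Sm (M i : ℕ) : ℝ := ∑ k ∈ range (M + 1), P M k * (g k i : ℝ)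

theorem Sm_rec (M i : ℕ) :
    ((i : ℝ) + 1 / 2) * (((i : ℝ) + 1) ^ 2 - (M : ℝ) ^ 2) * Sm M (i + 1) =
      1 / 4 * (4 * (M : ℝ) ^ 2 - (i : ℝ) ^ 2) * (i + 1) * Sm M i := by
  set V : ℕ → ℝ := fun k => P M k * (k - 1) * (4 * (M : ℝ) ^ 2 - k ^ 2) * wf k i with hV
  have h1 : ((i : ℝ) + 1 / 2) * (((i : ℝ) + 1) ^ 2 - (M : ℝ) ^ 2) * Sm M (i + 1) -
      1 / 4 * (4 * (M : ℝ) ^ 2 - (i : ℝ) ^ 2) * (i + 1) * Sm M i =
      ∑ k ∈ range (M + 1), (V (k + 1) - V k) := by
    unfold Sm
    rw [Finset.mul_sum, Finset.mul_sum, ← Finset.sum_sub_distrib]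
    refine Finset.sum_congr rfl fun k hk => ?_
    rw [Finset.mem_range] at hk
    rcases Nat.eq_zero_or_pos k with h0 | h0
    · subst h0
      simp only [hV, P_zero]
      push_cast
      ring
    · have h2 := perk (k := k) h0 i (M : ℝ)
      have h3 := P_ratio (M := M) (k := k) h0 (by omega)
      simp only [hV]
      push_cast
      push_cast at h2
      linear_combination P M k * h2 - wf (k + 1) i * h3
  rw [Finset.sum_range_sub] at h1
  have h2 : V (M + 1) = 0 := by
    simp only [hV]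
    rw [P_big (by omega)]
    ring
  have h3 : V 0 = 0 := by
    simp only [hV]
    rw [P_zero]
    ring
  rw [h2, h3] at h1
  linarith

theorem Sm_zero (M : ℕ) : Sm M 0 = 0 := by
  unfold Sm
  refine Finset.sum_eq_zero fun k _ => ?_
  rcases Nat.eq_zero_or_pos k with h0 | h0
  · subst h0
    rw [P_zero]
    ring
  · rw [g_small (by push_cast; omega)]
    simp

theorem Sm_eq_zero {M i : ℕ} (h : i < M) : Sm M i = 0 := by
  induction i with
  | zero => exact Sm_zero M
  | succ i ih =>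
    have h1 := Sm_rec M i
    rw [ih (by omega), mul_zero] at h1
    rcases mul_eq_zero.1 h1 with h2 | h2
    · exfalso
      rcases mul_eq_zero.1 h2 with h3 | h3
      · have : (0 : ℝ) ≤ i := Nat.cast_nonneg i
        linarith
      · have h4 : ((i : ℝ) + 1) < M := by exact_mod_cast h
        have h5 : (0 : ℝ) ≤ i := Nat.cast_nonneg i
        nlinarith
    · exact h2

theorem Sm_self_ne {M : ℕ} (hM : 1 ≤ M) : Sm M M ≠ 0 := by
  intro h0
  have key : ∀ j, Sm M (M + j) = 0 := by
    intro j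
    induction j with
    | zero => exact h0
    | succ j ih =>
      have h1 := Sm_rec M (M + j)
      rw [ih, mul_zero] at h1
      rcases mul_eq_zero.1 h1 with h2 | h2
      · exfalso
        rcases mul_eq_zero.1 h2 with h3 | h3
        · have : (0 : ℝ) ≤ ((M + j : ℕ) : ℝ) := Nat.cast_nonneg _
          linarith
        · push_cast at h3
          have h4 : (0 : ℝ) ≤ j := Nat.cast_nonneg j
          have h5 : (0 : ℝ) ≤ M := Nat.cast_nonneg M
          nlinarith
      · exact h2
  have h1 := key M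
  unfold Sm at h1
  rw [Finset.sum_range_succ, Finset.sum_eq_zero] at h1
  · rw [g_nat (by omega) (by omega), show 2 * (M + M) - M = (3 * M - 1) + 1 by omega,
      show 2 * M - (M + M) = 0 by omega, T_zero_right] at h1
    have h2 := P_self_pos hM
    push_cast at h1
    rw [zero_add, mul_one] at h1
    rcases mul_eq_zero.1 h1 with h3 | h3
    · exact h2.ne' h3
    · exact absurd h3 (pow_ne_zero _ (by norm_num))
  · intro k hk
    rw [Finset.mem_range] at hk
    rw [g_big (by push_cast; omega)]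
    simp

theorem uniq : ∀ M : ℕ, 1 ≤ M → ∀ c : ℕ → ℝ, c 0 = 0 →
    (∀ i < M, ∑ k ∈ range (M + 1), c k * (g k i : ℝ) = 0) →
    ∃ l : ℝ, ∀ k ≤ M, c k = l * P M k := by
  intro M hM
  induction M, hM using Nat.le_induction with
  | base =>
    intro c h0 _
    have h1 : P 1 1 ≠ 0 := (P_self_pos le_rfl).ne'
    refine ⟨c 1 / P 1 1, fun k hk => ?_⟩
    have : k = 0 ∨ k = 1 := by omega
    rcases this with rfl | rfl
    · rw [h0, P_zero]; ring
    · field_simp
  | succ M hM ih =>
    intro c h0 h1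
    have hP : P (M + 1) (M + 1) ≠ 0 := (P_self_pos (by omega)).ne'
    set l := c (M + 1) / P (M + 1) (M + 1) with hl
    set d : ℕ → ℝ := fun k => c k - l * P (M + 1) k with hd
    have hd0 : d 0 = 0 := by
      simp only [hd]
      rw [h0, P_zero]; ring
    have hdM : d (M + 1) = 0 := by
      simp only [hd, hl]
      field_simp
      ring
    have hds : ∀ i < M + 1, ∑ k ∈ range (M + 1), d k * (g k i : ℝ) = 0 := by
      intro i hi
      have h2 := h1 i hi
      have h3 := Sm_eq_zero hi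
      unfold Sm at h3
      have h4 : ∑ k ∈ range (M + 1 + 1), d k * (g k i : ℝ) = 0 := by
        have : ∀ k, d k * (g k i : ℝ) = c k * (g k i : ℝ) - l * (P (M + 1) k * (g k i : ℝ)) := by
          intro k
          simp only [hd]
          ring
        simp only [this]
        rw [Finset.sum_sub_distrib, ← Finset.mul_sum, h2, h3]
        ring
      rw [Finset.sum_range_succ, hdM, zero_mul, add_zero] at h4
      exact h4
    obtain ⟨κ, hκ⟩ := ih d hd0 (fun i hi => hds i (by omega))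
    have h5 := hds M (by omega)
    have h6 : ∑ k ∈ range (M + 1), d k * (g k M : ℝ) = κ * Sm M M := by
      unfold Sm
      rw [Finset.mul_sum]
      refine Finset.sum_congr rfl fun k hk => ?_
      rw [Finset.mem_range] at hk
      rw [hκ k (by omega)]
      ring
    rw [h6] at h5
    have h7 : κ = 0 := by
      rcases mul_eq_zero.1 h5 with h | h
      · exact h
      · exact absurd h (Sm_self_ne hM)
    refine ⟨l, fun k hk => ?_⟩
    rcases Nat.eq_or_lt_of_le hk with h | h
    · rw [h, hl]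
      field_simp
    · have h8 := hκ k (by omega)
      rw [h7, zero_mul] at h8
      simp only [hd] at h8
      linarith

/-! ### normalization -/

/-- the certificate -/
noncomputable def Gc (M k : ℕ) : ℝ :=
  if k ≤ M + 1 then -((2 * M + 1) * (k - 1) * k * (k.centralBinom : ℝ) *
    ((M + k - 1).factorial : ℝ) * ((2 * M - k).factorial : ℝ)) /
      (((M + 1 - k).factorial : ℝ) * ((2 * M + k + 1).factorial : ℝ))
  else 0

theorem wz {M k : ℕ} (hM : 1 ≤ M) (hk : k ≤ M + 1) : P (M + 1) k - P M k = Gc M (k + 1) - Gc M k := by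
  rcases Nat.eq_zero_or_pos k with h0 | h0
  · subst h0
    rw [P_zero, P_zero]
    unfold Gc
    rw [if_pos (by omega), if_pos (by omega)]
    simp
  rcases Nat.eq_or_lt_of_le hk with h | h
  · subst h
    rw [P_big (M := M) (by omega)]
    unfold P Gc
    rw [if_pos (by omega), if_neg (by omega), if_pos (by omega)]
    obtain ⟨n, rfl⟩ : ∃ n, M = n + 1 := ⟨M - 1, by omega⟩
    rw [show n + 1 + 1 + (n + 1 + 1) - 1 = (2 * n + 2) + 1 by omega,
      show 2 * (n + 1 + 1) - (n + 1 + 1) - 1 = n + 1 by omega,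
      show n + 1 + 1 - (n + 1 + 1) = 0 by omega,
      show 2 * (n + 1 + 1) + (n + 1 + 1) = (3 * n + 5) + 1 by omega,
      show n + 1 + (n + 1 + 1) - 1 = 2 * n + 2 by omega,
      show 2 * (n + 1) - (n + 1 + 1) = n by omega,
      show 2 * (n + 1) + (n + 1 + 1) + 1 = 3 * n + 5 by omega]
    rw [fac_succ (2 * n + 2), fac_succ n, fac_succ (3 * n + 5)]
    have f1 : ((3 * n + 5).factorial : ℝ) ≠ 0 := by positivity
    have f2 : ((3 * n + 5 : ℕ) : ℝ) + 1 ≠ 0 := by positivity
    push_cast at f2 ⊢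
    simp only [Nat.factorial_zero]
    field_simp
    ring
  · obtain ⟨j, rfl⟩ : ∃ j, k = j + 1 := ⟨k - 1, by omega⟩
    obtain ⟨d, rfl⟩ : ∃ d, M = j + 1 + d := ⟨M - (j + 1), by omega⟩
    unfold P Gc
    rw [if_pos (by omega), if_pos (by omega), if_pos (by omega), if_pos (by omega)]
    rw [show j + 1 + d + 1 + (j + 1) - 1 = (2 * j + d + 1) + 1 by omega,
      show 2 * (j + 1 + d + 1) - (j + 1) - 1 = (j + 2 * d) + 1 + 1 by omega,
      show j + 1 + d + 1 - (j + 1) = d + 1 by omega,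
      show 2 * (j + 1 + d + 1) + (j + 1) = (3 * j + 3 + 2 * d) + 1 + 1 by omega,
      show j + 1 + d + (j + 1) - 1 = 2 * j + d + 1 by omega,
      show 2 * (j + 1 + d) - (j + 1) - 1 = j + 2 * d by omega,
      show j + 1 + d - (j + 1) = d by omega,
      show 2 * (j + 1 + d) + (j + 1) = 3 * j + 3 + 2 * d by omega,
      show j + 1 + d + (j + 1 + 1) - 1 = (2 * j + d + 1) + 1 by omega,
      show 2 * (j + 1 + d) - (j + 1 + 1) = j + 2 * d by omega,
      show j + 1 + d + 1 - (j + 1 + 1) = d by omega,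
      show 2 * (j + 1 + d) + (j + 1 + 1) + 1 = (3 * j + 3 + 2 * d) + 1 + 1 by omega,
      show 2 * (j + 1 + d) - (j + 1) = (j + 2 * d) + 1 by omega]
    rw [fac_succ (2 * j + d + 1), fac_succ (j + 2 * d + 1), fac_succ (j + 2 * d), fac_succ d,
      fac_succ (3 * j + 3 + 2 * d + 1), fac_succ (3 * j + 3 + 2 * d)]
    have hc := cb_succ (j + 1)
    push_cast at hc
    have hc' : ((j + 1 + 1).centralBinom : ℝ) =
        2 * (2 * (j + 1) + 1) * (j + 1).centralBinom / (j + 1 + 1) := by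
      rw [← hc]; field_simp
    rw [hc']
    have f1 : ((3 * j + 3 + 2 * d).factorial : ℝ) ≠ 0 := by positivity
    have f2 : ((3 * j + 3 + 2 * d : ℕ) : ℝ) + 1 ≠ 0 := by positivity
    have f3 : ((3 * j + 3 + 2 * d + 1 : ℕ) : ℝ) + 1 ≠ 0 := by positivity
    have f4 : (d.factorial : ℝ) ≠ 0 := by positivity
    have f5 : (d : ℝ) + 1 ≠ 0 := by positivity
    have f6 : (j : ℝ) + 1 + 1 ≠ 0 := by positivity
    push_cast at f2 f3 ⊢
    field_simp
    ring

theorem P_sum {M : ℕ} (hM : 1 ≤ M) : ∑ k ∈ range (M + 1), P M k = 1 := by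
  induction M, hM using Nat.le_induction with
  | base =>
    simp only [Finset.sum_range_succ, Finset.sum_range_zero, P_zero]
    unfold P
    simp [Nat.centralBinom, Nat.factorial]
    norm_num
  | succ M hM ih =>
    have h1 : ∑ k ∈ range (M + 1 + 1), (P (M + 1) k - P M k) = Gc M (M + 1 + 1) - Gc M 0 := by
      rw [← Finset.sum_range_sub]
      refine Finset.sum_congr rfl fun k hk => ?_
      rw [Finset.mem_range] at hk
      exact wz hM (by omega)
    rw [Finset.sum_sub_distrib] at h1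
    have h2 : ∑ k ∈ range (M + 1 + 1), P M k = 1 := by
      rw [Finset.sum_range_succ, P_big (by omega), add_zero, ih]
    have h3 : Gc M (M + 1 + 1) = 0 := by
      unfold Gc
      rw [if_neg (by omega)]
    have h4 : Gc M 0 = 0 := by
      unfold Gc
      rw [if_pos (by omega)]
      simp
    rw [h2, h3, h4] at h1
    linarith

/-- **the characterization of the law** -/
theorem law_unique {M : ℕ} (hM : 1 ≤ M) (q : ℕ → ℝ) (h0 : q 0 = 0)
    (h1 : ∀ i < M, ∑ k ∈ range (M + 1), q k * (g k i : ℝ) = 0)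
    (h2 : ∑ k ∈ range (M + 1), q k = 1) : ∀ k ≤ M, q k = P M k := by
  obtain ⟨l, hl⟩ := uniq M hM q h0 h1
  have h3 : ∑ k ∈ range (M + 1), q k = l * ∑ k ∈ range (M + 1), P M k := by
    rw [Finset.mul_sum]
    refine Finset.sum_congr rfl fun k hk => ?_
    rw [Finset.mem_range] at hk
    exact hl k (by omega)
  rw [h2, P_sum hM, mul_one] at h3
  intro k hk
  rw [hl k hk, ← h3, one_mul]

end Pool.Agent.Helper21.WC
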