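import Pool.Agent.Helper21.WC.Inv
import Pool.Agent.Helper21.WC.Uni
import Pool.Agent.Helper21.EV.Prob

/-!
# The law of the number of faces of the winding class under the stationary measure
-/

namespace Pool.Agent.Helper21.WC

open Pool.Agent.H863R2.Cyl Polynomial
open Pool.Agent.H988R2.Perc (Word)
open Pool.Agent.Helper21.ID (rw1)
open Pool.Agent.Helper21.EV (stat_bias sum_push_mul)

/-- extraction of coefficients -/
theorem extract {M n : ℕ} (S : ℕ → ℝ) (Q : ℕ → ℝ[X]) (hQ : ∀ i, (Q i).coeff 0 = 1)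
    (h : (X : ℝ[X]) ^ (2 * M) ∣ ∑ i ∈ Finset.range n, C (S i) * X ^ (2 * i) * Q i) :
    ∀ i < M, i < n → S i = 0 := by
  intro i
  induction i using Nat.strong_induction_on with
  | _ i ih =>
    intro hi hin
    have h1 := (Polynomial.X_pow_dvd_iff.1 h) (2 * i) (by omega)
    rw [Polynomial.finsetSum_coeff, Finset.sum_eq_single i] at h1
    · rw [mul_assoc, Polynomial.coeff_C_mul, Polynomial.coeff_X_pow_mul'] at h1
      simp only [le_refl, if_true, Nat.sub_self, hQ, mul_one] at h1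
      exact h1
    · intro j hj hji
      rcases lt_or_gt_of_ne hji with h2 | h2
      · rw [ih j h2 (by omega) (by omega)]
        simp
      · rw [mul_assoc, Polynomial.coeff_C_mul, Polynomial.coeff_X_pow_mul', if_neg (by omega),
          mul_zero]
    · intro h2
      exact absurd (Finset.mem_range.2 hin) h2

theorem one_term {M k : ℕ} (hk : k ≤ M) {p : ℝ} (hp : p ≠ 1) :
    (-p) ^ k * (1 - p) ^ (2 * M - 2 * k) + (1 - p) ^ (2 * M) * (p * (1 - p)) ^ k =
      ∑ i ∈ Finset.range (2 * M + 1), (g k i : ℝ) * (p ^ (2 * i) * (1 - p) ^ (2 * M - i)) := by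
  have h0 : (1 - p) ≠ 0 := sub_ne_zero.2 (Ne.symm hp)
  have h := power_sum (a := -p / (1 - p) ^ 2) (b := p * (1 - p)) (v := p ^ 2 / (1 - p))
    (by field_simp; ring) (by field_simp) k (2 * M + 1) (by omega)
  have e1 : (1 - p) ^ (2 * M) * (-p / (1 - p) ^ 2) ^ k = (-p) ^ k * (1 - p) ^ (2 * M - 2 * k) := by
    rw [div_pow, ← pow_mul]
    have : (1 - p) ^ (2 * M) = (1 - p) ^ (2 * k) * (1 - p) ^ (2 * M - 2 * k) := by
      rw [← pow_add]; congr 1; omega
    rw [this]
    field_simp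
  rw [← e1, ← mul_add, ← h, Finset.mul_sum]
  refine Finset.sum_congr rfl fun i hi => ?_
  rw [Finset.mem_range] at hi
  have : (1 - p) ^ (2 * M) = (1 - p) ^ i * (1 - p) ^ (2 * M - i) := by
    rw [← pow_add]; congr 1; omega
  rw [this, div_pow, ← pow_mul]
  field_simp

open Classical in
/-- the law of the number of faces of the winding class under `μ` -/
noncomputable def qk (m : ℕ) (μ : Wd (m + 1) → ℝ) (k : ℕ) : ℝ :=
  ∑ σ, μ σ * (if mn m σ.1 = k then 1 else 0)

theorem qk_sum {n : ℕ} (μ : Wd (2 * n + 1 + 1) → ℝ) (f : ℕ → ℝ) :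
    ∑ k ∈ Finset.range (n + 1 + 1), qk (2 * n + 1) μ k * f k =
      ∑ σ, μ σ * f (mn (2 * n + 1) σ.1) := by
  classical
  unfold qk
  simp only [Finset.sum_mul]
  rw [Finset.sum_comm]
  refine Finset.sum_congr rfl fun σ _ => ?_
  have h1 := mn_le (m := 2 * n + 1) (by omega) σ
  rw [Finset.sum_eq_single (mn (2 * n + 1) σ.1)]
  · simp
  · intro k _ hk
    rw [if_neg (Ne.symm hk)]
    ring
  · intro h
    rw [Finset.mem_range] at h
    omega

theorem one_term' {N M k : ℕ} (hN : N = 2 * M) (hk : k ≤ M) {p : ℝ} (hp : p ≠ 1) :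
    (-p) ^ k * (1 - p) ^ (N - 2 * k) + (1 - p) ^ N * (p * (1 - p)) ^ k =
      ∑ i ∈ Finset.range (N + 1), (g k i : ℝ) * (p ^ (2 * i) * (1 - p) ^ (N - i)) := by
  subst hN
  exact one_term hk hp

theorem sum_eq_zero_of_stat {m M : ℕ} (hm : 2 ≤ m) (hN : m + 1 = 2 * M)
    (μ : Wd (m + 1) → ℝ) (h1 : ∑ σ, μ σ = 1)
    (hst : ∀ σ, ∑ c : Fin (m + 1) → Bool, push (Tc m c) μ σ = 2 ^ (m + 1) * μ σ) :
    ∀ i < M, ∑ σ, μ σ * (g (mn m σ.1) i : ℝ) = 0 := by
  classical
  have hev : m % 2 = 1 := by omega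
  set F : Wd (m + 1) → ℝ[X] := fun σ =>
    (-X) ^ mn m σ.1 * (1 - X) ^ (m + 1 - 2 * mn m σ.1) +
      ∑ c' : Fin (m + 1) → Bool, (∏ j, (if c' j = true then (1 : ℝ[X]) else -X)) *
        (X * (1 - X)) ^ mn m (Tc m c' σ).1 with hF
  set D : ℝ[X] := ∑ σ, C (μ σ) * F σ with hD
  have hdvd : X ^ (m + 1) ∣ D := by
    refine Finset.dvd_sum fun σ _ => Dvd.dvd.mul_left ?_ _
    exact inv_dvd hm hev σ X
  set S : ℕ → ℝ := fun i => ∑ σ, μ σ * (g (mn m σ.1) i : ℝ) with hS
  set D' : ℝ[X] := ∑ i ∈ Finset.range (m + 1 + 1), C (S i) * X ^ (2 * i) *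
    (1 - X) ^ (m + 1 - i) with hD'
  have heval : ∀ p : ℝ, p ≠ 1 → eval p D = eval p D' := by
    intro p hp
    have h0 : (1 - p) ≠ 0 := sub_ne_zero.2 (Ne.symm hp)
    have hrw : ∀ c : Fin (m + 1) → Bool, (∏ j, (if c j = true then (1 : ℝ) else -p)) =
        (1 - p) ^ (m + 1) * rw1 (1 / (1 - p)) c := by
      intro c
      unfold rw1
      have : (1 - p) ^ (m + 1) = ∏ _j : Fin (m + 1), (1 - p) := by simp
      rw [this, ← Finset.prod_mul_distrib]
      refine Finset.prod_congr rfl fun j _ => ?_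
      split_ifs
      · field_simp
      · field_simp
        ring
    have e1 : eval p D = ∑ σ, μ σ * ((-p) ^ mn m σ.1 * (1 - p) ^ (m + 1 - 2 * mn m σ.1)) +
        ∑ σ, μ σ * ∑ c' : Fin (m + 1) → Bool, (∏ j, (if c' j = true then (1 : ℝ) else -p)) *
        (p * (1 - p)) ^ mn m (Tc m c' σ).1 := by
      rw [hD, Polynomial.eval_finsetSum, ← Finset.sum_add_distrib]
      refine Finset.sum_congr rfl fun σ _ => ?_
      rw [eval_mul, eval_C, hF, ← mul_add]
      congr 1
      rw [eval_add, eval_finsetSum]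
      congr 1
      · simp
      · refine Finset.sum_congr rfl fun c' _ => ?_
        rw [eval_mul, eval_prod]
        congr 1
        · refine Finset.prod_congr rfl fun j _ => ?_
          split_ifs <;> simp
        · simp
    have e2 : ∑ σ, μ σ * ∑ c' : Fin (m + 1) → Bool, (∏ j, (if c' j = true then (1 : ℝ) else -p)) *
        (p * (1 - p)) ^ mn m (Tc m c' σ).1 =
        ∑ σ, μ σ * ((1 - p) ^ (m + 1) * (p * (1 - p)) ^ mn m σ.1) := by
      simp only [Finset.mul_sum]
      rw [Finset.sum_comm]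
      have e3 : ∀ c' : Fin (m + 1) → Bool, ∑ σ, μ σ * ((∏ j, (if c' j = true then (1 : ℝ) else -p)) *
          (p * (1 - p)) ^ mn m (Tc m c' σ).1) =
          ∑ σ, (1 - p) ^ (m + 1) * (rw1 (1 / (1 - p)) c' * push (Tc m c') μ σ *
            (p * (1 - p)) ^ mn m σ.1) := by
        intro c'
        have h3 := sum_push_mul (Tc m c') μ (fun τ : Wd (m + 1) => (p * (1 - p)) ^ mn m τ.1)
        have h4 : ∑ σ, (1 - p) ^ (m + 1) * (rw1 (1 / (1 - p)) c' * push (Tc m c') μ σ *
            (p * (1 - p)) ^ mn m σ.1) = (1 - p) ^ (m + 1) * rw1 (1 / (1 - p)) c' *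
            ∑ σ, push (Tc m c') μ σ * (p * (1 - p)) ^ mn m σ.1 := by
          rw [Finset.mul_sum]
          refine Finset.sum_congr rfl fun σ _ => ?_
          ring
        rw [h4, h3, Finset.mul_sum]
        refine Finset.sum_congr rfl fun σ _ => ?_
        rw [hrw]
        ring
      simp only [e3]
      rw [Finset.sum_comm]
      refine Finset.sum_congr rfl fun σ _ => ?_
      have h5 := stat_bias m μ h1 hst (1 / (1 - p)) σ
      rw [← Finset.mul_sum, ← Finset.sum_mul, h5]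
      ring
    have e4 : eval p D' = ∑ i ∈ Finset.range (m + 1 + 1), S i *
        (p ^ (2 * i) * (1 - p) ^ (m + 1 - i)) := by
      rw [hD', eval_finsetSum]
      refine Finset.sum_congr rfl fun i _ => ?_
      simp only [eval_mul, eval_C, eval_pow, eval_X, eval_sub, eval_one]
      ring
    rw [e1, e2, e4, ← Finset.sum_add_distrib]
    simp only [hS, Finset.sum_mul]
    rw [Finset.sum_comm]
    refine Finset.sum_congr rfl fun σ _ => ?_
    have h6 := mn_le hev σ
    have h7 := one_term' (N := m + 1) (M := M) (k := mn m σ.1) hN (by omega) hp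
    have h8 : ∑ i ∈ Finset.range (m + 1 + 1), μ σ * (g (mn m σ.1) i : ℝ) *
        (p ^ (2 * i) * (1 - p) ^ (m + 1 - i)) = μ σ *
        ∑ i ∈ Finset.range (m + 1 + 1), (g (mn m σ.1) i : ℝ) *
          (p ^ (2 * i) * (1 - p) ^ (m + 1 - i)) := by
      rw [Finset.mul_sum]
      refine Finset.sum_congr rfl fun i _ => ?_
      ring
    rw [h8, ← h7]
    ring
  have hDD : D = D' := by
    apply Polynomial.eq_of_infinite_eval_eq
    refine Set.Infinite.mono (s := {p : ℝ | p ≠ 1}) (fun p hp => heval p hp) ?_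
    exact (Set.finite_singleton (1 : ℝ)).infinite_compl
  rw [hDD, show (X : ℝ[X]) ^ (m + 1) = X ^ (2 * M) by rw [hN]] at hdvd
  intro i hi
  exact extract S (fun i => (1 - X) ^ (m + 1 - i)) (fun i => by
    simp [Polynomial.coeff_zero_eq_eval_zero]) hdvd i hi (by omega)

/-- **the law of the number of faces of the winding class** -/
theorem mn_law {n : ℕ} (μ : Wd (2 * n + 1 + 1) → ℝ) (h1 : ∑ σ, μ σ = 1)
    (hst : ∀ σ, ∑ c : Fin (2 * n + 1 + 1) → Bool, push (Tc (2 * n + 1) c) μ σ =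
      2 ^ (2 * n + 1 + 1) * μ σ) (k : ℕ) (hk : k ≤ n + 1) :
    qk (2 * n + 1) μ k = P (n + 1) k := by
  classical
  have hq0 : qk (2 * n + 1) μ 0 = 0 := by
    unfold qk
    refine Finset.sum_eq_zero fun σ _ => ?_
    rw [if_neg, mul_zero]
    have := mn_pos (m := 2 * n + 1) (by omega) σ
    omega
  have hsum : ∑ k ∈ Finset.range (n + 1 + 1), qk (2 * n + 1) μ k = 1 := by
    have := qk_sum μ (fun _ => 1)
    simp only [mul_one] at this
    rw [this, h1]
  refine law_unique (by omega) (qk (2 * n + 1) μ) hq0 ?_ hsum k hk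
  intro i hi
  rcases Nat.eq_zero_or_pos n with h0 | h0
  · subst h0
    have : i = 0 := by omega
    subst this
    refine Finset.sum_eq_zero fun k _ => ?_
    rcases Nat.eq_zero_or_pos k with h2 | h2
    · rw [h2, hq0, zero_mul]
    · rw [g_small (by push_cast; omega)]
      simp
  · have h2 := qk_sum μ (fun k => (g k i : ℝ))
    rw [h2]
    exact sum_eq_zero_of_stat (M := n + 1) (by omega) (by ring) μ h1 hst i hi

end Pool.Agent.Helper21.WC
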