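import Pool.Agent.Helper21.WC.Asy

/-!
# The scaling limit of the law of the contacts
-/

namespace Pool.Agent.Helper21.WC

open Finset Filter Topology MeasureTheory

/-! ### the local limit theorem -/

theorem log_lower {x : ℝ} (h0 : 0 ≤ x) (h1 : x ≤ 1 / 2) : -x - 2 * x ^ 2 ≤ Real.log (1 - x) := by
  have h2 : 0 < 1 - x := by linarith
  have h3 := Real.one_sub_inv_le_log_of_pos h2
  refine le_trans ?_ h3
  have h4 : (1 - x)⁻¹ ≤ 1 + x + 2 * x ^ 2 := by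
    rw [inv_le_comm₀ h2 (by positivity), inv_le_iff_one_le_mul₀ (by positivity)]
    nlinarith [mul_nonneg (mul_nonneg h0 h0) (by linarith : (0 : ℝ) ≤ 1 - 2 * x)]
  linarith

theorem log_upper {x : ℝ} (h1 : x ≤ 1 / 2) : Real.log (1 - x) ≤ -x := by
  have h2 : 0 < 1 - x := by linarith
  have h3 := Real.log_le_sub_one_of_pos h2
  linarith

theorem Ac_pos {k : ℕ} (hk : 1 ≤ k) : 0 < Ac k := by
  unfold Ac
  have h1 : (0 : ℝ) < k := by exact_mod_cast hk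
  have h2 : (0 : ℝ) < (k.centralBinom : ℝ) := by exact_mod_cast Nat.centralBinom_pos k
  positivity

/-- the correction factor -/
noncomputable def Rf (M k : ℕ) : ℝ := 2 * (M : ℝ) * P M k / Ac k

theorem Rf_succ {M k : ℕ} (hk : 1 ≤ k) (h : k + 1 ≤ M) :
    Rf M (k + 1) = Rf M k * ((1 - (k : ℝ) ^ 2 / (M : ℝ) ^ 2) /
      (1 - ((k : ℝ) + 1) ^ 2 / (4 * (M : ℝ) ^ 2))) := by
  have h1 := P_ratio (M := M) hk (by omega)
  have hk1 : (1 : ℝ) ≤ k := by exact_mod_cast hk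
  have hkM : (k : ℝ) + 1 ≤ M := by exact_mod_cast h
  have hM0 : (0 : ℝ) < M := by linarith
  have hpos : 0 < 4 * (M : ℝ) ^ 2 - (k + 1) ^ 2 := by nlinarith
  have hA := (Ac_pos hk).ne'
  have hA1 := (Ac_pos (k := k + 1) (by omega)).ne'
  have h2 : P M (k + 1) = P M k * (2 * (2 * k + 1) * ((M : ℝ) ^ 2 - k ^ 2)) /
      (k * (4 * (M : ℝ) ^ 2 - (k + 1) ^ 2)) := by
    rw [← h1, mul_div_assoc, div_self (mul_pos (by linarith) hpos).ne', mul_one]
  unfold Rf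
  rw [h2, Ac_succ hk]
  have e1 : (1 - ((k : ℝ) + 1) ^ 2 / (4 * (M : ℝ) ^ 2)) =
      (4 * (M : ℝ) ^ 2 - (k + 1) ^ 2) / (4 * (M : ℝ) ^ 2) := by
    field_simp
  have e2 : (1 - (k : ℝ) ^ 2 / (M : ℝ) ^ 2) = ((M : ℝ) ^ 2 - k ^ 2) / (M : ℝ) ^ 2 := by
    field_simp
  rw [e1, e2]
  have e3 : (2 * (k : ℝ) + 1) ≠ 0 := by positivity
  have e4 : (k : ℝ) ≠ 0 := by positivity
  have e5 := hpos.ne'
  field_simp
  ring

theorem Rf_aux {L a b E2 E3 E5 D2 D3 D5 x y X Y j : ℝ} (h1 : -(E2 + E5) ≤ L + E3)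
    (h2 : L + E3 ≤ E2 + E5) (l1 : -x - X ≤ a) (l2 : a ≤ -x) (l3 : -y - Y ≤ b) (l4 : b ≤ -y)
    (j1 : -x + y + D3 = j) (j2 : j ≤ D2) (j3 : Y ≤ D5) (j4 : X ≤ D5) (j5 : 0 ≤ j)
    (j6 : 0 ≤ D2) : -(E2 + D2 + (E5 + D5)) ≤ L + (a - b) + (E3 + D3) ∧
    L + (a - b) + (E3 + D3) ≤ E2 + D2 + (E5 + D5) := by
  constructor <;> linarith

theorem poly1 {k : ℝ} (hk : 0 ≤ k) : (k + 1) ^ 4 / 8 ≤
    5 * k ^ 4 + 10 * k ^ 3 + 10 * k ^ 2 + 5 * k + 1 := by
  have h : 5 * k ^ 4 + 10 * k ^ 3 + 10 * k ^ 2 + 5 * k + 1 - (k + 1) ^ 4 / 8 =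
      39 / 8 * k ^ 4 + 76 / 8 * k ^ 3 + 74 / 8 * k ^ 2 + 36 / 8 * k + 7 / 8 := by ring
  have : 0 ≤ 39 / 8 * k ^ 4 + 76 / 8 * k ^ 3 + 74 / 8 * k ^ 2 + 36 / 8 * k + 7 / 8 := by
    positivity
  linarith

theorem poly2 {k : ℝ} (hk : 0 ≤ k) : 2 * k ^ 4 ≤
    5 * k ^ 4 + 10 * k ^ 3 + 10 * k ^ 2 + 5 * k + 1 := by
  have : 0 ≤ 3 * k ^ 4 + 10 * k ^ 3 + 10 * k ^ 2 + 5 * k + 1 := by positivity
  linarith

theorem Rf_bounds {M : ℕ} (hM : 1 ≤ M) {k : ℕ} (hk : 1 ≤ k) (h : 2 * k ≤ M + 2) :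
    0 < Rf M k ∧ |Real.log (Rf M k) + (k : ℝ) ^ 3 / (4 * (M : ℝ) ^ 2)| ≤
      (k : ℝ) ^ 2 / (M : ℝ) ^ 2 + (k : ℝ) ^ 5 / (M : ℝ) ^ 4 := by
  have hM1 : (1 : ℝ) ≤ M := by exact_mod_cast hM
  have hM0 : (0 : ℝ) < M := by linarith
  induction k, hk using Nat.le_induction with
  | base =>
    have e : Rf M 1 = (1 - 1 / (4 * (M : ℝ) ^ 2))⁻¹ := by
      unfold Rf
      rw [P_one hM]
      have := (Ac_pos (k := 1) le_rfl).ne'
      have h2 : (4 * (M : ℝ) ^ 2 - 1) ≠ 0 := by nlinarith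
      field_simp
    set y : ℝ := 1 / (4 * (M : ℝ) ^ 2) with hy
    have hy0 : 0 ≤ y := by rw [hy]; positivity
    have hy1 : y ≤ 1 / 4 := by
      rw [hy]
      apply one_div_le_one_div_of_le (by norm_num)
      nlinarith
    have h1 : 0 < 1 - y := by linarith
    refine ⟨by rw [e]; positivity, ?_⟩
    rw [e, Real.log_inv]
    have l1 := log_lower hy0 (by linarith)
    have l2 := log_upper (x := y) (by linarith)
    have e1 : ((1 : ℕ) : ℝ) ^ 3 / (4 * (M : ℝ) ^ 2) = y := by rw [hy]; norm_num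
    have e2 : ((1 : ℕ) : ℝ) ^ 2 / (M : ℝ) ^ 2 = 4 * y := by rw [hy]; field_simp; norm_num
    have e3 : ((1 : ℕ) : ℝ) ^ 5 / (M : ℝ) ^ 4 = 16 * y ^ 2 := by
      rw [hy]; field_simp; norm_num
    rw [e1, e2, e3, abs_le]
    constructor
    · nlinarith
    · nlinarith
  | succ k hk ih =>
    obtain ⟨ih0, ih1⟩ := ih (by omega)
    have hk1 : (1 : ℝ) ≤ k := by exact_mod_cast hk
    have hkM : 2 * (k : ℝ) ≤ M := by exact_mod_cast (by omega : 2 * k ≤ M)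
    have hkM' : (k : ℝ) + 1 ≤ M := by linarith
    rw [Rf_succ hk (by omega)]
    set x : ℝ := (k : ℝ) ^ 2 / (M : ℝ) ^ 2 with hx
    set y : ℝ := ((k : ℝ) + 1) ^ 2 / (4 * (M : ℝ) ^ 2) with hy
    have hx0 : 0 ≤ x := by rw [hx]; positivity
    have hx1 : x ≤ 1 / 4 := by
      rw [hx, div_le_iff₀ (by positivity)]
      nlinarith
    have hy0 : 0 ≤ y := by rw [hy]; positivity
    have hy1 : y ≤ 1 / 4 := by
      rw [hy, div_le_iff₀ (by positivity)]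
      nlinarith
    have p1 : 0 < 1 - x := by linarith
    have p2 : 0 < 1 - y := by linarith
    refine ⟨mul_pos ih0 (div_pos p1 p2), ?_⟩
    rw [Real.log_mul ih0.ne' (div_pos p1 p2).ne', Real.log_div p1.ne' p2.ne']
    have l1 := log_lower hx0 (by linarith)
    have l2 := log_upper (x := x) (by linarith)
    have l3 := log_lower hy0 (by linarith)
    have l4 := log_upper (x := y) (by linarith)
    rw [abs_le] at ih1 ⊢
    have hM2 : 0 < (M : ℝ) ^ 2 := by positivity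
    have hM4 : 0 < (M : ℝ) ^ 4 := by positivity
    push_cast
    -- the increments
    have i1 : ((k : ℝ) + 1) ^ 3 / (4 * (M : ℝ) ^ 2) = (k : ℝ) ^ 3 / (4 * (M : ℝ) ^ 2) +
        (3 * (k : ℝ) ^ 2 + 3 * k + 1) / (4 * (M : ℝ) ^ 2) := by
      rw [← add_div]; congr 1; ring
    have i2 : ((k : ℝ) + 1) ^ 2 / (M : ℝ) ^ 2 = (k : ℝ) ^ 2 / (M : ℝ) ^ 2 +
        (2 * k + 1) / (M : ℝ) ^ 2 := by
      rw [← add_div]; congr 1; ring
    have i3 : ((k : ℝ) + 1) ^ 5 / (M : ℝ) ^ 4 = (k : ℝ) ^ 5 / (M : ℝ) ^ 4 +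
        (5 * (k : ℝ) ^ 4 + 10 * (k : ℝ) ^ 3 + 10 * (k : ℝ) ^ 2 + 5 * k + 1) / (M : ℝ) ^ 4 := by
      rw [← add_div]; congr 1; ring
    rw [i1, i2, i3]
    have j1 : -x + y + (3 * (k : ℝ) ^ 2 + 3 * k + 1) / (4 * (M : ℝ) ^ 2) =
        (5 * k + 2) / (4 * (M : ℝ) ^ 2) := by
      rw [hx, hy]; field_simp; ring
    have j2 : (5 * (k : ℝ) + 2) / (4 * (M : ℝ) ^ 2) ≤ (2 * k + 1) / (M : ℝ) ^ 2 := by
      rw [div_le_div_iff₀ (by positivity) hM2]
      nlinarith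
    have j3 : 2 * y ^ 2 ≤
        (5 * (k : ℝ) ^ 4 + 10 * (k : ℝ) ^ 3 + 10 * (k : ℝ) ^ 2 + 5 * k + 1) / (M : ℝ) ^ 4 := by
      have : 2 * y ^ 2 = (((k : ℝ) + 1) ^ 4 / 8) / (M : ℝ) ^ 4 := by
        rw [hy]; field_simp; ring
      rw [this]
      exact div_le_div_of_nonneg_right (poly1 (by linarith)) hM4.le
    have j4 : 2 * x ^ 2 ≤
        (5 * (k : ℝ) ^ 4 + 10 * (k : ℝ) ^ 3 + 10 * (k : ℝ) ^ 2 + 5 * k + 1) / (M : ℝ) ^ 4 := by
      have : 2 * x ^ 2 = (2 * (k : ℝ) ^ 4) / (M : ℝ) ^ 4 := by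
        rw [hx]; field_simp
      rw [this]
      exact div_le_div_of_nonneg_right (poly2 (by linarith)) hM4.le
    have j5 : 0 ≤ (5 * (k : ℝ) + 2) / (4 * (M : ℝ) ^ 2) := by positivity
    have j6 : 0 ≤ (2 * (k : ℝ) + 1) / (M : ℝ) ^ 2 := by positivity
    exact Rf_aux ih1.1 ih1.2 l1 l2 l3 l4 j1 j2 j3 j4 j5 j6

/-- the central binomial coefficient, normalized -/
noncomputable def ak (k : ℕ) : ℝ := (k.centralBinom : ℝ) / 4 ^ k

theorem ak_pos (k : ℕ) : 0 < ak k := by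
  unfold ak
  have h2 : (0 : ℝ) < (k.centralBinom : ℝ) := by exact_mod_cast Nat.centralBinom_pos k
  positivity

theorem ak_W (k : ℕ) : (2 * (k : ℝ) + 1) * ak k ^ 2 * Real.Wallis.W k = 1 := by
  induction k with
  | zero => simp [ak, Real.Wallis.W]
  | succ k ih =>
    rw [Real.Wallis.W_succ]
    have h : ak (k + 1) = ak k * ((2 * k + 1) / (2 * k + 2)) := by
      unfold ak
      have h3 : ((k + 1).centralBinom : ℝ) = 2 * (2 * k + 1) * k.centralBinom / (k + 1) := by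
        rw [← cb_succ k]; field_simp
      rw [h3, pow_succ]
      field_simp
      ring
    rw [h]
    have e1 : (2 * ((k + 1 : ℕ) : ℝ) + 1) * (ak k * ((2 * k + 1) / (2 * k + 2))) ^ 2 *
        (Real.Wallis.W k * ((2 * k + 2) / (2 * k + 1) * ((2 * k + 2) / (2 * k + 3)))) =
        (2 * (k : ℝ) + 1) * ak k ^ 2 * Real.Wallis.W k := by
      push_cast
      field_simp
      ring
    rw [e1, ih]

theorem ak_bound (k : ℕ) : Real.sqrt k * ak k ≤ 1 := by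
  have h1 := ak_W k
  have hW : 1 ≤ Real.Wallis.W k := by
    have h2 := Real.Wallis.le_W k
    have h3 : (1 : ℝ) ≤ (2 * k + 1) / (2 * k + 2) * (Real.pi / 2) ∨ k = 0 := by
      rcases Nat.eq_zero_or_pos k with h | h
      · exact Or.inr h
      · left
        have hk1 : (1 : ℝ) ≤ k := by exact_mod_cast h
        have := Real.pi_gt_three
        rw [div_mul_eq_mul_div, le_div_iff₀ (by positivity)]
        nlinarith
    rcases h3 with h3 | h3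
    · linarith
    · rw [h3]
      simp [Real.Wallis.W]
  have h4 : (Real.sqrt k * ak k) ^ 2 ≤ 1 := by
    rw [mul_pow, Real.sq_sqrt (Nat.cast_nonneg k)]
    have h5 : 0 ≤ ak k ^ 2 := sq_nonneg _
    have h6 : (0 : ℝ) ≤ k := Nat.cast_nonneg k
    have h7 : (k : ℝ) * ak k ^ 2 ≤ (2 * k + 1) * ak k ^ 2 := by nlinarith
    have h8 : (2 * (k : ℝ) + 1) * ak k ^ 2 ≤ (2 * (k : ℝ) + 1) * ak k ^ 2 * Real.Wallis.W k :=
      le_mul_of_one_le_right (by positivity) hW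
    linarith
  have h9 : 0 ≤ Real.sqrt k * ak k := mul_nonneg (Real.sqrt_nonneg _) (ak_pos k).le
  nlinarith

theorem ak_lim : Tendsto (fun k : ℕ => Real.sqrt k * ak k) atTop (𝓝 (1 / √Real.pi)) := by
  have h1 : Tendsto (fun k : ℕ => ((k : ℝ) / (2 * k + 1)) / Real.Wallis.W k) atTop
      (𝓝 ((1 / 2) / (Real.pi / 2))) := by
    apply Tendsto.div _ Real.Wallis.tendsto_W_nhds_pi_div_two (by positivity)
    have e : (fun k : ℕ => (k : ℝ) / (2 * k + 1)) = fun k : ℕ => 1 / 2 - 1 / 2 * (1 / (2 * (k : ℝ) + 1)) := by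
      funext k
      field_simp
      ring
    rw [e]
    have h2 : Tendsto (fun k : ℕ => 1 / (2 * (k : ℝ) + 1)) atTop (𝓝 0) := by
      have h3 : Tendsto (fun k : ℕ => 2 * (k : ℝ) + 1) atTop atTop :=
        tendsto_atTop_add_const_right _ _
          (tendsto_natCast_atTop_atTop.const_mul_atTop (by norm_num : (0 : ℝ) < 2))
      simp only [one_div]
      exact tendsto_inv_atTop_zero.comp h3
    have := (h2.const_mul (1 / 2)).const_sub (1 / 2)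
    simpa using this
  have h2 := (Real.continuous_sqrt.tendsto _).comp h1
  have e2 : √((1 / 2) / (Real.pi / 2)) = 1 / √Real.pi := by
    rw [show (1 / 2) / (Real.pi / 2) = 1 / Real.pi by field_simp, Real.sqrt_div (by norm_num),
      Real.sqrt_one]
  rw [e2] at h2
  refine h2.congr fun k => ?_
  have h3 := ak_W k
  have hW : 0 < Real.Wallis.W k := Real.Wallis.W_pos k
  show √(((k : ℝ) / (2 * k + 1)) / Real.Wallis.W k) = √k * ak k
  have e3 : ((k : ℝ) / (2 * k + 1)) / Real.Wallis.W k = k * ak k ^ 2 := by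
    have : Real.Wallis.W k = 1 / ((2 * (k : ℝ) + 1) * ak k ^ 2) := by
      have h4 : (2 * (k : ℝ) + 1) * ak k ^ 2 ≠ 0 := by
        have := ak_pos k
        positivity
      rw [eq_div_iff h4, mul_comm]
      exact h3
    rw [this]
    have := (ak_pos k).ne'
    field_simp
  rw [e3, Real.sqrt_mul (Nat.cast_nonneg k), Real.sqrt_sq (ak_pos k).le]

end Pool.Agent.Helper21.WC
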