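import Pool.Agent.Helper21.WC.Val

/-!
# The probability that a boundary site belongs to the winding cluster
-/

namespace Pool.Agent.Helper21.WC

open Finset

/-- the certificate for the first moment -/
theorem wz1 {M k : ℕ} (hM : 1 ≤ M) (hk : k ≤ M + 1) :
    (M : ℝ) * (3 * M + 2) * (k * P (M + 1) k) - (M + 1) * (3 * M + 1) * (k * P M k) =
      M * (M + 1) * ((3 * ((k + 1 : ℕ) : ℝ) - 1) * Gc M (k + 1) - (3 * (k : ℝ) - 1) * Gc M k) := by
  rcases Nat.eq_zero_or_pos k with h0 | h0
  · subst h0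
    rw [P_zero, P_zero]
    unfold Gc
    rw [if_pos (by omega), if_pos (by omega)]
    simp
  rcases Nat.eq_or_lt_of_le hk with h | h
  · have h1 := wz (M := M) (k := k) hM hk
    subst h
    rw [P_big (M := M) (by omega)] at h1 ⊢
    have h2 : Gc M (M + 1 + 1) = 0 := by
      unfold Gc
      rw [if_neg (by omega)]
    rw [h2] at h1 ⊢
    rw [sub_zero, zero_sub] at h1
    rw [h1]
    push_cast
    ring
  · obtain ⟨j, rfl⟩ : ∃ j, k = j + 1 := ⟨k - 1, by omega⟩
    obtain ⟨d, rfl⟩ : ∃ d, M = j + 1 + d := ⟨M - (j + 1), by omega⟩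
    unfold P Gc
    rw [if_pos (by omega), if_pos (by omega), if_pos (by omega), if_pos (by omega)]
    rw [show j + 1 + d + 1 + (j + 1) - 1 = (2 * j + d + 1) + 1 by omega,
      show 2 * (j + 1 + d + 1) - (j + 1) - 1 = (j + 2 * d) + 1 + 1 by omega,
      show j + 1 + d + 1 - (j + 1) = d + 1 by omega,
      show 2 * (j + 1 + d + 1) + (j + 1) = (3 * j + 3 + 2 * d) + 1 + 1 by omega,
      show j + 1 + d + (j + 1) - 1 = 2 * j + d + 1 by omega,
      show 2 * (j + 1 + d) - (j + 1) - 1 = j + 2 * d by omega,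
      show j + 1 + d - (j + 1) = d by omega,
      show 2 * (j + 1 + d) + (j + 1) = 3 * j + 3 + 2 * d by omega,
      show j + 1 + d + (j + 1 + 1) - 1 = (2 * j + d + 1) + 1 by omega,
      show 2 * (j + 1 + d) - (j + 1 + 1) = j + 2 * d by omega,
      show j + 1 + d + 1 - (j + 1 + 1) = d by omega,
      show 2 * (j + 1 + d) + (j + 1 + 1) + 1 = (3 * j + 3 + 2 * d) + 1 + 1 by omega,
      show 2 * (j + 1 + d) - (j + 1) = (j + 2 * d) + 1 by omega]
    rw [fac_succ (2 * j + d + 1), fac_succ (j + 2 * d + 1), fac_succ (j + 2 * d), fac_succ d,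
      fac_succ (3 * j + 3 + 2 * d + 1), fac_succ (3 * j + 3 + 2 * d)]
    have hc := cb_succ (j + 1)
    push_cast at hc
    have hc' : ((j + 1 + 1).centralBinom : ℝ) =
        2 * (2 * (j + 1) + 1) * (j + 1).centralBinom / (j + 1 + 1) := by
      rw [← hc]; field_simp
    rw [hc']
    have f1 : ((3 * j + 3 + 2 * d).factorial : ℝ) ≠ 0 := by positivity
    have f2 : ((3 * j + 3 + 2 * d : ℕ) : ℝ) + 1 ≠ 0 := by positivity
    have f3 : ((3 * j + 3 + 2 * d + 1 : ℕ) : ℝ) + 1 ≠ 0 := by positivity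
    have f4 : (d.factorial : ℝ) ≠ 0 := by positivity
    have f5 : (d : ℝ) + 1 ≠ 0 := by positivity
    have f6 : (j : ℝ) + 1 + 1 ≠ 0 := by positivity
    push_cast at f2 f3 ⊢
    field_simp
    ring

/-- the mean number of contacts -/
noncomputable def eM (M : ℕ) : ℝ := ∑ k ∈ range (M + 1), k * P M k

theorem eM_succ {M : ℕ} (hM : 1 ≤ M) :
    (M : ℝ) * (3 * M + 2) * eM (M + 1) = (M + 1) * (3 * M + 1) * eM M := by
  have h1 : ∑ k ∈ range (M + 1 + 1), ((M : ℝ) * (3 * M + 2) * (k * P (M + 1) k) -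
      (M + 1) * (3 * M + 1) * (k * P M k)) =
      M * (M + 1) * ((3 * ((M + 1 + 1 : ℕ) : ℝ) - 1) * Gc M (M + 1 + 1) -
        (3 * ((0 : ℕ) : ℝ) - 1) * Gc M 0) := by
    rw [← Finset.sum_range_sub (fun k : ℕ => (3 * (k : ℝ) - 1) * Gc M k), Finset.mul_sum]
    refine Finset.sum_congr rfl fun k hk => ?_
    rw [Finset.mem_range] at hk
    exact wz1 hM (by omega)
  have h3 : Gc M (M + 1 + 1) = 0 := by
    unfold Gc
    rw [if_neg (by omega)]
  have h4 : Gc M 0 = 0 := by
    unfold Gc
    rw [if_pos (by omega)]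
    simp
  rw [h3, h4, Finset.sum_sub_distrib, ← Finset.mul_sum, ← Finset.mul_sum] at h1
  have h5 : ∑ k ∈ range (M + 1 + 1), (k : ℝ) * P M k = eM M := by
    rw [Finset.sum_range_succ, P_big (by omega)]
    unfold eM
    ring
  rw [h5] at h1
  unfold eM at h1 ⊢
  linarith

/-- the product formula for the mean number of contacts -/
theorem eM_closed (n : ℕ) :
    eM (n + 1) = (n + 1) * ∏ j ∈ range n, ((3 * (j : ℝ) + 4) / (3 * j + 5)) := by
  induction n with
  | zero =>
    have h := P_sum (M := 1) le_rfl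
    unfold eM
    simp only [Finset.sum_range_succ, Finset.sum_range_zero, P_zero, Finset.prod_range_zero] at h ⊢
    push_cast
    linarith
  | succ n ih =>
    have h := eM_succ (M := n + 1) (by omega)
    rw [ih] at h
    rw [Finset.prod_range_succ]
    have h1 : ((n + 1 : ℕ) : ℝ) * (3 * ((n + 1 : ℕ) : ℝ) + 2) ≠ 0 := by positivity
    apply mul_left_cancel₀ h1
    rw [h]
    push_cast
    field_simp
    ring

open MeasureTheory Pool.Agent.Helper21.EV Relation

theorem Hw_rot {m : ℕ} (ω : Fin (m + 1) × ℤ → Bool) (k t j : ℤ) :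
    Hw (fun z => ω (rotE m k z)) t j ↔ Hw ω t (j + k) := by
  have h1 : ∀ a b, LinkTo (fun z => ω (rotE m k z)) t a b →
      EqvGen (LinkTo ω t) (a.1 + k, a.2) (b.1 + k, b.2) := by
    intro a b h
    refine EqvGen.rel _ _ ⟨?_, h.2⟩
    have h2 := h.1
    rw [link_cases] at h2 ⊢
    have hval : ∀ j t, ω (rotE m k (col m j, t)) = ω (col m (j + k), t) := by
      intro j t
      show ω (col m j + col m k, t) = _
      rw [col_add]
    obtain ⟨x, s⟩ := a
    obtain ⟨y, u⟩ := b
    simp only [Prod.mk.injEq] at h2 ⊢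
    rcases h2 with ⟨⟨h3, h4⟩, h5⟩ | ⟨h3, h4, h5⟩
    · exact Or.inl ⟨⟨by omega, h4⟩, by rw [← hval]; exact h5⟩
    · exact Or.inr ⟨by omega, h4, by rw [← hval]; exact h5⟩
  have h1' : ∀ a b, LinkTo ω t a b →
      EqvGen (LinkTo (fun z => ω (rotE m k z)) t) (a.1 - k, a.2) (b.1 - k, b.2) := by
    intro a b h
    refine EqvGen.rel _ _ ⟨?_, h.2⟩
    have h2 := h.1
    rw [link_cases] at h2 ⊢
    have hval : ∀ j t, ω (rotE m k (col m (j - k), t)) = ω (col m j, t) := by
      intro j t
      show ω (col m (j - k) + col m k, t) = _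
      rw [col_add, sub_add_cancel]
    obtain ⟨x, s⟩ := a
    obtain ⟨y, u⟩ := b
    simp only [Prod.mk.injEq] at h2 ⊢
    rcases h2 with ⟨⟨h3, h4⟩, h5⟩ | ⟨h3, h4, h5⟩
    · exact Or.inl ⟨⟨by omega, h4⟩, by rw [hval]; exact h5⟩
    · exact Or.inr ⟨by omega, h4, by rw [hval]; exact h5⟩
  unfold Hw
  constructor
  · intro h
    have := eqv_map' (fun x : ℤ × ℤ => (x.1 + k, x.2)) h1 h
    simp only at this
    rw [show j + (m + 1) + k = j + k + ((m : ℤ) + 1) by ring] at this
    exact this
  · intro h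
    have := eqv_map' (fun x : ℤ × ℤ => (x.1 - k, x.2)) h1' h
    simp only at this
    rw [show j + k - k = j by ring, show j + k + ((m : ℤ) + 1) - k = j + (m + 1) by ring] at this
    exact this

/-- **the boundary one-arm probability of the half cylinder** -/
theorem Hw_prob {n : ℕ} {ε : ℝ} {p : ℤ → unitInterval} (hp : Ell ε p) (t j : ℤ) :
    (coins (2 * n + 1) p).real {ω | Hw ω t j} =
      1 / 2 * ∏ i ∈ range n, ((3 * (i : ℝ) + 4) / (3 * i + 5)) := by
  classical
  -- rotation invariance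
  have hrot : ∀ j : ℤ, (coins (2 * n + 1) p).real {ω | Hw ω t j} =
      (coins (2 * n + 1) p).real {ω | Hw ω t 0} := by
    intro j
    have h := real_rot (m := 2 * n + 1) p j (measurableSet_Hw (m := 2 * n + 1) t 0)
    rw [← h]
    congr 1
    ext ω
    have := Hw_rot ω j t 0
    rw [zero_add] at this
    exact this.symm
  -- the mean number of contacts
  have h1 : ∫ ω, (contacts ω t : ℝ) ∂(coins (2 * n + 1) p) =
      ∑ j : Fin (2 * n + 1 + 1), (coins (2 * n + 1) p).real {ω | Hw ω t (j.val : ℤ)} := by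
    have e : ∀ ω : Fin (2 * n + 1 + 1) × ℤ → Bool, (contacts ω t : ℝ) =
        ∑ j : Fin (2 * n + 1 + 1), ({ω : Fin (2 * n + 1 + 1) × ℤ → Bool |
          Hw ω t (j.val : ℤ)}).indicator (fun _ => (1 : ℝ)) ω := by
      intro ω
      have e2 : {j : Fin (2 * n + 1 + 1) | Hw ω t (j.val : ℤ)} =
          ((Finset.univ.filter (fun j : Fin (2 * n + 1 + 1) => Hw ω t (j.val : ℤ)) :
            Finset (Fin (2 * n + 1 + 1))) : Set (Fin (2 * n + 1 + 1))) := by
        ext j
        simp
      show ((Set.ncard {j : Fin (2 * n + 1 + 1) | Hw ω t (j.val : ℤ)} : ℕ) : ℝ) = _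
      rw [e2, Set.ncard_coe_finset, Finset.card_filter]
      push_cast
      refine Finset.sum_congr rfl fun t _ => ?_
      unfold Set.indicator
      simp only [Set.mem_ofPred_eq]
    simp only [e]
    rw [integral_finsetSum _ (fun j _ => (integrable_const (1 : ℝ)).indicator
      (measurableSet_Hw t _))]
    refine Finset.sum_congr rfl fun j _ => ?_
    exact integral_indicator_one (measurableSet_Hw t _)
  have h2 : ∫ ω, (contacts ω t : ℝ) ∂(coins (2 * n + 1) p) = eM (n + 1) := by
    have e : ∀ ω : Fin (2 * n + 1 + 1) × ℤ → Bool, (contacts ω t : ℝ) =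
        ∑ k ∈ range (2 * n + 3), (k : ℝ) * ({ω : Fin (2 * n + 1 + 1) × ℤ → Bool |
          contacts ω t = k}).indicator (fun _ => (1 : ℝ)) ω := by
      intro ω
      rw [Finset.sum_eq_single (contacts ω t)]
      · unfold Set.indicator
        simp
      · intro k _ hk
        unfold Set.indicator
        rw [if_neg (by simpa using Ne.symm hk)]
        ring
      · intro h
        exfalso
        apply h
        rw [Finset.mem_range]
        have : contacts ω t ≤ (2 * n + 1 + 1) := by
          unfold contacts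
          refine (Set.ncard_le_card _).trans ?_
          simp
        omega
    simp only [e]
    rw [integral_finsetSum _ (fun k _ => ((integrable_const (1 : ℝ)).indicator
      (measurableSet_contacts t k)).const_mul _)]
    have e2 : ∀ k : ℕ, ∫ ω, (k : ℝ) * ({ω : Fin (2 * n + 1 + 1) × ℤ → Bool |
          contacts ω t = k}).indicator (fun _ => (1 : ℝ)) ω ∂(coins (2 * n + 1) p) =
        k * P (n + 1) k := by
      intro k
      rw [integral_const_mul]
      congr 1
      have := integral_indicator_one (μ := coins (2 * n + 1) p)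
        (measurableSet_contacts (m := 2 * n + 1) t k)
      rw [contacts_law hp t k] at this
      exact this
    rw [Finset.sum_congr rfl (fun k _ => e2 k)]
    unfold eM
    symm
    apply Finset.sum_subset (Finset.range_subset_range.2 (by omega))
    intro k _ hk
    rw [Finset.mem_range, not_lt] at hk
    rw [P_big (by omega)]
    ring
  rw [hrot j]
  have h3 : ∑ j : Fin (2 * n + 1 + 1), (coins (2 * n + 1) p).real {ω | Hw ω t (j.val : ℤ)} =
      (2 * n + 2) * (coins (2 * n + 1) p).real {ω | Hw ω t 0} := by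
    rw [Finset.sum_congr rfl (fun j _ => hrot (j.val : ℤ)), Finset.sum_const, Finset.card_univ,
      Fintype.card_fin, nsmul_eq_mul]
    push_cast
    ring
  rw [h2, h3, eM_closed] at h1
  have h4 : (2 * (n : ℝ) + 2) ≠ 0 := by positivity
  apply mul_left_cancel₀ h4
  rw [← h1]
  ring

end Pool.Agent.Helper21.WC
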