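import Pool.Agent.Helper21.WC.Cdf
import Pool.Agent.Helper21.WC.Mean

/-!
# The scaling limit of the contacts: the probabilistic form, the Gaussian form of the limit, and the
decay of the one-arm probability
-/

namespace Pool.Agent.Helper21.WC

open Finset Filter Topology MeasureTheory ProbabilityTheory Pool.Agent.Helper21.EV

theorem hd_gauss {x : ℝ} (hx : 0 ≤ x) : ∫ s in (0 : ℝ)..x, hd s =
    (gaussianReal 0 1).real (Set.Icc (-√(2 * x ^ 3)) √(2 * x ^ 3)) := by
  have hπ := Real.pi_pos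
  set f : ℝ → ℝ := fun s => √2 * (s * √s) with hf
  set f' : ℝ → ℝ := fun s => √2 * (3 / 2 * √s) with hf'
  have h2 : √2 * √2 = 2 := Real.mul_self_sqrt (by norm_num)
  have hfx : ∀ s, 0 ≤ s → f s = √(2 * s ^ 3) := by
    intro s hs
    rw [hf, show 2 * s ^ 3 = 2 * (s ^ 2 * s) by ring, Real.sqrt_mul (by norm_num),
      Real.sqrt_mul (by positivity), Real.sqrt_sq hs]
  have hcov := intervalIntegral.integral_comp_mul_deriv'' (a := 0) (b := x) (f := f) (f' := f')
    (g := fun u => 2 * gaussianPDFReal 0 1 u)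
    (by
      apply Continuous.continuousOn
      rw [hf]
      exact continuous_const.mul (continuous_id.mul Real.continuous_sqrt))
    (by
      intro s hs
      rw [min_eq_left hx, max_eq_right hx] at hs
      have hs0 := hs.1
      have h1 : HasDerivAt f (√2 * (1 * √s + s * (1 / (2 * √s)))) s :=
        ((hasDerivAt_id s).mul (Real.hasDerivAt_sqrt hs0.ne')).const_mul _
      have h3 : √2 * (1 * √s + s * (1 / (2 * √s))) = f' s := by
        rw [hf']
        have h4 : 0 < √s := Real.sqrt_pos.2 hs0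
        have h5 : √s * √s = s := Real.mul_self_sqrt hs0.le
        have h6 : s * (1 / (2 * √s)) = √s / 2 := by
          nth_rw 1 [← h5]
          field_simp
        show √2 * (1 * √s + s * (1 / (2 * √s))) = √2 * (3 / 2 * √s)
        rw [h6]
        ring
      rw [h3] at h1
      exact h1.hasDerivWithinAt)
    (by
      apply Continuous.continuousOn
      rw [hf']
      exact continuous_const.mul (continuous_const.mul Real.continuous_sqrt))
    (by
      apply Continuous.continuousOn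
      unfold gaussianPDFReal
      fun_prop)
  have hint : ∀ s ∈ Set.uIcc 0 x, ((fun u => 2 * gaussianPDFReal 0 1 u) ∘ f) s * f' s = hd s := by
    intro s hs
    rw [Set.uIcc_of_le hx] at hs
    have hs0 := hs.1
    have h5 : √s * √s = s := Real.mul_self_sqrt hs0
    show 2 * gaussianPDFReal 0 1 (f s) * f' s = hd s
    unfold gaussianPDFReal hd
    have h6 : (f s) ^ 2 = 2 * s ^ 3 := by
      rw [hfx s hs0, Real.sq_sqrt (by positivity)]
    have h7 : √(2 * Real.pi * ((1 : NNReal) : ℝ)) = √2 * √Real.pi := by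
      rw [NNReal.coe_one, mul_one, Real.sqrt_mul (by norm_num)]
    rw [h7, sub_zero, h6, hf']
    have h8 : -(2 * s ^ 3) / (2 * ((1 : NNReal) : ℝ)) = -s ^ 3 := by
      rw [NNReal.coe_one]
      ring
    rw [h8]
    have h9 : 0 < √2 := Real.sqrt_pos.2 (by norm_num)
    have h10 : 0 < √Real.pi := Real.sqrt_pos.2 hπ
    field_simp
  rw [intervalIntegral.integral_congr hint] at hcov
  rw [hcov, hfx x hx]
  have hf0 : f 0 = 0 := by rw [hf]; simp
  rw [hf0]
  set a := √(2 * x ^ 3) with ha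
  have ha0 : 0 ≤ a := Real.sqrt_nonneg _
  have hcont : Continuous (gaussianPDFReal 0 1) := by
    unfold gaussianPDFReal
    fun_prop
  rw [intervalIntegral.integral_const_mul]
  have hneg : ∫ u in (-a)..0, gaussianPDFReal 0 1 u = ∫ u in (0 : ℝ)..a, gaussianPDFReal 0 1 u := by
    have h1 := intervalIntegral.integral_comp_neg (f := gaussianPDFReal 0 1) (a := 0) (b := a)
    rw [neg_zero] at h1
    rw [← h1]
    apply intervalIntegral.integral_congr
    intro u _
    show gaussianPDFReal 0 1 (-u) = gaussianPDFReal 0 1 u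
    unfold gaussianPDFReal
    simp
  have hsum : ∫ u in (-a)..a, gaussianPDFReal 0 1 u =
      2 * ∫ u in (0 : ℝ)..a, gaussianPDFReal 0 1 u := by
    rw [← intervalIntegral.integral_add_adjacent_intervals (hcont.intervalIntegrable (-a) 0)
      (hcont.intervalIntegrable 0 a), hneg]
    ring
  rw [← hsum, Measure.real, gaussianReal_apply_eq_integral 0 one_ne_zero, ENNReal.toReal_ofReal]
  · rw [integral_Icc_eq_integral_Ioc, intervalIntegral.integral_of_le (by linarith)]
  · exact integral_nonneg fun u => gaussianPDFReal_nonneg _ _ _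

/-- the distribution function of the contacts -/
theorem contacts_cdf {n : ℕ} {ε : ℝ} {p : ℤ → unitInterval} (hp : Ell ε p) (t : ℤ) {y : ℝ}
    (hy : 0 ≤ y) : (coins (2 * n + 1) p).real {ω | (contacts ω t : ℝ) ≤ y} =
      ∑ k ∈ range (⌊y⌋₊ + 1), P (n + 1) k := by
  have e : {ω : Fin (2 * n + 1 + 1) × ℤ → Bool | (contacts ω t : ℝ) ≤ y} =
      ⋃ k ∈ range (⌊y⌋₊ + 1), {ω | contacts ω t = k} := by
    ext ω
    simp only [Set.mem_ofPred_eq, Set.mem_iUnion, Finset.mem_range, exists_prop]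
    rw [← Nat.le_floor_iff hy]
    constructor
    · intro h
      exact ⟨_, by omega, rfl⟩
    · rintro ⟨i, h1, h2⟩
      omega
  rw [e, measureReal_biUnion_finset]
  · exact Finset.sum_congr rfl fun k _ => contacts_law hp t k
  · intro i _ j _ hij
    show Disjoint _ _
    rw [Set.disjoint_left]
    intro ω h1 h2
    exact hij ((show contacts ω t = i from h1).symm.trans h2)
  · intro k _
    exact measurableSet_contacts t k

/-- **the scaling limit** -/
theorem contacts_lim (p : ℕ → ℤ → unitInterval) (hp : ∀ n, ∃ ε, Ell ε (p n)) (t : ℕ → ℤ) {x : ℝ}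
    (hx : 0 ≤ x) : Tendsto (fun n => (coins (2 * n + 1) (p n)).real
      {ω | (contacts ω (t n) : ℝ) ≤ x * (2 * (n : ℝ) + 2) ^ (2 / 3 : ℝ)}) atTop
      (𝓝 ((gaussianReal 0 1).real (Set.Icc (-√(2 * x ^ 3)) √(2 * x ^ 3)))) := by
  rw [← hd_gauss hx]
  refine (cdf_lim hx).congr fun n => ?_
  obtain ⟨ε, h⟩ := hp n
  rw [contacts_cdf h (t n) (mul_nonneg hx (by positivity))]
  rfl

/-- the one-arm probability -/
noncomputable def arm (n : ℕ) : ℝ := 1 / 2 * ∏ i ∈ range n, ((3 * (i : ℝ) + 4) / (3 * i + 5))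

theorem arm_gamma {n : ℕ} (hn : 1 ≤ n) :
    Real.GammaSeq (2 / 3) n / Real.GammaSeq (1 / 3) n = (n : ℝ) ^ (1 / 3 : ℝ) * arm n := by
  unfold Real.GammaSeq arm
  rw [Finset.prod_range_succ', Finset.prod_range_succ']
  have h0 : (0 : ℝ) < n := by exact_mod_cast hn
  have h1 : (n : ℝ) ^ (2 / 3 : ℝ) = (n : ℝ) ^ (1 / 3 : ℝ) * (n : ℝ) ^ (1 / 3 : ℝ) := by
    rw [← Real.rpow_add h0]
    norm_num
  have h2 : 0 < (n : ℝ) ^ (1 / 3 : ℝ) := Real.rpow_pos_of_pos h0 _
  have h3 : (0 : ℝ) < n.factorial := by exact_mod_cast n.factorial_pos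
  have h4 : ∏ i ∈ range n, ((3 * (i : ℝ) + 4) / (3 * i + 5)) =
      (∏ k ∈ range n, (1 / 3 + ((k + 1 : ℕ) : ℝ))) / ∏ k ∈ range n, (2 / 3 + ((k + 1 : ℕ) : ℝ)) := by
    rw [← Finset.prod_div_distrib]
    refine Finset.prod_congr rfl fun i _ => ?_
    push_cast
    rw [div_eq_div_iff (by positivity) (by positivity)]
    ring
  have h5 : 0 < ∏ k ∈ range n, (1 / 3 + ((k + 1 : ℕ) : ℝ)) :=
    Finset.prod_pos fun i _ => by positivity
  have h6 : 0 < ∏ k ∈ range n, (2 / 3 + ((k + 1 : ℕ) : ℝ)) :=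
    Finset.prod_pos fun i _ => by positivity
  rw [h4, h1]
  push_cast at h5 h6 ⊢
  field_simp
  ring

theorem arm_lim : Tendsto (fun n : ℕ => (2 * (n : ℝ) + 2) ^ (1 / 3 : ℝ) * arm n) atTop
    (𝓝 (2 ^ (1 / 3 : ℝ) * (Real.Gamma (2 / 3) / Real.Gamma (1 / 3)))) := by
  have h1 : Tendsto (fun n : ℕ => Real.GammaSeq (2 / 3) n / Real.GammaSeq (1 / 3) n) atTop
      (𝓝 (Real.Gamma (2 / 3) / Real.Gamma (1 / 3))) :=
    (Real.GammaSeq_tendsto_Gamma (2 / 3)).div (Real.GammaSeq_tendsto_Gamma (1 / 3))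
      (Real.Gamma_pos_of_pos (by norm_num)).ne'
  have h2 : Tendsto (fun n : ℕ => (2 + 2 * (n : ℝ)⁻¹) ^ (1 / 3 : ℝ)) atTop (𝓝 (2 ^ (1 / 3 : ℝ))) := by
    have h3 : Tendsto (fun n : ℕ => 2 + 2 * (n : ℝ)⁻¹) atTop (𝓝 2) := by
      have := ((tendsto_inv_atTop_zero.comp (tendsto_natCast_atTop_atTop (R := ℝ))).const_mul
        2).const_add 2
      simpa using this
    exact h3.rpow_const (Or.inl (by norm_num))
  refine (h2.mul h1).congr' ?_
  filter_upwards [eventually_ge_atTop 1] with n hn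
  have h0 : (0 : ℝ) < n := by exact_mod_cast hn
  rw [arm_gamma hn, ← mul_assoc, ← Real.mul_rpow (by positivity) (by positivity)]
  congr 2
  field_simp

end Pool.Agent.Helper21.WC
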