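import Pool.Agent.Helper21.EV.Det2

/-!
# The winding class of a pattern on an even number of strands
-/

namespace Pool.Agent.Helper21.WC

open Pool.Agent.H863R2.Cyl Pool.Agent.H863R2.Cyl.Sem1Aux Relation
open Pool.Agent.H988R2.Perc (Word)

variable {m : ℕ}

/-- the face `a` belongs to the winding class of the pattern -/
def Jw (m : ℕ) (w : Word) (a : ℤ) : Prop := Rw w a (a + (m + 1))

/-- a periodic height function of a pattern -/
theorem exists_per {m : ℕ} (hev : m % 2 = 1) (σ : Wd (m + 1)) :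
    ∃ H : ℤ → ℤ, Inc (sg σ.1) H ∧ ∀ a, H (a + (m + 1)) = H a := by
  obtain ⟨H, h1, h2⟩ := exists_ht (sg σ.1)
  have hl : (σ.1.length : ℤ) = m + 1 := by rw [σ.2.1]; push_cast; ring
  have hs : lsum σ.1 = 0 := by
    rw [lsum_count]
    have := σ.2.2
    unfold Ok at this
    rw [this, σ.2.1]
    push_cast
    omega
  refine ⟨H, h1, fun a => ?_⟩
  have h3 : Inc (sg σ.1) (fun x => H (x + (m + 1))) := by
    intro x
    show H (x + 1 + (m + 1)) = H (x + (m + 1)) + sg σ.1 x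
    rw [show x + 1 + ((m : ℤ) + 1) = x + (m + 1) + 1 by ring, h1]
    congr 1
    have := sg_per σ.1 x 1
    rw [hl, one_mul] at this
    exact this
  have h4 := ht_take h1 0 σ.1.length le_rfl
  rw [List.take_length, hs] at h4
  refine (Inc.unique h3 h1 0 ?_ a)
  show H (0 + (m + 1)) = H 0
  rw [← hl]
  simpa using h4

/-- global minima -/
def Mn (H : ℤ → ℤ) (a : ℤ) : Prop := ∀ x, H a ≤ H x

theorem per_mul {H : ℤ → ℤ} {N : ℤ} (hp : ∀ a, H (a + N) = H a) (a k : ℤ) :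
    H (a + k * N) = H a := by
  induction k using Int.induction_on with
  | zero => simp
  | succ i ih => rw [← ih, show a + ((i : ℤ) + 1) * N = a + i * N + N by ring, hp]
  | pred i ih =>
    rw [← ih, show a + -(i : ℤ) * N = a + (-(i : ℤ) - 1) * N + N by ring, hp]

theorem Jw_iff {w : Word} {H : ℤ → ℤ} (h1 : Inc (sg w) H) (h2 : ∀ a, H (a + (m + 1)) = H a)
    (a : ℤ) : Jw m w a ↔ Mn H a := by
  unfold Jw
  rw [Rw_iff h1]
  have hN : (0 : ℤ) < m + 1 := by omega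
  constructor
  · rintro ⟨-, h⟩ x
    obtain ⟨k, hk⟩ : ∃ k : ℤ, a ≤ x + k * (m + 1) ∧ x + k * (m + 1) ≤ a + (m + 1) := by
      refine ⟨-((x - a) / (m + 1)), ?_⟩
      have g1 := Int.emod_nonneg (x - a) hN.ne'
      have g2 := Int.emod_lt_of_pos (x - a) hN
      have g3 := Int.emod_add_mul_ediv (x - a) (m + 1)
      constructor <;> nlinarith
    rw [← per_mul h2 x k]
    exact h _ (Or.inl hk)
  · intro h
    exact ⟨(h2 a).symm, fun l _ => h l⟩

theorem Jw_shift (σ : Wd (m + 1)) (a : ℤ) : Jw m σ.1 (a + (m + 1)) ↔ Jw m σ.1 a := by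
  unfold Jw
  have := Rw_shift σ.1 a (a + (m + 1))
  rw [show ((σ.1.length : ℕ) : ℤ) = m + 1 by rw [σ.2.1]; push_cast; ring] at this
  exact this

theorem Jw_shift_mul (σ : Wd (m + 1)) (a k : ℤ) : Jw m σ.1 (a + k * (m + 1)) ↔ Jw m σ.1 a := by
  induction k using Int.induction_on with
  | zero => simp
  | succ i ih =>
    rw [← ih, show a + ((i : ℤ) + 1) * (m + 1) = a + i * (m + 1) + (m + 1) by ring, Jw_shift]
  | pred i ih =>
    rw [← ih, show a + -(i : ℤ) * (m + 1) = a + (-(i : ℤ) - 1) * (m + 1) + (m + 1) by ring,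
      Jw_shift]

theorem Jw_nonempty (hev : m % 2 = 1) (σ : Wd (m + 1)) : ∃ a, Jw m σ.1 a := by
  obtain ⟨H, h1, h2⟩ := exists_per hev σ
  have hN : (0 : ℤ) < m + 1 := by omega
  obtain ⟨a, ha, hmin⟩ := Finset.exists_min_image (Finset.Ico (0 : ℤ) (m + 1)) H
    ⟨0, by simp⟩
  refine ⟨a, (Jw_iff h1 h2 a).2 fun x => ?_⟩
  have g1 := Int.emod_nonneg x hN.ne'
  have g2 := Int.emod_lt_of_pos x hN
  have g3 := Int.emod_add_mul_ediv x (m + 1)
  have := per_mul h2 (x % (m + 1)) (x / (m + 1))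
  have h5 : x % (m + 1 : ℤ) + x / (m + 1) * (m + 1) = x := by linarith
  rw [h5] at this
  rw [this]
  exact hmin _ (Finset.mem_Ico.2 ⟨g1, g2⟩)

theorem sg_cases (w : Word) (j : ℤ) : sg w j = 1 ∨ sg w j = -1 := by
  unfold sg
  split_ifs
  · exact Or.inl rfl
  · exact Or.inr rfl

theorem Jw_not_adj (hev : m % 2 = 1) (σ : Wd (m + 1)) {a : ℤ} (h : Jw m σ.1 a) :
    ¬ Jw m σ.1 (a + 1) := by
  obtain ⟨H, h1, h2⟩ := exists_per hev σ
  rw [Jw_iff h1 h2] at h ⊢
  intro h'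
  have g1 := h (a + 1)
  have g2 := h' a
  have g3 := h1 a
  rcases sg_cases σ.1 a with g4 | g4 <;> omega

theorem Jw_rel (hev : m % 2 = 1) (σ : Wd (m + 1)) {a b : ℤ} (h : Jw m σ.1 a) (h' : Jw m σ.1 b) :
    Rw σ.1 a b := by
  obtain ⟨H, h1, h2⟩ := exists_per hev σ
  rw [Jw_iff h1 h2] at h h'
  rw [Rw_iff h1]
  exact ⟨le_antisymm (h b) (h' a), fun l _ => h l⟩

theorem Jw_congr (σ : Wd (m + 1)) {a b : ℤ} (h : Rw σ.1 a b) : Jw m σ.1 a ↔ Jw m σ.1 b := by
  have key : Rw σ.1 (a + (m + 1)) (b + (m + 1)) := by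
    have := Rw_shift σ.1 a b
    rw [show ((σ.1.length : ℕ) : ℤ) = m + 1 by rw [σ.2.1]; push_cast; ring] at this
    exact this.2 h
  have he := Rw_equiv σ.1
  unfold Jw
  constructor
  · intro h'
    exact he.trans (he.trans (he.symm h) h') key
  · intro h'
    exact he.trans (he.trans h h') (he.symm key)

theorem Jw_congr' {σ : Wd (m + 1)} {a b : ℤ} {k : ℤ} (h : b = a + k * (m + 1)) :
    Jw m σ.1 a ↔ Jw m σ.1 b := by
  rw [h, Jw_shift_mul]

/-- all faces of the winding class are closed by the row `c` -/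
def Cl (m : ℕ) (w : Word) (c : Fin (m + 1) → Bool) : Prop :=
  ∀ a : ℤ, Jw m w a → cl c a = true ∧ cl c (a - 1) = false

theorem cl_per (c : Fin (m + 1) → Bool) (a k : ℤ) : cl c (a + k * (m + 1)) = cl c a := by
  unfold cl
  rw [Int.add_mul_emod_self_right]

/-! ### the generator -/

theorem E_isol (hm : 1 ≤ m) (σ : Wd (m + 1)) (j : ℕ) {b : ℤ}
    (h : Rw (E m j σ).1 (j + 1) b) : b = j + 1 := by
  rw [E_val, Rw_act σ.2.2 (by rw [σ.2.1]; omega)] at h
  rcases h with h | ⟨h, -⟩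
  · exact h.symm
  · exact absurd ⟨0, by ring⟩ h

theorem E_keep (hm : 1 ≤ m) (σ : Wd (m + 1)) (j : ℕ) {a b : ℤ} (h : Rw σ.1 a b)
    (ha : ∀ k : ℤ, a ≠ j + 1 + k * (m + 1)) (hb : ∀ k : ℤ, b ≠ j + 1 + k * (m + 1)) :
    Rw (E m j σ).1 a b := by
  have hl : (σ.1.length : ℤ) = m + 1 := by rw [σ.2.1]; push_cast; ring
  rw [E_val, Rw_act σ.2.2 (by rw [σ.2.1]; omega)]
  right
  have e1 : ¬ isol σ.1 j a := by
    rintro ⟨k, hk⟩
    rw [hl] at hk
    exact ha k hk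
  have e2 : ¬ isol σ.1 j b := by
    rintro ⟨k, hk⟩
    rw [hl] at hk
    exact hb k hk
  exact ⟨e1, e2, EqvGen.rel _ _ (Or.inl ⟨e1, e2, h⟩)⟩

theorem E_join (hm : 2 ≤ m) (σ : Wd (m + 1)) (j : ℕ) : Rw (E m j σ).1 j (j + 2) := by
  have hl : (σ.1.length : ℤ) = m + 1 := by rw [σ.2.1]; push_cast; ring
  rw [E_val, Rw_act σ.2.2 (by rw [σ.2.1]; omega)]
  right
  have e1 : ¬ isol σ.1 j j := by
    rintro ⟨k, hk⟩
    rw [hl] at hk
    have : k * (m + 1 : ℤ) = -1 := by linarith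
    have h2 : (m + 1 : ℤ) ∣ 1 := ⟨-k, by linarith⟩
    have := Int.le_of_dvd (by norm_num) h2
    omega
  have e2 : ¬ isol σ.1 j (j + 2) := by
    rintro ⟨k, hk⟩
    rw [hl] at hk
    have h2 : (m + 1 : ℤ) ∣ 1 := ⟨k, by linarith⟩
    have := Int.le_of_dvd (by norm_num) h2
    omega
  exact ⟨e1, e2, EqvGen.rel _ _ (Or.inr ⟨0, by ring, by ring⟩)⟩

/-- a set of non-isolated faces which is closed for the pattern and does not meet the joined faces
is closed for the new pattern -/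
theorem E_closed (hm : 1 ≤ m) (σ : Wd (m + 1)) (j : ℕ) {a b : ℤ} (h : Rw (E m j σ).1 a b)
    (S : ℤ → Prop) (hS : ∀ x y, Rw σ.1 x y → (S x ↔ S y))
    (h0 : ∀ k : ℤ, ¬ S (j + k * (m + 1))) (h2 : ∀ k : ℤ, ¬ S (j + 2 + k * (m + 1))) :
    S a → S b := by
  have hl : (σ.1.length : ℤ) = m + 1 := by rw [σ.2.1]; push_cast; ring
  rw [E_val, Rw_act σ.2.2 (by rw [σ.2.1]; omega)] at h
  rcases h with h | ⟨-, -, h⟩
  · rw [h]; exact id
  · have key : ∀ x y, EqvGen (fun x y => (¬ isol σ.1 j x ∧ ¬ isol σ.1 j y ∧ Rw σ.1 x y) ∨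
        ∃ k : ℤ, x = j + k * σ.1.length ∧ y = j + 2 + k * σ.1.length) x y → (S x ↔ S y) := by
      intro x y h
      induction h with
      | rel x y h =>
        rcases h with ⟨-, -, h⟩ | ⟨k, h3, h4⟩
        · exact hS x y h
        · rw [hl] at h3 h4
          rw [h3, h4]
          exact ⟨fun h => absurd h (h0 k), fun h => absurd h (h2 k)⟩
      | refl x => rfl
      | symm x y _ ih => exact ih.symm
      | trans x y z _ _ ih1 ih2 => exact ih1.trans ih2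
    exact (key a b h).1

end Pool.Agent.Helper21.WC
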